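import Mathlib

section FileDefs

/-!
Definitions for the proof that `δ n ^ 2` collinear triples force `k` points with `c k ^ 2`
collinear triples. Points are dualised to lines `Y = s + x * X`.
-/

set_option autoImplicit false

namespace Pool.Agent.MP_38296a_co.H21

open Finset Filter Classical

noncomputable section

/-! ### Triple systems -/

abbrev Tri (ι : Type) : Type := Fin 3 → ι

section Tri
variable {ι : Type}

/-- two coordinates determine the triple -/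
def Lin (T : Finset (Tri ι)) : Prop :=
  ∀ t ∈ T, ∀ u ∈ T, ∀ i j : Fin 3, i ≠ j → t i = u i → t j = u j → t = u

/-- `6 k` vertices span `k ^ 2` triples -/
def Rich (k : ℕ) (T : Finset (Tri ι)) : Prop :=
  ∃ S : Fin 3 → Finset ι, (∀ i, #(S i) ≤ 2 * k) ∧ k ^ 2 ≤ #{t ∈ T | ∀ i, t i ∈ S i}

/-- the vertices used in position `i` -/
def cl (T : Finset (Tri ι)) (i : Fin 3) : Finset ι := T.image fun t => t i

/-- all vertices -/
def lines (T : Finset (Tri ι)) : Finset ι := univ.biUnion (cl T)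

/-- real valued count -/
def cnt {α : Type} (S : Finset α) (P : α → Prop) : ℝ := (#{a ∈ S | P a} : ℕ)

def co (x : ι → ℝ) (t : Tri ι) (i : Fin 3) : ℝ := x (t (i + 1)) - x (t (i + 2))

def Om (x f : ι → ℝ) (t : Tri ι) : ℝ := ∑ i, co x t i * f (t i)

/-- the three lines pass through `(X, Y)` -/
def Thru (x s : ι → ℝ) (t : Tri ι) (X Y : ℝ) : Prop := ∀ i, Y = s (t i) + x (t i) * X

/-- slopes are close to `-1, 0, 1` -/
def Sep (ε : ℝ) (x : ι → ℝ) (T : Finset (Tri ι)) : Prop :=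
  ∀ t ∈ T, ∀ i : Fin 3, |x (t i) - (((i : ℕ) : ℝ) - 1)| ≤ ε

/-- concurrent triples of lines with distinct slopes and distinct vertices -/
structure Dual (x s : ι → ℝ) (T : Finset (Tri ι)) : Prop where
  lin : Lin T
  ne : ∀ t ∈ T, ∀ i j, i ≠ j → x (t i) ≠ x (t j)
  thru : ∀ t ∈ T, ∃ X Y, Thru x s t X Y
  one : ∀ t ∈ T, ∀ u ∈ T, ∀ X Y, Thru x s t X Y → Thru x s u X Y → t = u

/-- three solutions, the `j`-th nearly vanishing on the class `j` -/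
def Tro (η : ℝ) (x : ι → ℝ) (T : Finset (Tri ι)) (f : Fin 3 → ι → ℝ) : Prop :=
  ∀ t ∈ T, ∀ j, Om x (f j) t = 0 ∧ co x t (j + 1) * f j (t (j + 1)) ≠ 0 ∧
    |co x t j * f j (t j)| ≤ η * |co x t (j + 1) * f j (t (j + 1))|

def ev (f : ℝ × ℝ × ℝ) (p : ℝ × ℝ) : ℝ := f.1 * p.1 + f.2.1 * p.2 + f.2.2

/-- a dense system of collinear triples, one on a line, no rich line -/
structure Prim (k n : ℕ) (δ : ℝ) (p : ι → ℝ × ℝ) (T : Finset (Tri ι)) : Prop where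
  lin : Lin T
  size : #(lines T) ≤ n
  dens : δ * (n : ℝ) ^ 2 ≤ #T
  col : ∀ t ∈ T, ∃ f : ℝ × ℝ × ℝ, (f.1 ≠ 0 ∨ f.2.1 ≠ 0) ∧ ∀ i, ev f (p (t i)) = 0
  dist : ∀ t ∈ T, ∀ i j, i ≠ j → t i ≠ t j
  inj : ∀ a ∈ lines T, ∀ b ∈ lines T, p a = p b → a = b
  one : ∀ t ∈ T, ∀ u ∈ T, ∀ f : ℝ × ℝ × ℝ, (f.1 ≠ 0 ∨ f.2.1 ≠ 0) → (∀ i, ev f (p (t i)) = 0) →
    (∀ i, ev f (p (u i)) = 0) → t = u
  few : ∀ f : ℝ × ℝ × ℝ, (f.1 ≠ 0 ∨ f.2.1 ≠ 0) → #{a ∈ lines T | ev f (p a) = 0} ≤ k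

end Tri

/-- three families of lines with triple points -/
structure Fam (ι : Type) where
  T : Finset (Tri ι)
  x : ι → ℝ
  s : ι → ℝ

structure Fam.Ok {ι : Type} (ε : ℝ) (F : Fam ι) : Prop where
  lin : Lin F.T
  sep : Sep ε F.x F.T
  thru : ∀ t ∈ F.T, ∃ X Y, Thru F.x F.s t X Y
  one : ∀ t ∈ F.T, ∀ u ∈ F.T, ∀ X Y, Thru F.x F.s t X Y → Thru F.x F.s u X Y → t = u

abbrev Cell : Type := ℤ × ℤ

/-- lines with triple points located in cells of the unit grid -/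
structure Arr (ι : Type) where
  T : Finset (Tri ι)
  x : ι → ℝ
  s : ι → ℝ
  loc : Tri ι → Cell

structure Arr.Ok {ι : Type} (A : Arr ι) : Prop where
  lin : Lin A.T
  sep : Sep (1 / 10) A.x A.T
  vtx : ∀ t ∈ A.T, ∃ X Y, Thru A.x A.s t X Y ∧ ((A.loc t).1 : ℝ) ≤ X ∧ X ≤ (A.loc t).1 + 1 ∧
    ((A.loc t).2 : ℝ) ≤ Y ∧ Y ≤ (A.loc t).2 + 1
  far : ∀ t ∈ A.T, ∀ u ∈ A.T, t ≠ u →
    2 ≤ |(A.loc t).1 - (A.loc u).1| ∨ 2 ≤ |(A.loc t).2 - (A.loc u).2|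

/-- dyadic box of side `2 ^ j` -/
@[ext] structure Bx where
  j : ℕ
  u : ℤ
  v : ℤ

def Bx.cells (Q : Bx) : Finset Cell :=
  Ico (Q.u * 2 ^ Q.j) ((Q.u + 1) * 2 ^ Q.j) ×ˢ Ico (Q.v * 2 ^ Q.j) ((Q.v + 1) * 2 ^ Q.j)

def Bx.o (Q : Bx) : Cell := (Q.u * 2 ^ Q.j, Q.v * 2 ^ Q.j)

/-- the dyadic box of level `j` containing `p` -/
def anc (j : ℕ) (p : Cell) : Bx := ⟨j, p.1 / 2 ^ j, p.2 / 2 ^ j⟩

def Bx.avg (Q : Bx) (f : Cell → ℝ) : ℝ := (∑ p ∈ Q.cells, f p) / 4 ^ Q.j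

def Bx.fr (Q : Bx) (P : Cell → Prop) : ℝ := cnt Q.cells P / 4 ^ Q.j

/-- the cells of the boxes at distance at most `D` from `b` -/
def Bx.nb (b : Bx) (D : ℕ) : Finset Cell :=
  Ico ((b.u - D) * 2 ^ b.j) ((b.u + D + 1) * 2 ^ b.j) ×ˢ
    Ico ((b.v - D) * 2 ^ b.j) ((b.v + D + 1) * 2 ^ b.j)

/-- enlarged window -/
def Wn (p : Cell) (l : ℕ) : Finset Cell :=
  Icc (p.1 - 2 * 2 ^ l) (p.1 + 2 * 2 ^ l) ×ˢ Icc (p.2 - 12 * 2 ^ l) (p.2 + 12 * 2 ^ l)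

/-- macroscopic position of a cell in a box -/
def Bx.z (Q : Bx) (p : Cell) : ℝ × ℝ :=
  (((p.1 : ℝ) - Q.o.1) / 2 ^ Q.j, ((p.2 : ℝ) - Q.o.2) / 2 ^ Q.j)

def ind (P : Prop) : ℝ := if P then 1 else 0

/-- all triples in the box `[0, 2 ^ j) ^ 2`, few lines, many triples -/
structure Boxed {ι : Type} (A : Arr ι) (j : ℕ) (C δ : ℝ) : Prop where
  inb : ∀ t ∈ A.T, A.loc t ∈ (Bx.mk j 0 0).cells
  few : (#(lines A.T) : ℝ) ≤ C * 2 ^ j
  dens : δ * 4 ^ j ≤ #A.T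

namespace Arr
variable {ι : Type} (A : Arr ι)

/-- triples in a dyadic box -/
def TB (Q : Bx) : Finset (Tri ι) := {t ∈ A.T | A.loc t ∈ Q.cells}

/-- triples in the tall window of level `l` centred at `p` -/
def TW (p : Cell) (l : ℕ) : Finset (Tri ι) :=
  {t ∈ A.T | |(A.loc t).1 - p.1| ≤ 2 ^ l ∧ |(A.loc t).2 - p.2| ≤ 5 * 2 ^ l}

/-- triples in the square of radius `r` centred at `p` -/
def TS (p : Cell) (r : ℕ) : Finset (Tri ι) :=
  {t ∈ A.T | |(A.loc t).1 - p.1| ≤ r ∧ |(A.loc t).2 - p.2| ≤ r}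

/-- height of a line above the corner of the cell `p` -/
def ht (p : Cell) (a : ι) : ℝ := A.s a + A.x a * p.1 - p.2

/-- number of lines at vertical distance at most `ρ` from the corner of `p` -/
def nl (ρ : ℝ) (p : Cell) : ℝ := cnt (lines A.T) fun a => |A.ht p a| ≤ ρ

/-- density of triples on the line `a` in the block of columns of level `l` containing `u` -/
def dg (l : ℕ) (a : ι) (u : ℤ) : ℝ :=
  cnt A.T (fun t => (∃ i, t i = a) ∧ (A.loc t).1 / 2 ^ l = u / 2 ^ l) / 2 ^ l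

/-- deviation of the degrees from `d` -/
def ldv (d : ι → ℝ) (l : ℕ) (p : Cell) : ℝ :=
  ∑ a ∈ lines A.T with |A.ht p a| ≤ 1, |A.dg l a p.1 - d a|

/-- excess of the number of lines -/
def exc (K : ℝ) (l : ℕ) (p : Cell) : ℝ := max 0 ((anc l p).avg (A.nl 1) - K)

/-- at least half of the triples in the box have a small value -/
def Sm (Q : Bx) (β : Fin 3) (f : ι → ℝ) (b : ℝ) : Prop :=
  (#(A.TB Q) : ℝ) ≤ 2 * cnt (A.TB Q) fun t => |f (t β)| ≤ b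

def occ (p : Cell) : ℝ := ind (∃ t ∈ A.T, A.loc t = p)

/-- the same arrangement with fewer triples -/
def res (T : Finset (Tri ι)) : Arr ι := ⟨T, A.x, A.s, A.loc⟩

end Arr

/-! ### Linear algebra on windows -/

section Lin
variable {ι : Type}

/-- solutions of the linear system -/
def Ker (x : ι → ℝ) (τ : Finset (Tri ι)) : Submodule ℝ (ι → ℝ) where
  carrier := {f | ∀ t ∈ τ, Om x f t = 0}
  add_mem' := by
    intro f g hf hg t ht
    have h1 := hf t ht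
    have h2 := hg t ht
    simp only [Om, Pi.add_apply, mul_add, sum_add_distrib] at h1 h2 ⊢
    rw [h1, h2, add_zero]
  zero_mem' := by intro t _; simp [Om]
  smul_mem' := by
    intro c f hf t ht
    have h1 := hf t ht
    simp only [Om, Pi.smul_apply, smul_eq_mul] at h1 ⊢
    calc _ = c * ∑ i, co x t i * f (t i) := by rw [mul_sum]; exact sum_congr rfl fun i _ => by ring
      _ = 0 := by rw [h1, mul_zero]

/-- infinitesimal deformations `(σ, w)` of intercepts and slopes -/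
def Flex (x s : ι → ℝ) (τ : Finset (Tri ι)) : Submodule ℝ ((ι → ℝ) × (ι → ℝ)) where
  carrier := {ψ | ∀ t ∈ τ, Om x ψ.1 t + Om ψ.2 s t = 0}
  add_mem' := by
    intro f g hf hg t ht
    have h1 := hf t ht
    have h2 := hg t ht
    simp only [Om, co, Fin.sum_univ_three, Prod.fst_add, Prod.snd_add, Pi.add_apply] at h1 h2 ⊢
    linear_combination h1 + h2
  zero_mem' := by intro t _; simp [Om, co]
  smul_mem' := by
    intro c f hf t ht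
    have h1 := hf t ht
    simp only [Om, co, Fin.sum_univ_three, Prod.smul_fst, Prod.smul_snd, Pi.smul_apply,
      smul_eq_mul] at h1 ⊢
    linear_combination c * h1

/-- local labels -/
def Lab0 (x s : ι → ℝ) (τ : Finset (Tri ι)) : Submodule ℝ (ι → ℝ) :=
  Submodule.span ℝ {1, x, s} ⊔ (Flex x s τ).map (LinearMap.fst ℝ _ _) ⊔
    (Flex x s τ).map (LinearMap.snd ℝ _ _)

/-- approximate solutions in `U` are close to exact solutions in `U` -/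
def Hof (x : ι → ℝ) (U : Submodule ℝ (ι → ℝ)) (τ : Finset (Tri ι)) (c : ℝ) : Prop :=
  ∀ S ⊆ lines τ, ∀ τ' ⊆ τ, ∀ f ∈ U, ∀ b : ℝ, 0 ≤ b → (∀ a ∈ S, |f a| ≤ b) →
    (∀ t ∈ τ', |Om x f t| ≤ b) → ∃ g ∈ U, (∀ a ∈ S, g a = 0) ∧ (∀ t ∈ τ', Om x g t = 0) ∧
      ∀ a ∈ lines τ, |f a - g a| ≤ c * b

/-- distinct slopes are not too close -/
def Gap (x : ι → ℝ) (τ : Finset (Tri ι)) (c : ℝ) : Prop :=
  ∀ a ∈ lines τ, ∀ b ∈ lines τ, x a ≠ x b → 1 ≤ c * |x a - x b|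

/-- algebraic quotients of products of at most `L` differences of slopes lie in `S` -/
def AlgT (x : ι → ℝ) (τ : Finset (Tri ι)) (L : ℕ) (S : Finset ℝ) : Prop :=
  ∀ u v : Fin L → Option (ι × ι),
    (∀ i a b, u i = some (a, b) → a ∈ lines τ ∧ b ∈ lines τ) →
    (∀ i a b, v i = some (a, b) → a ∈ lines τ ∧ b ∈ lines τ) →
    IsAlgebraic ℚ ((∏ i, (u i).elim 1 fun e => x e.1 - x e.2) /
      ∏ i, (v i).elim 1 fun e => x e.1 - x e.2) →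
    (∏ i, (u i).elim 1 fun e => x e.1 - x e.2) / (∏ i, (v i).elim 1 fun e => x e.1 - x e.2) ∈ S

/-- after scaling the coefficients have algebraic ratios -/
def Alg (x : ι → ℝ) (T : Finset (Tri ι)) : Prop :=
  ∃ μ : ι → ℝ, (∀ a, μ a ≠ 0) ∧ ∀ t ∈ T, ∀ i j,
    IsAlgebraic ℚ (co x t i / μ (t i) / (co x t j / μ (t j)))

/-- span of the labels -/
def LV {D : ℕ} (lab : ι → Fin D → ℝ) : Submodule ℝ (ι → ℝ) :=
  Submodule.span ℝ (insert 1 (Set.range fun k a => lab a k))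

/-- span of the labels of the three lines of a triple -/
def LV3 {D : ℕ} (lab : ι → Fin D → ℝ) : Submodule ℝ (Tri ι → ℝ) :=
  Submodule.span ℝ (insert 1 (Set.range fun (e : Fin 3 × Fin D) (t : Tri ι) => lab (t e.1) e.2))

/-- general position: a polynomial in the labels with many zeros in the window vanishes -/
def GP {D : ℕ} (A : Arr ι) (lab : ι → Fin D → ℝ) (N : ℕ) (η : ℝ) (l : ℕ) (p : Cell) : Prop :=
  ∀ F ∈ LV3 lab ^ N, η * 4 ^ l ≤ cnt (A.TW p l) (fun t => F t = 0) → ∀ t ∈ A.T, F t = 0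

/-- solutions which vanish on the class `β` vanish -/
def Sp {D : ℕ} (A : Arr ι) (lab : ι → Fin D → ℝ) (N : ℕ) (β : Fin 3) : Prop :=
  ∀ f ∈ LV lab ^ N, f ∈ Ker A.x A.T → (∀ t ∈ A.T, f (t β) = 0) → ∀ t ∈ A.T, ∀ i, f (t i) = 0

end Lin

/-! ### Sequences of boxes -/

def UU : Filter ℕ := hyperfilter ℕ

/-- the averages vanish when the parameter is large -/
def Van (Q : ℕ → Bx) (h : ℕ → ℕ → Cell → ℝ) : Prop :=
  ∀ θ : ℝ, 0 < θ → ∃ c, ∀ᶠ n in UU, (Q n).avg (h n c) ≤ θ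

/-- the property holds at most cells when the parameter is large -/
def Tight (Q : ℕ → Bx) (P : ℕ → ℕ → Cell → Prop) : Prop :=
  ∀ θ : ℝ, 0 < θ → ∃ c, ∀ᶠ n in UU, (Q n).fr (fun p => ¬ P n c p) ≤ θ

/-- the property holds at most cells at all large levels -/
def Most (Q : ℕ → Bx) (P : ℕ → ℕ → Cell → Prop) : Prop :=
  ∀ θ : ℝ, 0 < θ → ∀ᶠ l in atTop, ∀ᶠ n in UU, (Q n).fr (fun p => ¬ P n l p) ≤ θ

/-- `P` follows from countably many vanishing conditions which hold for `Q` -/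
def Keep (Q : ℕ → Bx) (P : (ℕ → Bx) → Prop) : Prop :=
  ∃ h : ℕ → ℕ → ℕ → Cell → ℝ, (∀ m n c p, 0 ≤ h m n c p) ∧ (∀ m, Van Q (h m)) ∧
    ∀ Q' : ℕ → Bx, (∀ m, Van Q' (h m)) → P Q'

/-- positive proportion of the boxes of infinitely many levels -/
def Freq (Q : ℕ → Bx) (W : ℕ → Bx → Prop) : Prop :=
  ∃ κ : ℝ, 0 < κ ∧ ∃ᶠ L in atTop, ∀ᶠ n in UU, κ ≤ (Q n).fr fun p => W n (anc L p)

/-- the local averages of `g` are close to `γ` -/
def DH (Q : ℕ → Bx) (g : ℕ → Cell → ℝ) (γ : ℝ) : Prop :=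
  Van Q fun n l p => |(anc l p).avg (g n) - γ|

structure Val (A : ℕ → Arr ℕ) (Q : ℕ → Bx) : Prop where
  ok : ∀ n, (A n).Ok
  big : Tendsto (fun n => (Q n).j) UU atTop
  few : ∃ K : ℝ, ∀ᶠ n in UU, (A n).nl (3 * 2 ^ (Q n).j) (Q n).o ≤ K * 2 ^ (Q n).j

def Dens (A : ℕ → Arr ℕ) (Q : ℕ → Bx) : Prop :=
  ∃ δ : ℝ, 0 < δ ∧ ∀ᶠ n in UU, δ * 4 ^ (Q n).j ≤ #((A n).TB (Q n))

/-- same lines, fewer triples -/
def Sub (A' A : ℕ → Arr ℕ) : Prop := ∀ n, ∃ T ⊆ (A n).T, A' n = (A n).res T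

/-- sub-boxes -/
def In (Q' Q : ℕ → Bx) : Prop := ∀ᶠ n in UU, (Q' n).cells ⊆ (Q n).cells

/-- no crowded regions -/
def Exc (A : ℕ → Arr ℕ) (Q : ℕ → Bx) (K : ℝ) : Prop :=
  Van Q fun n l p => (A n).exc K l p

/-- triples are equidistributed along the lines -/
def Ld (A : ℕ → Arr ℕ) (Q : ℕ → Bx) (d : ℕ → ℕ → ℝ) : Prop :=
  Van Q fun n l p => (A n).ldv (d n) l p

/-- homogeneous state -/
structure Good (A : ℕ → Arr ℕ) (Q : ℕ → Bx) : Prop where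
  val : Val A Q
  occ : ∃ δ : ℝ, 0 < δ ∧ DH Q (fun n => (A n).occ) δ
  exc : ∃ K, Exc A Q K
  ld : ∃ d, Ld A Q d

/-- the property holds at most cells, uniformly in large dyadic boxes -/
def STight (Q : ℕ → Bx) (P : ℕ → ℕ → Cell → Prop) : Prop :=
  ∀ θ : ℝ, 0 < θ → ∃ c, Van Q fun n l p => max 0 ((anc l p).fr (fun q => ¬ P n c q) - θ)

/-- homogeneous labelled state in general position -/
structure Reg {D : ℕ} (A : ℕ → Arr ℕ) (Q : ℕ → Bx) (lab : ℕ → ℕ → Fin D → ℝ) : Prop where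
  good : Good A Q
  xs : ∀ n, (A n).x ∈ LV (lab n) ∧ (A n).s ∈ LV (lab n)
  gp : ∀ N L (η : ℝ), 0 < η → STight Q fun n l p => GP (A n) (lab n) N η (l + L) p
  gap : ∀ l, STight Q fun n c p => Gap (A n).x ((A n).TW p l) c

/-- slopes of the class `β` do not concentrate -/
def NA (A : ℕ → Arr ℕ) (Q : ℕ → Bx) (β : Fin 3) : Prop :=
  ∀ η : ℝ, 0 < η → ∃ γ : ℝ, 0 < γ ∧ Most Q fun n l p =>
    ∀ y : ℝ, cnt ((A n).TW p l) (fun t => |(A n).x (t β) - y| ≤ γ) ≤ η * 4 ^ l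

/-- output of the limiting procedure -/
structure UG (k : ℕ) (A : ℕ → Arr ℕ) (Q : ℕ → Bx) : Prop where
  val : Val A Q
  dens : Dens A Q
  poor : ∀ n, ¬ Rich k (A n).T
  gap : ∀ r, Tight Q fun n c p => Gap (A n).x ((A n).TS p r) c
  alg : ∃ S : ℕ → Finset ℝ, ∀ r L, Tight Q fun n c p => AlgT (A n).x ((A n).TS p r) L (S c)

/-- local error bounds -/
def LocHof (A : ℕ → Arr ℕ) (Q : ℕ → Bx) : Prop :=
  ∀ N r, Tight Q fun n c p =>
    Hof (A n).x (Lab0 (A n).x (A n).s ((A n).TS p r) ^ N) ((A n).TS p r) c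

/-! ### Rigidity -/

/-- solutions among the polynomial labels -/
def WN {ι : Type} {D : ℕ} (A : Arr ι) (lab : ι → Fin D → ℝ) (N : ℕ) : Submodule ℝ (ι → ℝ) :=
  LV lab ^ N ⊓ Ker A.x A.T

structure St3 {D : ℕ} (k : ℕ) (A : ℕ → Arr ℕ) (Q : ℕ → Bx) (lab : ℕ → ℕ → Fin D → ℝ) (N : ℕ)
    (β : Fin 3) : Prop where
  reg : Reg A Q lab
  hof : ∀ M l, STight Q fun n c p => Hof (A n).x (LV (lab n) ^ M) ((A n).TW p l) c
  poor : ∀ n, ¬ Rich k (A n).T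
  pos : 1 ≤ N
  na : NA A Q β
  sp : ∀ᶠ n in UU, Sp (A n) (lab n) (N + 1) β
  stab : ∀ᶠ n in UU, ∀ f ∈ WN (A n) (lab n) (N + 1), ∃ g ∈ WN (A n) (lab n) N,
    ∀ t ∈ (A n).T, ∀ i, f (t i) = g (t i)
  dim : ∃ E : ℕ, ∀ᶠ n in UU, ∀ g : Fin E → ℕ → ℝ, (∀ e, g e ∈ WN (A n) (lab n) N) →
    ∃ a : Fin E → ℝ, a ≠ 0 ∧ ∀ t ∈ (A n).T, ∀ i, ∑ e, a e * g e (t i) = 0

/-- bounded labels `g`, the first two being `1` and the slope -/
structure Lb0 {r : ℕ} (A : ℕ → Arr ℕ) (Q : ℕ → Bx) (β : Fin 3)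
    (g : ℕ → ℕ → Fin (r + 2) → ℝ) : Prop where
  ker : ∀ᶠ n in UU, ∀ e, (fun a => g n a e) ∈ Ker (A n).x (A n).T
  one : ∀ n a, g n a 0 = 1
  chi : ∀ n a, g n a 1 = (A n).x a
  bdd : ∀ θ : ℝ, 0 < θ → ∃ c : ℝ, Most Q fun n l p =>
    cnt ((A n).TW p l) (fun t => ∃ i, c < ‖g n (t i)‖) ≤ θ * 4 ^ l
  rgp : ∀ η : ℝ, 0 < η → ∃ C : ℝ, Most Q fun n l p => ∀ (a : Fin (r + 2) → ℝ) (b : ℝ), 0 ≤ b →
    η * 4 ^ l ≤ cnt ((A n).TW p l) (fun t => |a ⬝ᵥ g n (t β)| ≤ b) → ‖a‖ ≤ C * b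
  hom : ∀ (i : Fin 3) (y : Fin (r + 2) → ℝ) (γ κ : ℝ), 0 < γ → 0 < κ →
    (∀ᶠ n in UU, κ * 4 ^ (Q n).j ≤ cnt ((A n).TB (Q n)) fun t => ‖g n (t i) - y‖ ≤ γ) →
    Most Q fun n l p => κ / 2 * 4 ^ l ≤ cnt ((A n).TW p l) fun t => ‖g n (t i) - y‖ ≤ 2 * γ

/-- maximal family of bounded labels -/
structure Lb {D r : ℕ} (A : ℕ → Arr ℕ) (Q : ℕ → Bx) (lab : ℕ → ℕ → Fin D → ℝ) (N : ℕ) (β : Fin 3)
    (g : ℕ → ℕ → Fin (r + 2) → ℝ) : Prop extends Lb0 A Q β g where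
  mem : ∀ᶠ n in UU, ∀ e, (fun a => g n a e) ∈ WN (A n) (lab n) N
  app : ∀ (l : ℕ) (ε θ : ℝ), 0 < ε → 0 < θ → ∀ᶠ L in atTop, ∀ᶠ n in UU, (Q n).fr (fun p =>
    ∃ f ∈ WN (A n) (lab n) N, (A n).Sm (anc L p) β f 1 ∧ θ < (anc L p).fr fun q =>
      ¬ ∃ a : Fin (r + 2) → ℝ, ∀ t ∈ (A n).TW q l, |f (t β) - a ⬝ᵥ g n (t β)| ≤ ε) ≤ θ

/-- support of the limit distribution of the labels of the class `i` -/
def Supp {r : ℕ} (A : ℕ → Arr ℕ) (Q : ℕ → Bx) (g : ℕ → ℕ → Fin (r + 2) → ℝ) (i : Fin 3)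
    (y : Fin (r + 2) → ℝ) : Prop :=
  ∀ γ : ℝ, 0 < γ → ∃ κ : ℝ, 0 < κ ∧
    ∀ᶠ n in UU, κ * 4 ^ (Q n).j ≤ cnt ((A n).TB (Q n)) fun t => ‖g n (t i) - y‖ ≤ γ

/-- affine functions `σ a + ξ * w a` on the lines are described by the field `F` -/
structure BD {r : ℕ} (A : ℕ → Arr ℕ) (Q : ℕ → Bx) (g : ℕ → ℕ → Fin (r + 2) → ℝ)
    (σ w : ℕ → ℕ → ℝ) (F : ℕ → Cell → Fin (r + 2) → ℝ) : Prop where
  fd : ∀ (l : ℕ) (ε : ℝ), 0 < ε → ∀ᶠ n in UU, (Q n).fr (fun p => ¬ ∀ t ∈ (A n).TW p l, ∀ i,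
    |σ n (t i) + ((Q n).z p).1 * w n (t i) - F n p ⬝ᵥ g n (t i)| ≤ ε) ≤ ε
  tt : ∀ θ : ℝ, 0 < θ → ∃ c : ℝ, ∀ᶠ n in UU,
    cnt ((A n).TB (Q n)) (fun t => ∃ i, c < |σ n (t i)| + |w n (t i)|) ≤ θ * 4 ^ (Q n).j

/-- open square with margin `ζ` -/
def Cen (ζ : ℝ) : Set (ℝ × ℝ) := Set.Ioo ζ (1 - ζ) ×ˢ Set.Ioo ζ (1 - ζ)

/-! ### Places -/

abbrev KK : Type := algebraicClosure ℚ ℝ

/-- after local scaling all coefficients lie in the finite set `S` -/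
def LocFin {ι : Type} {D : ℕ} (z : ι → Fin D → KK) (cc : Tri ι → Fin 3 → KK) (S : Finset KK)
    (τ : Finset (Tri ι)) : Prop :=
  ∃ ν : ι → KK, (∀ a, ν a ≠ 0) ∧
    (∀ t ∈ τ, ∀ i j, cc t i * ν (t i) / (cc t j * ν (t j)) ∈ S) ∧
    ∀ B ⊆ lines τ, ∀ y ∈ lines τ, z y ∈ Submodule.span KK (z '' (B : Set ι)) →
      ∃ σ : ι → KK, (∀ a ∈ B, σ a ∈ S) ∧ (ν y)⁻¹ • z y = ∑ a ∈ B, σ a • (ν a)⁻¹ • z a

structure St4 {D : ℕ} (k : ℕ) (A : ℕ → Arr ℕ) (Q : ℕ → Bx) (β : Fin 3)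
    (z : ℕ → ℕ → Fin D → KK) (cc : ℕ → Tri ℕ → Fin 3 → KK) (S : ℕ → Finset KK) : Prop where
  good : Good A Q
  na : NA A Q β
  poor : ∀ n, ¬ Rich k (A n).T
  rel : ∀ᶠ n in UU, ∀ t ∈ (A n).T, ∑ i, cc n t i • z n (t i) = 0 ∧
    ∀ i, cc n t i ≠ 0 ∧ z n (t i) ≠ 0
  geo : ∀ᶠ n in UU, ∀ a ∈ lines (A n).T, ∀ b ∈ lines (A n).T, ∀ c : KK, z n a = c • z n b →
    (A n).x a = (A n).x b ∧ (A n).s a = (A n).s b
  span : ∀ η : ℝ, 0 < η → Most Q fun n l p => ∀ (i : Fin 3) (B : Set ℕ),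
    η * 4 ^ l ≤ cnt ((A n).TW p l) (fun t => t i ∈ B) →
      ∀ t ∈ (A n).T, ∀ j, (j = i ∨ i = β) → z n (t j) ∈ Submodule.span KK (z n '' B)
  fin : ∀ l, Tight Q fun n c p => LocFin (z n) (cc n) (S c) ((A n).TW p l)

end

end Pool.Agent.MP_38296a_co.H21

end FileDefs

section FileDefs3

set_option autoImplicit false

namespace Pool.Agent.MP_38296a_co.H21

open Finset Filter Classical

noncomputable section

/-- deformations in the coordinates of the box -/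
def FlexT {ι : Type} (A : Arr ι) (Q : Bx) (σ w : ι → ℝ) : Prop :=
  ∀ t ∈ A.T, ∀ X Y, Thru A.x A.s t X Y →
    Om A.x (fun a => σ a + (X - Q.o.1) / 2 ^ Q.j * w a) t = 0

/-- normalised height of a line -/
def Arr.hu {ι : Type} (A : Arr ι) (Q : Bx) (a : ι) : ℝ := A.ht Q.o a / 2 ^ Q.j

/-- approximate solutions which are small on the class `β` are small -/
def TrW {ι : Type} {D : ℕ} (A : Arr ι) (lab : ι → Fin D → ℝ) (M : ℕ) (β : Fin 3) (l : ℕ) (c : ℝ)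
    (p : Cell) : Prop :=
  ∀ f ∈ LV lab ^ M, ∀ b : ℝ, 0 ≤ b → (∀ t ∈ A.TW p l, |f (t β)| ≤ b ∧ |Om A.x f t| ≤ b) →
    ∀ t ∈ A.TW p l, ∀ i, |f (t i)| ≤ c * b

/-- approximate solutions are close to global solutions -/
def ApW {ι : Type} {D : ℕ} (A : Arr ι) (lab : ι → Fin D → ℝ) (N : ℕ) (l : ℕ) (c : ℝ)
    (p : Cell) : Prop :=
  ∀ f ∈ LV lab ^ (N + 1), ∀ b : ℝ, 0 ≤ b → (∀ t ∈ A.TW p l, |Om A.x f t| ≤ b) →
    ∃ h ∈ WN A lab N, ∀ t ∈ A.TW p l, ∀ i, |f (t i) - h (t i)| ≤ c * b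

/-- the field is bounded in the central part -/
def FBd {m : ℕ} (Q : ℕ → Bx) (F : ℕ → Cell → Fin m → ℝ) (C : ℝ) : Prop :=
  ∀ θ : ℝ, 0 < θ → ∀ᶠ n in UU,
    (Q n).fr (fun p => (Q n).z p ∈ Cen (1 / 4) ∧ C < ‖F n p‖) ≤ θ

/-- the field is nearly constant on small macroscopic boxes -/
def FReg {m : ℕ} (Q : ℕ → Bx) (F : ℕ → Cell → Fin m → ℝ) : Prop :=
  ∀ ε : ℝ, 0 < ε → ∀ᶠ k in atTop, ∀ κ : ℝ, 0 < κ → ∀ᶠ n in UU, ∀ b b' : Bx,
    b.j + k = (Q n).j → b'.j = b.j → |b.u - b'.u| ≤ 1 → |b.v - b'.v| ≤ 1 →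
    (∀ p ∈ b.cells ∪ b'.cells, p ∈ (Q n).cells ∧ (Q n).z p ∈ Cen (29 / 100)) →
    ∃ v, b.fr (fun p => ε < ‖F n p - v‖) ≤ κ ∧ b'.fr (fun p => ε < ‖F n p - v‖) ≤ κ

/-- convergence in measure -/
def FLim {m : ℕ} (Q : ℕ → Bx) (F : ℕ → Cell → Fin m → ℝ) (G : ℝ × ℝ → Fin m → ℝ) : Prop :=
  ∀ ε : ℝ, 0 < ε → ∀ᶠ n in UU,
    (Q n).fr (fun p => (Q n).z p ∈ Cen (3 / 10) ∧ ε < ‖F n p - G ((Q n).z p)‖) ≤ ε

/-- `G ⬝ y` is affine along the lines of slope `y 1` -/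
def AffOn {r : ℕ} (G : ℝ × ℝ → Fin (r + 2) → ℝ) (Y : Set (Fin (r + 2) → ℝ)) : Prop :=
  ∀ y ∈ Y, ∀ u ξ1 ξ2 ξ3 : ℝ, (ξ1, u + y 1 * ξ1) ∈ Cen (3 / 10) → (ξ2, u + y 1 * ξ2) ∈ Cen (3 / 10) →
    (ξ3, u + y 1 * ξ3) ∈ Cen (3 / 10) →
    (ξ2 - ξ3) * (G (ξ1, u + y 1 * ξ1) ⬝ᵥ y) + (ξ3 - ξ1) * (G (ξ2, u + y 1 * ξ2) ⬝ᵥ y) +
      (ξ1 - ξ2) * (G (ξ3, u + y 1 * ξ3) ⬝ᵥ y) = 0

/-- basis vector -/
def ee {m : ℕ} (i : Fin m) : Fin m → ℝ := Pi.single i 1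

/-- only the obvious quadratic relations hold on `Y` -/
def TrivRel {r : ℕ} (Y : Set (Fin (r + 2) → ℝ)) : Prop :=
  ∀ g0 g1 g2 : Fin (r + 2) → ℝ, (∀ y ∈ Y, g0 ⬝ᵥ y + y 1 * (g1 ⬝ᵥ y) + y 1 ^ 2 * (g2 ⬝ᵥ y) = 0) →
    ∃ a b : ℝ, g2 = a • ee 0 ∧ g1 = b • ee 0 - a • ee 1 ∧ g0 = -b • ee 1

def quad {r : ℕ} (f0 f1 f2 : Fin (r + 2) → ℝ) (a b : ℝ) (z : ℝ × ℝ) : Fin (r + 2) → ℝ :=
  f0 + z.1 • f1 + z.2 • f2 + (a * z.2 ^ 2 / 2 + b * z.1 * z.2) • ee 0 +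
    (-b * z.1 ^ 2 - a * z.1 * z.2 / 2) • ee 1

end

end Pool.Agent.MP_38296a_co.H21

end FileDefs3

section FileBaseA

set_option autoImplicit false

namespace Pool.Agent.MP_38296a_co.H21

open Finset Filter Classical

/-! ### Boxes -/

theorem cnt_nonneg {α : Type} (S : Finset α) (P : α → Prop) : 0 ≤ cnt S P := by
  unfold cnt; positivity

theorem cnt_le_card {α : Type} (S : Finset α) (P : α → Prop) : cnt S P ≤ #S := by
  unfold cnt; exact_mod_cast card_filter_le _ _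

theorem cnt_mono {α : Type} {S S' : Finset α} {P P' : α → Prop}
    (h : ∀ a ∈ S, P a → a ∈ S' ∧ P' a) : cnt S P ≤ cnt S' P' := by
  unfold cnt
  exact_mod_cast card_le_card fun a ha => mem_filter.2 (h a (mem_filter.1 ha).1 (mem_filter.1 ha).2)

theorem cnt_or {α : Type} {S : Finset α} {P P1 P2 : α → Prop} (h : ∀ a ∈ S, P a → P1 a ∨ P2 a) :
    cnt S P ≤ cnt S P1 + cnt S P2 := by
  unfold cnt
  have : #{a ∈ S | P a} ≤ #({a ∈ S | P1 a} ∪ {a ∈ S | P2 a}) := card_le_card fun a ha => by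
    rw [mem_filter] at ha
    rcases h a ha.1 ha.2 with h1 | h1
    · exact mem_union_left _ (mem_filter.2 ⟨ha.1, h1⟩)
    · exact mem_union_right _ (mem_filter.2 ⟨ha.1, h1⟩)
  exact_mod_cast this.trans (card_union_le _ _)

theorem basea_sum {α : Type} (S : Finset α) (P : α → Prop) :
    cnt S P = ∑ a ∈ S, ind (P a) := by
  unfold cnt ind
  rw [card_filter, Nat.cast_sum]
  exact sum_congr rfl fun a _ => by split_ifs <;> simp

theorem cnt_add_not {α : Type} (S : Finset α) (P : α → Prop) :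
    cnt S P + cnt S (fun a => ¬ P a) = #S := by
  rw [basea_sum, basea_sum, ← sum_add_distrib, card_eq_sum_ones, Nat.cast_sum]
  refine sum_congr rfl fun a _ => ?_
  by_cases h : P a <;> simp [ind, h]

theorem cnt_eq_sum {α : Type} (S : Finset α) (P : α → Prop) :
    cnt S P = ∑ a ∈ S, ind (P a) := by
  exact basea_sum S P

theorem exists_of_cnt_pos {α : Type} {S : Finset α} {P : α → Prop} (h : 0 < cnt S P) :
    ∃ a ∈ S, P a := by
  unfold cnt at h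
  obtain ⟨a, ha⟩ := card_pos.1 (Nat.cast_pos.1 h)
  exact ⟨a, mem_filter.1 ha⟩

/-- Markov inequality -/
theorem cnt_markov {α : Type} (S : Finset α) {f : α → ℝ} (hf : ∀ a ∈ S, 0 ≤ f a) {c : ℝ}
    (hc : 0 < c) : cnt S (fun a => c ≤ f a) ≤ (∑ a ∈ S, f a) / c := by
  rw [cnt_eq_sum, sum_div]
  refine sum_le_sum fun a ha => ?_
  unfold ind
  split_ifs with h
  · exact (one_le_div hc).2 h
  · exact div_nonneg (hf a ha) hc.le

theorem basea_card_Ico (u : ℤ) (j : ℕ) : #(Ico (u * 2 ^ j) ((u + 1) * 2 ^ j)) = 2 ^ j := by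
  rw [Int.card_Ico]
  have : (u + 1) * 2 ^ j - u * 2 ^ j = ((2 ^ j : ℕ) : ℤ) := by push_cast; ring
  rw [this, Int.toNat_natCast]

theorem basea_mem_Ico {a b x : ℤ} {j : ℕ} :
    x ∈ Ico (a * 2 ^ j) ((b + 1) * 2 ^ j) ↔ a ≤ x / 2 ^ j ∧ x / 2 ^ j ≤ b := by
  have h : (0 : ℤ) < 2 ^ j := by positivity
  rw [mem_Ico, Int.le_ediv_iff_mul_le h, ← Int.ediv_lt_iff_lt_mul h, Int.lt_add_one_iff]

theorem basea_div {l j : ℕ} (h : l ≤ j) (x : ℤ) : x / 2 ^ j = x / 2 ^ l / 2 ^ (j - l) := by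
  rw [Int.ediv_ediv_of_nonneg (by positivity), ← pow_add, Nat.add_sub_cancel' h]

theorem card_cells (Q : Bx) : #Q.cells = 4 ^ Q.j := by
  rw [Bx.cells, card_product, basea_card_Ico, basea_card_Ico, ← mul_pow]
  norm_num

theorem mem_cells {Q : Bx} {p : Cell} : p ∈ Q.cells ↔ anc Q.j p = Q := by
  rw [Bx.cells, mem_product, basea_mem_Ico, basea_mem_Ico, Bx.ext_iff]
  simp only [anc, true_and]
  omega

theorem mem_anc (j : ℕ) (p : Cell) : p ∈ (anc j p).cells := by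
  exact mem_cells.2 rfl

theorem anc_eq {l j : ℕ} (h : l ≤ j) {p q : Cell} (hq : q ∈ (anc l p).cells) :
    anc j q = anc j p := by
  have h1 : anc l q = anc l p := mem_cells.1 hq
  simp only [anc, Bx.mk.injEq, true_and] at h1 ⊢
  rw [basea_div h, basea_div h p.1, basea_div h q.2, basea_div h p.2, h1.1, h1.2]
  exact ⟨rfl, rfl⟩

theorem anc_sub {Q : Bx} {l : ℕ} (h : l ≤ Q.j) {p : Cell} (hp : p ∈ Q.cells) :
    (anc l p).cells ⊆ Q.cells := by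
  intro q hq
  rw [mem_cells, anc_eq h hq]
  exact mem_cells.1 hp

theorem anc_close {l : ℕ} {p q : Cell} (hq : q ∈ (anc l p).cells) :
    |q.1 - p.1| < 2 ^ l ∧ |q.2 - p.2| < 2 ^ l := by
  have hp := mem_anc l p
  simp only [Bx.cells, anc, mem_product, mem_Ico, add_mul, one_mul] at hp hq
  rw [abs_lt, abs_lt]
  omega

theorem sum_anc {Q : Bx} {l : ℕ} (h : l ≤ Q.j) (f : Cell → ℝ) :
    ∑ p ∈ Q.cells, (anc l p).avg f = ∑ p ∈ Q.cells, f p := by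
  simp only [Bx.avg, sum_div]
  rw [sum_comm' (t' := Q.cells) (s' := fun q => (anc l q).cells)]
  · refine sum_congr rfl fun q _ => ?_
    change ∑ _x ∈ (anc l q).cells, f q / 4 ^ l = f q
    rw [sum_const, card_cells, nsmul_eq_mul]
    simp only [anc]
    push_cast
    field_simp
  · intro p q
    constructor
    · rintro ⟨h1, h2⟩
      exact ⟨mem_cells.2 (mem_cells.1 h2).symm, anc_sub h h1 h2⟩
    · rintro ⟨h1, h2⟩
      exact ⟨anc_sub h h2 h1, mem_cells.2 (mem_cells.1 h1).symm⟩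

theorem avg_anc {Q : Bx} {l : ℕ} (h : l ≤ Q.j) (f : Cell → ℝ) :
    Q.avg (fun p => (anc l p).avg f) = Q.avg f := by
  rw [Bx.avg, sum_anc h, Bx.avg]

theorem avg_mono {Q : Bx} {f g : Cell → ℝ} (h : ∀ p ∈ Q.cells, f p ≤ g p) : Q.avg f ≤ Q.avg g := by
  exact div_le_div_of_nonneg_right (sum_le_sum h) (by positivity)

theorem avg_nonneg {Q : Bx} {f : Cell → ℝ} (h : ∀ p ∈ Q.cells, 0 ≤ f p) : 0 ≤ Q.avg f := by
  exact div_nonneg (sum_nonneg h) (by positivity)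

theorem avg_add (Q : Bx) (f g : Cell → ℝ) : Q.avg (fun p => f p + g p) = Q.avg f + Q.avg g := by
  simp only [Bx.avg, sum_add_distrib, add_div]

theorem avg_mul (Q : Bx) (c : ℝ) (f : Cell → ℝ) : Q.avg (fun p => c * f p) = c * Q.avg f := by
  simp only [Bx.avg, ← mul_sum, mul_div_assoc]

theorem avg_const (Q : Bx) (c : ℝ) : Q.avg (fun _ => c) = c := by
  rw [Bx.avg, sum_const, card_cells, nsmul_eq_mul]
  push_cast
  field_simp

theorem fr_eq_avg (Q : Bx) (P : Cell → Prop) : Q.fr P = Q.avg fun p => ind (P p) := by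
  rw [Bx.fr, Bx.avg, cnt_eq_sum]

theorem fr_nonneg (Q : Bx) (P : Cell → Prop) : 0 ≤ Q.fr P := by
  exact div_nonneg (cnt_nonneg _ _) (by positivity)

theorem fr_le_one (Q : Bx) (P : Cell → Prop) : Q.fr P ≤ 1 := by
  rw [Bx.fr, div_le_one (by positivity)]
  have := cnt_le_card Q.cells P
  rw [card_cells] at this
  exact_mod_cast this

theorem fr_mono {Q : Bx} {P P' : Cell → Prop} (h : ∀ p ∈ Q.cells, P p → P' p) :
    Q.fr P ≤ Q.fr P' := by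
  exact div_le_div_of_nonneg_right (cnt_mono fun p hp hP => ⟨hp, h p hp hP⟩) (by positivity)

theorem fr_or {Q : Bx} {P P1 P2 : Cell → Prop} (h : ∀ p ∈ Q.cells, P p → P1 p ∨ P2 p) :
    Q.fr P ≤ Q.fr P1 + Q.fr P2 := by
  simp only [Bx.fr, ← add_div]
  exact div_le_div_of_nonneg_right (cnt_or h) (by positivity)

theorem fr_add_not (Q : Bx) (P : Cell → Prop) : Q.fr P + Q.fr (fun p => ¬ P p) = 1 := by
  simp only [Bx.fr, ← add_div]
  rw [cnt_add_not, card_cells]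
  push_cast
  field_simp

theorem fr_markov (Q : Bx) {f : Cell → ℝ} (hf : ∀ p ∈ Q.cells, 0 ≤ f p) {c : ℝ} (hc : 0 < c) :
    Q.fr (fun p => c ≤ f p) ≤ Q.avg f / c := by
  rw [Bx.fr, Bx.avg, div_right_comm]
  exact div_le_div_of_nonneg_right (cnt_markov _ hf hc) (by positivity)

theorem basea_jensen (Q : Bx) {φ : ℝ → ℝ} (hφ : ConvexOn ℝ Set.univ φ) (f : Cell → ℝ) :
    φ (Q.avg f) ≤ Q.avg fun p => φ (f p) := by
  have h := hφ.map_sum_le (t := Q.cells) (w := fun _ => (1 / 4 ^ Q.j : ℝ)) (p := f)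
    (fun _ _ => by positivity) (by
      rw [sum_const, card_cells, nsmul_eq_mul]
      push_cast
      field_simp) (fun _ _ => Set.mem_univ _)
  simp only [smul_eq_mul, ← mul_sum] at h
  simpa only [Bx.avg, div_eq_inv_mul, mul_one] using h

/-- Jensen inequality: convex functions of box averages decrease with the level -/
theorem avg_convex {Q : Bx} {l l' : ℕ} (h : l ≤ l') (h' : l' ≤ Q.j) {φ : ℝ → ℝ}
    (hφ : ConvexOn ℝ Set.univ φ) (f : Cell → ℝ) :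
    Q.avg (fun p => φ ((anc l' p).avg f)) ≤ Q.avg fun p => φ ((anc l p).avg f) := by
  rw [← avg_anc h' fun p => φ ((anc l p).avg f)]
  refine avg_mono fun p _ => ?_
  rw [← avg_anc (Q := anc l' p) h f]
  exact basea_jensen _ hφ _

/-- few cells are close to the boundary -/
theorem fr_bdry (Q : Bx) (r : ℕ) :
    Q.fr (fun p => ¬ ∀ q : Cell, |q.1 - p.1| ≤ r → |q.2 - p.2| ≤ r → q ∈ Q.cells) ≤
      4 * r / 2 ^ Q.j := by
  have hE : ∀ a b : ℤ, #(Ico a (a + r) ∪ Ico (b - r) b) ≤ 2 * r := fun a b => by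
    refine (card_union_le _ _).trans ?_
    simp only [Int.card_Ico, add_sub_cancel_left, sub_sub_cancel, Int.toNat_natCast]
    omega
  have h1 : #{p ∈ Q.cells | ¬ ∀ q : Cell, |q.1 - p.1| ≤ r → |q.2 - p.2| ≤ r → q ∈ Q.cells} ≤
      4 * r * 2 ^ Q.j := by
    refine (card_le_card (t := (Ico (Q.u * 2 ^ Q.j) (Q.u * 2 ^ Q.j + r) ∪
      Ico ((Q.u + 1) * 2 ^ Q.j - r) ((Q.u + 1) * 2 ^ Q.j)) ×ˢ
        Ico (Q.v * 2 ^ Q.j) ((Q.v + 1) * 2 ^ Q.j) ∪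
      Ico (Q.u * 2 ^ Q.j) ((Q.u + 1) * 2 ^ Q.j) ×ˢ (Ico (Q.v * 2 ^ Q.j) (Q.v * 2 ^ Q.j + r) ∪
      Ico ((Q.v + 1) * 2 ^ Q.j - r) ((Q.v + 1) * 2 ^ Q.j))) fun p hp => ?_).trans ?_
    · rw [mem_filter] at hp
      by_contra hn
      refine hp.2 fun q h1 h2 => ?_
      have h3 := hp.1
      rw [abs_le] at h1 h2
      simp only [Bx.cells, mem_product, mem_Ico, mem_union] at h3 hn ⊢
      omega
    · refine (card_union_le _ _).trans ?_
      rw [card_product, card_product, basea_card_Ico, basea_card_Ico]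
      have := hE (Q.u * 2 ^ Q.j) ((Q.u + 1) * 2 ^ Q.j)
      have := hE (Q.v * 2 ^ Q.j) ((Q.v + 1) * 2 ^ Q.j)
      nlinarith [Nat.zero_le (2 ^ Q.j)]
  have h2 : cnt Q.cells (fun p => ¬ ∀ q : Cell, |q.1 - p.1| ≤ r → |q.2 - p.2| ≤ r → q ∈ Q.cells) ≤
      4 * r * 2 ^ Q.j := by
    unfold cnt
    refine (Nat.cast_le.2 ((le_of_eq (by congr)).trans h1)).trans (le_of_eq ?_)
    push_cast
    rfl
  rw [Bx.fr, div_le_div_iff₀ (by positivity) (by positivity), show (4 : ℝ) ^ Q.j = 2 ^ Q.j * 2 ^ Q.j by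
    rw [← mul_pow]; norm_num, ← mul_assoc]
  exact mul_le_mul_of_nonneg_right h2 (by positivity)

theorem card_Wn (p : Cell) (l : ℕ) : (#(Wn p l) : ℝ) ≤ 125 * 4 ^ l := by
  rw [Wn, card_product, Int.card_Icc, Int.card_Icc]
  have e1 : p.1 + 2 * 2 ^ l + 1 - (p.1 - 2 * 2 ^ l) = ((4 * 2 ^ l + 1 : ℕ) : ℤ) := by
    push_cast; ring
  have e2 : p.2 + 12 * 2 ^ l + 1 - (p.2 - 12 * 2 ^ l) = ((24 * 2 ^ l + 1 : ℕ) : ℤ) := by
    push_cast; ring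
  rw [e1, e2, Int.toNat_natCast, Int.toNat_natCast, show (4 : ℝ) ^ l = 2 ^ l * 2 ^ l by
    rw [← mul_pow]; norm_num]
  push_cast
  have : (1 : ℝ) ≤ 2 ^ l := one_le_pow₀ (by norm_num)
  nlinarith

theorem basea_mem_nb {b : Bx} {D : ℕ} {p : Cell} : p ∈ b.nb D ↔
    (b.u - D ≤ p.1 / 2 ^ b.j ∧ p.1 / 2 ^ b.j ≤ b.u + D) ∧
      b.v - D ≤ p.2 / 2 ^ b.j ∧ p.2 / 2 ^ b.j ≤ b.v + D := by
  rw [Bx.nb, mem_product, basea_mem_Ico, basea_mem_Ico]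

theorem basea_card_Icc (u : ℤ) (D : ℕ) : #(Icc (u - D) (u + D)) = 2 * D + 1 := by
  rw [Int.card_Icc]
  have : u + D + 1 - (u - D) = ((2 * D + 1 : ℕ) : ℤ) := by push_cast; ring
  rw [this, Int.toNat_natCast]

theorem basea_card_nb (b : Bx) (D : ℕ) : (#(b.nb D) : ℝ) = (2 * D + 1) ^ 2 * 4 ^ b.j := by
  have h : ∀ u : ℤ, #(Ico ((u - D) * 2 ^ b.j) ((u + D + 1) * 2 ^ b.j)) = (2 * D + 1) * 2 ^ b.j := by
    intro u
    rw [Int.card_Ico]
    have : (u + D + 1) * 2 ^ b.j - (u - D) * 2 ^ b.j = (((2 * D + 1) * 2 ^ b.j : ℕ) : ℤ) := by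
      push_cast; ring
    rw [this, Int.toNat_natCast]
  rw [Bx.nb, card_product, h, h, show (4 : ℝ) ^ b.j = 2 ^ b.j * 2 ^ b.j by
    rw [← mul_pow]; norm_num]
  push_cast
  ring

theorem basea_ediv {D : ℕ} (k : ℕ) {x y : ℤ} (h : x ≤ y + D) : x / 2 ^ k ≤ y / 2 ^ k + D := by
  have h0 : (0 : ℤ) < 2 ^ k := by positivity
  rw [← Int.add_mul_ediv_right _ _ h0.ne']
  refine Int.ediv_le_ediv h0 (h.trans ?_)
  have : (0 : ℤ) ≤ D := Int.natCast_nonneg D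
  nlinarith

/-- maximal inequality -/
theorem hg (Q : Bx) {f : Cell → ℝ} (hf : ∀ p, 0 ≤ f p) (D : ℕ) {c : ℝ} (hc : 0 < c) :
    cnt Q.cells (fun p => ∃ j ≤ Q.j, c * 4 ^ j < ∑ q ∈ (anc j p).nb D ∩ Q.cells, f q) ≤
      (2 * D + 1) ^ 4 * (∑ p ∈ Q.cells, f p) / c := by
  have hD : (0 : ℝ) < (2 * D + 1) ^ 2 := by positivity
  set c' : ℝ := c / (2 * D + 1) ^ 2 with hc'
  have hc0 : 0 < c' := by positivity
  let heavy : Cell → ℕ → Prop := fun q j => c' * 4 ^ j < ∑ r ∈ (anc j q).cells, f r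
  let top : Cell → ℕ := fun q => Nat.findGreatest (heavy q) Q.j
  let H : Finset Cell := {q ∈ Q.cells | heavy q (top q)}
  let M : Finset Bx := H.image fun q => anc (top q) q
  have htop : ∀ q ∈ H, ∀ r ∈ (anc (top q) q).cells, top r = top q := by
    intro q hq r hr
    have h1 : ∀ j, top q ≤ j → (heavy r j ↔ heavy q j) := fun j hj => by
      simp only [heavy, anc_eq hj hr]
    have h2 : top q ≤ top r :=
      Nat.le_findGreatest (Nat.findGreatest_le _) ((h1 _ le_rfl).2 (mem_filter.1 hq).2)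
    have h3 : heavy r (top r) :=
      Nat.findGreatest_spec (Nat.findGreatest_le _) ((h1 _ le_rfl).2 (mem_filter.1 hq).2)
    exact le_antisymm (Nat.le_findGreatest (Nat.findGreatest_le _) ((h1 _ h2).1 h3)) h2
  have hdis : (M : Set Bx).PairwiseDisjoint Bx.cells := by
    intro b hb b' hb' hne
    obtain ⟨q, hq, rfl⟩ := mem_image.1 (mem_coe.1 hb)
    obtain ⟨q', hq', rfl⟩ := mem_image.1 (mem_coe.1 hb')
    refine disjoint_left.2 fun r hr hr' => hne ?_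
    have e1 : anc (top q) r = anc (top q) q := mem_cells.1 hr
    have e2 : anc (top q') r = anc (top q') q' := mem_cells.1 hr'
    rw [← e1, ← e2, ← htop q hq r hr, ← htop q' hq' r hr']
  have hsum : ∑ b ∈ M, c' * 4 ^ b.j ≤ ∑ p ∈ Q.cells, f p := by
    calc _ ≤ ∑ b ∈ M, ∑ r ∈ b.cells, f r := sum_le_sum fun b hb => by
          obtain ⟨q, hq, rfl⟩ := mem_image.1 hb
          exact (mem_filter.1 hq).2.le
      _ = ∑ r ∈ M.biUnion Bx.cells, f r := (sum_biUnion hdis).symm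
      _ ≤ _ := sum_le_sum_of_subset_of_nonneg (fun r hr => by
          obtain ⟨b, hb, hr⟩ := mem_biUnion.1 hr
          obtain ⟨q, hq, rfl⟩ := mem_image.1 hb
          exact anc_sub (Nat.findGreatest_le _) (mem_filter.1 hq).1 hr) fun r _ _ => hf r
  have hsub : ∀ p, (∃ j ≤ Q.j, c * 4 ^ j < ∑ q ∈ (anc j p).nb D ∩ Q.cells, f q) →
      p ∈ M.biUnion fun b => b.nb D := by
    rintro p ⟨j, hj, hp⟩
    obtain ⟨y, -, hy⟩ := exists_lt_sum_fiber_of_maps_to_of_nsmul_lt_sum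
      (s := (anc j p).nb D ∩ Q.cells) (w := f) (b := c' * 4 ^ j)
      (t := Icc (p.1 / 2 ^ j - D) (p.1 / 2 ^ j + D) ×ˢ Icc (p.2 / 2 ^ j - D) (p.2 / 2 ^ j + D))
      (f := fun q => (q.1 / 2 ^ j, q.2 / 2 ^ j)) (fun q hq => by
        have := basea_mem_nb.1 (mem_inter.1 hq).1
        simp only [anc] at this
        simp only [mem_product, mem_Icc]
        exact this) (by
        rw [card_product, basea_card_Icc, basea_card_Icc, nsmul_eq_mul]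
        refine lt_of_eq_of_lt ?_ hp
        rw [hc']
        push_cast
        field_simp)
    obtain ⟨q, hq⟩ := nonempty_of_sum_ne_zero (lt_trans (by positivity) hy).ne'
    have hq1 := mem_filter.1 hq
    have h1 : heavy q j := hy.trans_le (sum_le_sum_of_subset_of_nonneg (fun r hr => by
      have e := (mem_filter.1 hr).2.trans hq1.2.symm
      rw [Prod.mk.injEq] at e
      exact mem_cells.2 (Bx.ext rfl e.1 e.2)) fun r _ _ => hf r)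
    have h2 : j ≤ top q := Nat.le_findGreatest hj h1
    refine mem_biUnion.2 ⟨_, mem_image_of_mem _ (mem_filter.2
      ⟨(mem_inter.1 hq1.1).2, Nat.findGreatest_spec hj h1⟩), ?_⟩
    have h3 := basea_mem_nb.1 (mem_inter.1 hq1.1).1
    rw [basea_mem_nb]
    simp only [anc] at h3 ⊢
    rw [basea_div h2, basea_div h2 p.1, basea_div h2 q.2, basea_div h2 p.2]
    have k1 := basea_ediv (D := D) (top q - j) (x := p.1 / 2 ^ j) (y := q.1 / 2 ^ j) (by omega)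
    have k2 := basea_ediv (D := D) (top q - j) (x := q.1 / 2 ^ j) (y := p.1 / 2 ^ j) (by omega)
    have k3 := basea_ediv (D := D) (top q - j) (x := p.2 / 2 ^ j) (y := q.2 / 2 ^ j) (by omega)
    have k4 := basea_ediv (D := D) (top q - j) (x := q.2 / 2 ^ j) (y := p.2 / 2 ^ j) (by omega)
    omega
  calc _ ≤ ((#(M.biUnion fun b => b.nb D) : ℕ) : ℝ) := by
        exact (cnt_mono (P' := fun _ => True) fun p _ hp => ⟨hsub p hp, trivial⟩).trans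
          (cnt_le_card _ _)
    _ ≤ ∑ b ∈ M, (2 * D + 1 : ℝ) ^ 2 * 4 ^ b.j := by
        refine (Nat.cast_le.2 card_biUnion_le).trans (le_of_eq ?_)
        rw [Nat.cast_sum]
        exact sum_congr rfl fun b _ => basea_card_nb b D
    _ = (2 * D + 1) ^ 4 * (∑ b ∈ M, c' * 4 ^ b.j) / c := by
        rw [← mul_sum, ← mul_sum, hc']
        field_simp
    _ ≤ _ := div_le_div_of_nonneg_right (mul_le_mul_of_nonneg_left hsum (by positivity)) hc.le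

/-! ### The ultrafilter -/

instance : NeBot UU := by unfold UU; infer_instance

theorem UU_le : UU ≤ atTop := by
  exact Nat.hyperfilter_le_atTop

theorem UU_em (P : ℕ → Prop) : (∀ᶠ n in UU, P n) ∨ ∀ᶠ n in UU, ¬ P n := by
  exact (hyperfilter ℕ).em P

theorem UU_not {P : ℕ → Prop} (h : ¬ ∀ᶠ n in UU, P n) : ∀ᶠ n in UU, ¬ P n := by
  exact (UU_em P).resolve_left h

theorem UU_fin {α : Type} (S : Finset α) {P : α → ℕ → Prop} (h : ∀ᶠ n in UU, ∃ a ∈ S, P a n) :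
    ∃ a ∈ S, ∀ᶠ n in UU, P a n := by
  exact (Ultrafilter.eventually_exists_mem_iff (f := hyperfilter ℕ) S.finite_toSet).1 h

theorem UU_lim {f : ℕ → ℝ} {a b : ℝ} (h : ∀ᶠ n in UU, a ≤ f n ∧ f n ≤ b) :
    ∃ c, a ≤ c ∧ c ≤ b ∧ Tendsto f UU (nhds c) := by
  obtain ⟨c, hc, hl⟩ := isCompact_Icc.ultrafilter_le_nhds ((hyperfilter ℕ).map f)
    (le_principal_iff.2 (show Set.Icc a b ∈ Filter.map f UU from h))
  exact ⟨c, hc.1, hc.2, hl⟩

/-- diagonal argument -/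
theorem UU_diag {P : ℕ → ℕ → Prop} (h : ∀ i, ∀ᶠ n in UU, P i n) :
    ∃ k : ℕ → ℕ, Tendsto k UU atTop ∧ ∀ᶠ n in UU, ∀ i ≤ k n, P i n := by
  have h1 : ∀ i, ∀ᶠ n in UU, ∀ i' ≤ i, P i' n := fun i =>
    ((Filter.eventually_all_finset (range (i + 1))).2 fun i' _ => h i').mono
      fun n hn i' hi => hn i' (mem_range.2 (Nat.lt_succ_of_le hi))
  refine ⟨fun n => Nat.findGreatest (fun i => ∀ i' ≤ i, P i' n) n, tendsto_atTop.2 fun i => ?_, ?_⟩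
  · filter_upwards [h1 i, UU_le (eventually_ge_atTop i)] with n hn hi
    exact Nat.le_findGreatest hi hn
  · filter_upwards [h1 0] with n hn
    exact Nat.findGreatest_spec (P := fun i => ∀ i' ≤ i, P i' n) (Nat.zero_le n) hn

theorem UU_choose {α : Type} [Inhabited α] {P : ℕ → α → Prop} (h : ∀ᶠ n in UU, ∃ a, P n a) :
    ∃ f : ℕ → α, ∀ᶠ n in UU, P n (f n) := by
  exact h.choice

end Pool.Agent.MP_38296a_co.H21

end FileBaseA
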