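import Pool.Agent.MP_38296a_co.H21.Core

section FileLim1

/-!
Measurable error bounds for finite windows.
-/

set_option autoImplicit false

namespace Pool.Agent.MP_38296a_co.H21

open Finset Filter Classical Matrix

variable {Ω : Type} [MeasurableSpace Ω]

/-- a measurable bound from which on `P` holds -/
def lim_MB (P : Ω → ℕ → Prop) : Prop :=
  ∃ Y : Ω → ℝ, Measurable Y ∧ ∀ ω (c : ℕ), Y ω ≤ c → P ω c

theorem lim_MB.imp {P P' : Ω → ℕ → Prop} (h : lim_MB P) (e : ∀ ω c, P ω c → P' ω c) :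
    lim_MB P' :=
  let ⟨Y, a, b⟩ := h
  ⟨Y, a, fun ω c k => e ω c (b ω c k)⟩

theorem lim_MB.all {J : Type} [Finite J] {P : J → Ω → ℕ → Prop} (h : ∀ j, lim_MB (P j)) :
    lim_MB fun ω c => ∀ j, P j ω c := by
  have := Fintype.ofFinite J
  choose Y a b using h
  exact ⟨fun ω => ∑ j, |Y j ω|, measurable_sum _ fun j _ => (a j).abs, fun ω c k j =>
    b j ω c ((le_abs_self _).trans ((single_le_sum (f := fun j => |Y j ω|)
      (fun _ _ => abs_nonneg _) (mem_univ j)).trans k))⟩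

theorem lim_MB.and {P P' : Ω → ℕ → Prop} (h : lim_MB P) (h' : lim_MB P') :
    lim_MB fun ω c => P ω c ∧ P' ω c :=
  let ⟨Y, a, b⟩ := h
  let ⟨Y', a', b'⟩ := h'
  ⟨fun ω => max (Y ω) (Y' ω), a.max a', fun ω c k =>
    ⟨b ω c ((le_max_left _ _).trans k), b' ω c ((le_max_right _ _).trans k)⟩⟩

theorem lim_gap {φ : Ω → ℝ} (h : Measurable φ) : lim_MB fun ω c => φ ω ≠ 0 → 1 ≤ c * |φ ω| :=
  ⟨fun ω => |φ ω|⁻¹, h.abs.inv, fun _ _ k a =>
    (inv_le_iff_one_le_mul₀ (abs_pos.2 a)).1 k⟩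

theorem lim_alg : ∃ S : ℕ → Finset ℝ, ∀ {Ω : Type} [MeasurableSpace Ω] {φ : Ω → ℝ},
    Measurable φ → lim_MB fun ω c => IsAlgebraic ℚ (φ ω) → φ ω ∈ S c := by
  have hc := Algebraic.countable ℚ ℝ
  obtain ⟨e, he⟩ := Set.countable_iff_exists_subset_range.1 hc
  have : ∀ y : ℝ, ∃ n : ℕ, (IsAlgebraic ℚ y → ∃ m < n, e m = y) ∧ (¬ IsAlgebraic ℚ y → n = 0) :=
    fun y => by
      by_cases h : IsAlgebraic ℚ y
      · obtain ⟨m, hm⟩ := he h
        exact ⟨m + 1, fun _ => ⟨m, m.lt_succ_self, hm⟩, fun k => (k h).elim⟩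
      · exact ⟨0, fun k => (h k).elim, fun _ => rfl⟩
  choose n h1 h2 using this
  have hm : Measurable fun y => (n y : ℝ) :=
    (measurable_const (a := (0 : ℝ))).measurable_of_countable_ne (hc.mono fun y k =>
      by_contra fun k' => k (by simp [h2 y k']))
  refine ⟨fun c => (range c).image e, fun {Ω} _ φ h => ⟨_, hm.comp h, fun ω c k a => ?_⟩⟩
  obtain ⟨m, b1, b2⟩ := h1 _ a
  exact mem_image.2 ⟨m, mem_range.2 (b1.trans_le (Nat.cast_le.1 k)), b2⟩

/-- measurable generalised inverse -/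
theorem lim_ginv {m n : Type} [Fintype m] [Fintype n] (M : Ω → Matrix m n ℝ)
    (hM : ∀ i j, Measurable fun ω => M ω i j) : ∃ G : Ω → Matrix n m ℝ,
      (∀ i j, Measurable fun ω => G ω i j) ∧ ∀ ω, M ω * G ω * M ω = M ω := by
  have key : ∀ J : Finset m, ∃ G : Ω → Matrix n m ℝ, (∀ i j, Measurable fun ω => G ω i j) ∧
      ∀ ω, ∀ j ∈ J, (M ω * (1 - G ω * M ω) : Matrix m n ℝ) j = 0 := by
    intro J
    induction J using Finset.induction_on with
    | empty => exact ⟨0, fun _ _ => measurable_const, by simp⟩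
    | insert j0 J _ ih =>
      obtain ⟨G, hG, H⟩ := ih
      let w : Ω → n → ℝ := fun ω => (M ω * (1 - G ω * M ω) : Matrix m n ℝ) j0
      have hw : ∀ i, Measurable fun ω => w ω i := fun i => by
        simp only [w, Matrix.mul_apply, Matrix.sub_apply]
        fun_prop
      refine ⟨fun ω => G ω + vecMulVec ((w ω ⬝ᵥ w ω)⁻¹ • (1 - G ω * M ω) *ᵥ w ω)
        (Pi.single j0 1 - (M ω * G ω) j0), fun i j => ?_, fun ω j hj => ?_⟩
      · simp only [Matrix.add_apply, vecMulVec_apply, Pi.smul_apply, smul_eq_mul, mulVec,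
          dotProduct, Matrix.mul_apply, Matrix.sub_apply, Pi.sub_apply]
        fun_prop
      · have e1 : (Pi.single j0 1 - (M ω * G ω) j0) ᵥ* M ω = w ω := by
          ext i
          simp [w, Matrix.mul_sub, ← Matrix.mul_assoc, vecMul, dotProduct,
            Matrix.mul_apply, sub_mul, Pi.single_apply]
        rw [Matrix.add_mul, vecMulVec_mul, e1, ← sub_sub, Matrix.mul_sub, mul_vecMulVec,
          mulVec_smul, mulVec_mulVec]
        ext i
        simp only [Matrix.sub_apply, vecMulVec_apply, Pi.smul_apply, smul_eq_mul, mulVec,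
          Pi.zero_apply]
        rcases mem_insert.1 hj with rfl | hj
        · change w ω i - (w ω ⬝ᵥ w ω)⁻¹ * (w ω ⬝ᵥ w ω) * w ω i = 0
          by_cases h0 : w ω ⬝ᵥ w ω = 0
          · simp [dotProduct_self_eq_zero.1 h0]
          · simp [h0]
        · change (M ω * (1 - G ω * M ω) : Matrix m n ℝ) j i - (w ω ⬝ᵥ w ω)⁻¹ *
            ((M ω * (1 - G ω * M ω) : Matrix m n ℝ) j ⬝ᵥ w ω) * w ω i = 0
          simp [H ω j hj]
  obtain ⟨G, a, b⟩ := key univ
  refine ⟨G, a, fun ω => ?_⟩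
  have : M ω * (1 - G ω * M ω) = 0 := funext fun j => b ω j (mem_univ j)
  rw [Matrix.mul_sub, Matrix.mul_one, sub_eq_zero, ← Matrix.mul_assoc] at this
  exact this.symm

section
variable {E E' : Type} [NormedAddCommGroup E] [NormedSpace ℝ E] [MeasurableSpace E] [BorelSpace E]
  [SecondCountableTopology E] [NormedAddCommGroup E'] [NormedSpace ℝ E'] [MeasurableSpace E']

/-- subspaces spanned by finitely many measurable vectors -/
def lim_MS (U : Ω → Submodule ℝ E') : Prop :=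
  ∃ (κ : Type) (_ : Fintype κ) (h : κ → Ω → E'), (∀ k, Measurable (h k)) ∧
    ∀ ω, U ω = Submodule.span ℝ (Set.range fun k => h k ω)

theorem lim_core {U : Ω → Submodule ℝ E} (hU : lim_MS U) {J : Type} [Fintype J]
    (L : J → Ω → E →ₗ[ℝ] ℝ) (hL : ∀ j f, Measurable f → Measurable fun ω => L j ω (f ω)) :
    ∃ g : J → Ω → E, (∀ j, Measurable (g j)) ∧ ∀ ω, (∀ j, g j ω ∈ U ω) ∧
      ∀ f ∈ U ω, ∀ j, L j ω (f - ∑ i, L i ω f • g i ω) = 0 := by
  obtain ⟨κ, _, h, hh, e⟩ := hU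
  obtain ⟨G, hG, H⟩ := lim_ginv (fun ω => Matrix.of fun j k => L j ω (h k ω))
    fun j k => hL j _ (hh k)
  refine ⟨fun j ω => ∑ k, G ω k j • h k ω, fun j => by fun_prop, fun ω => ⟨fun j => ?_, ?_⟩⟩
  · rw [e]
    exact Submodule.sum_mem _ fun k _ => Submodule.smul_mem _ _ (Submodule.subset_span ⟨k, rfl⟩)
  · intro f hf j
    rw [e] at hf
    induction hf using Submodule.span_induction with
    | mem _ hx =>
      obtain ⟨k, rfl⟩ := hx
      have := congrFun (congrFun (H ω) j) k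
      simp only [Matrix.mul_apply, of_apply] at this
      simp only [map_sub, map_sum, map_smul, smul_eq_mul]
      rw [← this, sub_eq_zero]
      exact sum_congr rfl fun i _ => by rw [mul_comm]; simp only [mul_comm]
    | zero => simp
    | add x y _ _ a b =>
      simp only [map_sub, map_sum, map_smul, map_add, smul_eq_mul, add_mul, sum_add_distrib] at *
      linarith
    | smul r x _ a =>
      simp only [map_sub, map_sum, map_smul, smul_eq_mul, mul_assoc, ← mul_sum] at *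
      rw [← mul_sub, a, mul_zero]

theorem lim_MS.ker {U : Ω → Submodule ℝ E} (hU : lim_MS U) {J : Type} [Fintype J]
    (L : J → Ω → E →ₗ[ℝ] ℝ) (hL : ∀ j f, Measurable f → Measurable fun ω => L j ω (f ω))
    {V : Ω → Submodule ℝ E} (hV : ∀ ω f, f ∈ V ω ↔ f ∈ U ω ∧ ∀ j, L j ω f = 0) : lim_MS V := by
  obtain ⟨g, hg, H⟩ := lim_core hU L hL
  obtain ⟨κ, _, h, hh, e⟩ := hU
  refine ⟨κ, inferInstance, fun k ω => h k ω - ∑ i, L i ω (h k ω) • g i ω,
    fun k => (hh k).sub (measurable_sum _ fun i _ => (hL i _ (hh k)).smul (hg i)), fun ω => le_antisymm (fun f hf => ?_) (Submodule.span_le.2 ?_)⟩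
  · obtain ⟨a, b⟩ := (hV ω f).1 hf
    let P : E →ₗ[ℝ] E := LinearMap.id - ∑ i, (L i ω).smulRight (g i ω)
    have h1 := Submodule.mem_map_of_mem (f := P) a
    rw [e, Submodule.map_span, ← Set.range_comp] at h1
    simpa [P, b, Function.comp_def] using h1
  · rintro _ ⟨k, rfl⟩
    have : h k ω ∈ U ω := e ω ▸ Submodule.subset_span ⟨k, rfl⟩
    exact (hV ω _).2 ⟨sub_mem this (Submodule.sum_mem _ fun i _ =>
      Submodule.smul_mem _ _ ((H ω).1 i)), (H ω).2 _ this⟩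

theorem lim_MS.const [FiniteDimensional ℝ E'] (V : Submodule ℝ E') : lim_MS fun _ : Ω => V :=
  let ⟨n, s, h⟩ := Submodule.fg_iff_exists_fin_generating_family.1 (IsNoetherian.noetherian V)
  ⟨Fin n, inferInstance, fun k _ => s k, fun _ => measurable_const, fun _ => h.symm⟩

theorem lim_MS.sup {U V : Ω → Submodule ℝ E'} (hU : lim_MS U) (hV : lim_MS V) :
    lim_MS fun ω => U ω ⊔ V ω := by
  obtain ⟨κ, _, h, hh, e⟩ := hU
  obtain ⟨κ', _, h', hh', e'⟩ := hV
  refine ⟨κ ⊕ κ', inferInstance, Sum.elim h h', fun k => by cases k <;> simp [*], fun ω => ?_⟩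
  simp only [e, e', ← Submodule.span_union, ← Set.Sum.elim_range]
  congr
  ext (_ | _) <;> rfl

theorem lim_MS.map {F : Type} [NormedAddCommGroup F] [NormedSpace ℝ F] [MeasurableSpace F]
    {U : Ω → Submodule ℝ E'} (hU : lim_MS U) (φ : E' →ₗ[ℝ] F) (hφ : Measurable φ) :
    lim_MS fun ω => (U ω).map φ := by
  obtain ⟨κ, _, h, hh, e⟩ := hU
  exact ⟨κ, inferInstance, fun k ω => φ (h k ω), fun k => hφ.comp (hh k), fun ω => by
    simp only [e, Submodule.map_span, ← Set.range_comp, Function.comp_def]⟩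

end

variable {ι ι' : Type}

theorem lim_MS.pow [Fintype ι] {U : Ω → Submodule ℝ (ι → ℝ)} (hU : lim_MS U) (N : ℕ) :
    lim_MS fun ω => U ω ^ N := by
  induction N with
  | zero => simpa using lim_MS.const _
  | succ N ih =>
    obtain ⟨κ, _, h, hh, e⟩ := hU
    obtain ⟨κ', _, h', hh', e'⟩ := ih
    refine ⟨κ' × κ, inferInstance, fun k ω => h' k.1 ω * h k.2 ω, fun k => (hh' _).mul (hh _),
      fun ω => ?_⟩
    simp only at e' ⊢
    rw [pow_succ, e', e, Submodule.span_mul_span, ← Set.image2_mul, Set.image2_range]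

/-- the form `Om` as a linear map -/
noncomputable def lim_Om (x : ι → ℝ) (t : Tri ι) : (ι → ℝ) →ₗ[ℝ] ℝ :=
  ∑ i, co x t i • LinearMap.proj (t i)

theorem lim_Om_apply (x f : ι → ℝ) (t : Tri ι) : lim_Om x t f = Om x f t := by
  simp [lim_Om, Om]

theorem lim_Om_meas {x f : Ω → ι → ℝ} (hx : Measurable x) (hf : Measurable f) (t : Tri ι) :
    Measurable fun ω => Om (x ω) (f ω) t := by
  unfold Om co
  fun_prop

theorem lim_hof [Fintype ι] {U : Ω → Submodule ℝ (ι → ℝ)} (hU : lim_MS U) {x : Ω → ι → ℝ}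
    (hx : Measurable x) (τ : Finset (Tri ι)) : lim_MB fun ω c => Hof (x ω) (U ω) τ c := by
  refine (lim_MB.all fun S : Finset ι => lim_MB.all fun τ' : Finset (Tri ι) => (?_ :
    lim_MB fun ω c => ∀ f ∈ U ω, ∀ b : ℝ, 0 ≤ b → (∀ a ∈ S, |f a| ≤ b) →
      (∀ t ∈ τ', |Om (x ω) f t| ≤ b) → ∃ g ∈ U ω, (∀ a ∈ S, g a = 0) ∧
        (∀ t ∈ τ', Om (x ω) g t = 0) ∧ ∀ a, |f a - g a| ≤ c * b)).imp
    fun ω c h S _ τ' _ f a b c1 c2 c3 =>
      let ⟨g, d1, d2, d3, d4⟩ := h S τ' f a b c1 c2 c3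
      ⟨g, d1, d2, d3, fun a _ => d4 a⟩
  obtain ⟨g, hg, H⟩ := lim_core hU (J := S ⊕ τ')
    (Sum.elim (fun a _ => LinearMap.proj a.1) fun t ω => lim_Om (x ω) t.1) (by
      rintro (a | t) f hf
      · exact (measurable_pi_apply a.1).comp hf
      · simpa only [Sum.elim_inr, lim_Om_apply] using lim_Om_meas hx hf t.1)
  refine ⟨fun ω => ∑ j, ‖g j ω‖, by fun_prop, fun ω c k f a b c1 c2 c3 => ⟨_, sub_mem a
    (Submodule.sum_mem _ fun i _ => Submodule.smul_mem _ _ ((H ω).1 i)),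
    fun a' h => (H ω).2 f a (.inl ⟨a', h⟩),
    fun t h => (lim_Om_apply ..).symm.trans ((H ω).2 f a (.inr ⟨t, h⟩)), fun a' => ?_⟩⟩
  rw [Pi.sub_apply, sub_sub_cancel, Finset.sum_apply]
  refine (abs_sum_le_sum_abs _ _).trans (le_trans ?_ (mul_le_mul_of_nonneg_right k c1))
  rw [sum_mul]
  refine sum_le_sum fun j _ => ?_
  rw [Pi.smul_apply, smul_eq_mul, abs_mul, mul_comm]
  refine mul_le_mul (norm_le_pi_norm (g j ω) a') ?_ (abs_nonneg _) (norm_nonneg _)
  rcases j with a | t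
  · exact c2 _ a.2
  · simpa only [Sum.elim_inr, lim_Om_apply] using c3 _ t.2

theorem lim_lines {τ : Finset (Tri ι)} {a : ι} : a ∈ lines τ ↔ ∃ t ∈ τ, ∃ i, t i = a := by
  simp only [lines, cl, mem_biUnion, mem_univ, true_and, mem_image]
  tauto

theorem lim_lines_image {e : ι → ι'} {τ : Finset (Tri ι)} {a : ι'}
    (h : a ∈ lines (τ.image fun t => e ∘ t)) : ∃ b ∈ lines τ, e b = a := by
  obtain ⟨_, a, i, rfl⟩ := lim_lines.1 h
  obtain ⟨t, b, rfl⟩ := mem_image.1 a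
  exact ⟨t i, lim_lines.2 ⟨t, b, i, rfl⟩, rfl⟩

theorem lim_pull (e : ι → ι') (x : ι' → ℝ) (U : Submodule ℝ (ι' → ℝ)) (τ : Finset (Tri ι))
    (c : ℝ) (h : Hof (x ∘ e) (U.map (LinearMap.funLeft ℝ ℝ e)) τ c) :
    Hof x U (τ.image fun t => e ∘ t) c := by
  intro S hS τ' hτ f hf b c1 c2 c3
  obtain ⟨_, ⟨g, d1, rfl⟩, d2, d3, d4⟩ := h {a ∈ lines τ | e a ∈ S} (filter_subset _ _)
    {t ∈ τ | e ∘ t ∈ τ'} (filter_subset _ _) _ (Submodule.mem_map_of_mem hf) b c1
    (fun a k => c2 _ (mem_filter.1 k).2) fun t k => c3 _ (mem_filter.1 k).2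
  refine ⟨g, d1, fun a k => ?_, fun t k => ?_, fun a k => ?_⟩
  · obtain ⟨b, k', rfl⟩ := lim_lines_image (hS k)
    exact d2 b (mem_filter.2 ⟨k', k⟩)
  · obtain ⟨u, k', rfl⟩ := mem_image.1 (hτ k)
    exact d3 u (mem_filter.2 ⟨k', k⟩)
  · obtain ⟨b, k', rfl⟩ := lim_lines_image k
    exact d4 b k'

theorem lim_aff_le (x s : ι → ℝ) (τ : Finset (Tri ι)) (α β : ℝ) :
    Lab0 x s τ ≤ Lab0 x (fun a => s a + x a * α - β) τ := by
  set s' : ι → ℝ := fun a => s a + x a * α - β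
  have h1 : ∀ f ∈ ({1, x, s'} : Set (ι → ℝ)), f ∈ Lab0 x s' τ := fun f k =>
    Submodule.mem_sup_left (Submodule.mem_sup_left (Submodule.subset_span k))
  have h2 : ∀ ψ ∈ Flex x s τ, (ψ.1 + α • ψ.2, ψ.2) ∈ Flex x s' τ := fun ψ k t ht => by
    have := k t ht
    simp only [Om, co, Fin.sum_univ_three, Pi.add_apply, Pi.smul_apply, smul_eq_mul, s'] at this ⊢
    simp only [Fin.isValue, Fin.reduceAdd] at this ⊢
    linear_combination this
  have h3 : ∀ ψ ∈ Flex x s τ, ψ.2 ∈ Lab0 x s' τ := fun ψ k =>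
    Submodule.mem_sup_right ⟨_, h2 ψ k, rfl⟩
  refine sup_le (sup_le (Submodule.span_le.2 ?_) ?_) ?_
  · rintro f (rfl | rfl | rfl)
    · exact h1 _ (by simp)
    · exact h1 _ (by simp)
    · have : f = s' - α • x + β • (1 : ι → ℝ) := by ext a; simp [s']; ring
      rw [this]
      exact add_mem (sub_mem (h1 _ (by simp)) (Submodule.smul_mem _ _ (h1 _ (by simp))))
        (Submodule.smul_mem _ _ (h1 _ (by simp)))
  · rintro _ ⟨ψ, k, rfl⟩
    have : ψ.1 + α • ψ.2 ∈ Lab0 x s' τ :=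
      Submodule.mem_sup_left (Submodule.mem_sup_right ⟨_, h2 ψ k, rfl⟩)
    simpa using sub_mem this (Submodule.smul_mem _ α (h3 ψ k))
  · rintro _ ⟨ψ, k, rfl⟩
    exact h3 ψ k

theorem lim_aff (x s : ι → ℝ) (τ : Finset (Tri ι)) (α β : ℝ) :
    Lab0 x s τ = Lab0 x (fun a => s a + x a * α - β) τ :=
  (lim_aff_le x s τ α β).antisymm ((lim_aff_le x _ τ (-α) (-β)).trans_eq (by congr; ext; ring))

/-- functions that are constant along `R` -/
def lim_Cst (R : ι → ι → Prop) : Submodule ℝ (ι → ℝ) where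
  carrier := {f | ∀ a b, R a b → f a = f b}
  add_mem' := fun h k a b r => by rw [Pi.add_apply, Pi.add_apply, h a b r, k a b r]
  zero_mem' := fun _ _ _ => rfl
  smul_mem' := fun c f h a b r => by rw [Pi.smul_apply, Pi.smul_apply, h a b r]

/-- labels that respect `R` -/
def lim_Lab (x s : ι → ℝ) (τ : Finset (Tri ι)) (R : ι → ι → Prop) : Submodule ℝ (ι → ℝ) :=
  Submodule.span ℝ {1, x, s} ⊔ ((lim_Cst R).prod (lim_Cst R) ⊓ Flex x s τ).map (.fst ℝ _ _) ⊔
    ((lim_Cst R).prod (lim_Cst R) ⊓ Flex x s τ).map (.snd ℝ _ _)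

theorem lim_Lab_eq (e : ι → ι') (x s : ι' → ℝ) (τ : Finset (Tri ι)) :
    (Lab0 x s (τ.image fun t => e ∘ t)).map (LinearMap.funLeft ℝ ℝ e) =
      lim_Lab (x ∘ e) (s ∘ e) τ fun a b => e a = e b := by
  have h1 : ∀ f ∈ lim_Cst fun a b => e a = e b, ∃ g : ι' → ℝ, g ∘ e = f := fun f k =>
    ⟨Function.extend e f 0, funext fun a => Function.FactorsThrough.extend_apply
      (fun a b r => k a b r) _ a⟩
  have h2 : (Flex x s (τ.image fun t => e ∘ t)).map
      ((LinearMap.funLeft ℝ ℝ e).prodMap (LinearMap.funLeft ℝ ℝ e)) =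
      (lim_Cst fun a b => e a = e b).prod (lim_Cst fun a b => e a = e b) ⊓
        Flex (x ∘ e) (s ∘ e) τ := by
    ext ⟨f, g⟩
    constructor
    · rintro ⟨ψ, k, r⟩
      obtain ⟨rfl, rfl⟩ := Prod.ext_iff.1 r
      exact ⟨⟨fun a b r => congrArg ψ.1 r, fun a b r => congrArg ψ.2 r⟩,
        fun t ht => k _ (mem_image_of_mem _ ht)⟩
    · rintro ⟨⟨a, b⟩, k⟩
      obtain ⟨f, rfl⟩ := h1 f a
      obtain ⟨g, rfl⟩ := h1 g b
      refine ⟨(f, g), fun t ht => ?_, rfl⟩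
      obtain ⟨u, hu, rfl⟩ := mem_image.1 ht
      exact k u hu
  simp only [Lab0, lim_Lab, Submodule.map_sup, Submodule.map_span, ← h2, ← Submodule.map_comp,
    Set.image_insert_eq, Set.image_singleton]
  rfl

theorem lim_Lab_MS [Fintype ι] {x s : Ω → ι → ℝ} (hx : Measurable x) (hs : Measurable s)
    (τ : Finset (Tri ι)) (R : ι → ι → Prop) : lim_MS fun ω => lim_Lab (x ω) (s ω) τ R := by
  have h1 : lim_MS fun ω => (lim_Cst R).prod (lim_Cst R) ⊓ Flex (x ω) (s ω) τ := by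
    have e : ∀ ω (t : Tri ι) (f : (ι → ℝ) × (ι → ℝ)), (lim_Om (x ω) t).coprod
        (-lim_Om (s ω) t) f = Om (x ω) f.1 t + Om f.2 (s ω) t := fun ω t f => by
      simp only [LinearMap.coprod_apply, LinearMap.neg_apply, lim_Om_apply, Om, co,
        Fin.sum_univ_three, Fin.isValue, Fin.reduceAdd]
      ring
    refine (lim_MS.const ((lim_Cst R).prod (lim_Cst R))).ker (J := τ)
      (fun t ω => (lim_Om (x ω) t.1).coprod (-lim_Om (s ω) t.1)) (fun t f hf => ?_) fun ω f => ?_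
    · simp only [e]
      exact (lim_Om_meas hx hf.fst _).add (lim_Om_meas hf.snd hs _)
    · simp only [e, Submodule.mem_inf, Subtype.forall]
      rfl
  refine (lim_MS.sup ⟨Fin 3, inferInstance, ![1, x, s], fun k => ?_, fun ω => ?_⟩
    (h1.map _ measurable_fst)).sup (h1.map _ measurable_snd)
  · fin_cases k
    exacts [measurable_const, hx, hs]
  · congr
    ext f
    simp only [Set.mem_insert_iff, Set.mem_singleton_iff, Set.mem_range, Fin.exists_fin_succ]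
    simp [eq_comm]

theorem lim_alg_pull {e : ι → ι'} {x : ι' → ℝ} {τ : Finset (Tri ι)} {N : ℕ} {S : Finset ℝ}
    (h : AlgT (x ∘ e) τ N S) : AlgT x (τ.image fun t => e ∘ t) N S := by
  have : ∀ u : Fin N → Option (ι' × ι'), (∀ i a b, u i = some (a, b) →
      a ∈ lines (τ.image fun t => e ∘ t) ∧ b ∈ lines (τ.image fun t => e ∘ t)) →
      ∃ u' : Fin N → Option (ι × ι), ∀ i, (∀ a b, u' i = some (a, b) → a ∈ lines τ ∧ b ∈ lines τ) ∧
        ((u i).elim 1 fun e => x e.1 - x e.2) =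
          (u' i).elim 1 fun y => (x ∘ e) y.1 - (x ∘ e) y.2 := fun u hu => by
    refine Classical.skolem (p := fun i (o : Option (ι × ι)) =>
      (∀ a b, o = some (a, b) → a ∈ lines τ ∧ b ∈ lines τ) ∧
      ((u i).elim 1 fun e => x e.1 - x e.2) = o.elim 1 fun y => (x ∘ e) y.1 - (x ∘ e) y.2).1
      fun i => ?_
    rcases h : u i with _ | ⟨a, b⟩
    · exact ⟨none, by simp, rfl⟩
    · obtain ⟨a, ha, rfl⟩ := lim_lines_image (hu i a b h).1
      obtain ⟨b, hb, rfl⟩ := lim_lines_image (hu i _ b h).2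
      exact ⟨some (a, b), by rintro _ _ ⟨⟩; exact ⟨ha, hb⟩, rfl⟩
  intro u v hu hv
  obtain ⟨u', a⟩ := this u hu
  obtain ⟨v', b⟩ := this v hv
  simp only [fun i => (a i).2, fun i => (b i).2]
  exact h u' v' (fun i => (a i).1) fun i => (b i).1

/-- the three local bounds -/
def lim_Loc (S : ℕ → Finset ℝ) (N : ℕ) (x s : ι → ℝ) (τ : Finset (Tri ι)) (c : ℕ) : Prop :=
  Hof x (Lab0 x s τ ^ N) τ c ∧ Gap x τ c ∧ AlgT x τ N (S c)

theorem lim_loc : ∃ S : ℕ → Finset ℝ, ∀ {Ω ι : Type} [MeasurableSpace Ω] [Fintype ι]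
    {x0 s0 : Ω → ι → ℝ}, Measurable x0 → Measurable s0 → ∀ (τ : Finset (Tri ι)) (N : ℕ),
      lim_MB fun ω c => ∀ (ι' : Type) (e : ι → ι') (x s : ι' → ℝ) (α β : ℝ) (τ' : Finset (Tri ι')),
        x0 ω = x ∘ e → s0 ω = (fun a => s a + x a * α - β) ∘ e →
          (∀ t, t ∈ τ' ↔ ∃ u ∈ τ, e ∘ u = t) → lim_Loc S N x s τ' c := by
  obtain ⟨S, hS⟩ := lim_alg
  refine ⟨S, fun {Ω ι} _ _ x0 s0 hx hs τ N => ?_⟩
  have hp : ∀ u : Fin N → Option (ι × ι), Measurable fun ω =>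
      ∏ i, (u i).elim 1 fun e => x0 ω e.1 - x0 ω e.2 := fun u =>
    measurable_prod _ fun i _ => by cases u i <;> simp only [Option.elim] <;> fun_prop
  have b1 : lim_MB fun ω c => ∀ R, Hof (x0 ω) (lim_Lab (x0 ω) (s0 ω) τ R ^ N) τ c :=
    lim_MB.all fun R => lim_hof ((lim_Lab_MS hx hs τ R).pow N) hx τ
  have b2 : lim_MB fun ω c => Gap (x0 ω) τ c :=
    (lim_MB.all fun a => lim_MB.all fun b => lim_gap (φ := fun ω => x0 ω a - x0 ω b)
      (by fun_prop)).imp fun ω c h a _ b _ k => h a b (sub_ne_zero.2 k)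
  have b3 : lim_MB fun ω c => AlgT (x0 ω) τ N (S c) :=
    (lim_MB.all fun u => lim_MB.all fun v => hS ((hp u).div (hp v))).imp
      fun ω c h u v _ _ => h u v
  refine (b1.and (b2.and b3)).imp ?_
  rintro ω c ⟨h1, h2, h3⟩ ι' e x s α β τ' e3 e4 e0
  obtain rfl : τ' = τ.image fun t => e ∘ t := Finset.ext fun t => (e0 t).trans mem_image.symm
  rw [e3] at h1 h2 h3
  refine ⟨lim_pull e _ _ _ _ ?_, fun a ha b hb => ?_, lim_alg_pull h3⟩
  · have := h1 fun a b => e a = e b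
    rw [e4, ← lim_Lab_eq, ← lim_aff] at this
    have e5 : ∀ U : Submodule ℝ (ι' → ℝ), (U ^ N).map (LinearMap.funLeft ℝ ℝ e) =
        U.map (LinearMap.funLeft ℝ ℝ e) ^ N := fun U =>
      Submodule.map_pow U (AlgHom.pi fun a => Pi.evalAlgHom ℝ (fun _ => ℝ) (e a)) N
    rwa [e5]
  · obtain ⟨a, ha', rfl⟩ := lim_lines_image ha
    obtain ⟨b, hb', rfl⟩ := lim_lines_image hb
    exact h2 a ha' b hb'

end Pool.Agent.MP_38296a_co.H21

end FileLim1

section FileLim2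

/-!
Invariant limit measures of orbits averaged over boxes, and selection of typical points.
-/

set_option autoImplicit false

namespace Pool.Agent.MP_38296a_co.H21

open Finset Filter Classical MeasureTheory Topology

theorem lim_mem {j : ℕ} {p : Cell} : p ∈ (Bx.mk j 0 0).cells ↔
    (0 ≤ p.1 ∧ p.1 < 2 ^ j) ∧ 0 ≤ p.2 ∧ p.2 < 2 ^ j := by
  simp [Bx.cells]

theorem lim_card (j : ℕ) : (#(Bx.mk j 0 0).cells : ℝ) = 4 ^ j := by
  have : ((2 : ℤ) ^ j).toNat = 2 ^ j := by exact_mod_cast Int.toNat_natCast (2 ^ j)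
  simp only [Bx.cells, card_product, Int.card_Ico, zero_mul, zero_add, one_mul, sub_zero, this]
  push_cast
  rw [← mul_pow]
  norm_num

/-- cells near the boundary of a box -/
theorem lim_bad (j r : ℕ) : cnt (Bx.mk j 0 0).cells
    (fun p => ¬ ∀ q : Cell, |q.1| ≤ r → |q.2| ≤ r → q + p ∈ (Bx.mk j 0 0).cells) ≤
      4 * r * 2 ^ j := by
  set E : Finset ℤ := Ico (0 : ℤ) r ∪ Ico (2 ^ j - r : ℤ) (2 ^ j)
  have h2 : ((2 : ℤ) ^ j).toNat = 2 ^ j := by exact_mod_cast Int.toNat_natCast (2 ^ j)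
  have hE : #E ≤ 2 * r := (card_union_le _ _).trans (by simp [two_mul])
  have : #{p ∈ (Bx.mk j 0 0).cells | ¬ ∀ q : Cell, |q.1| ≤ r → |q.2| ≤ r →
      q + p ∈ (Bx.mk j 0 0).cells} ≤ #(E ×ˢ Ico (0 : ℤ) (2 ^ j) ∪ Ico (0 : ℤ) (2 ^ j) ×ˢ E) := by
    refine card_le_card fun p hp => ?_
    simp only [mem_filter, lim_mem, not_forall, abs_le, Prod.fst_add, Prod.snd_add] at hp
    obtain ⟨h1, q, h3, h4, h5⟩ := hp
    simp only [E, mem_union, mem_product, mem_Ico]
    omega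
  have h3 := this.trans (card_union_le _ _)
  simp only [card_product, Int.card_Ico, sub_zero, h2] at h3
  have h4 : _ ≤ 4 * r * 2 ^ j := h3.trans (by nlinarith [Nat.zero_le (2 ^ j)])
  unfold cnt
  exact_mod_cast le_of_eq_of_le (by congr) h4

theorem lim_shift (S : Finset Cell) (v : Cell) (g : Cell → ℝ) {M : ℝ} (hg : ∀ p, |g p| ≤ M) :
    |∑ p ∈ S, g (v + p) - ∑ p ∈ S, g p| ≤ 2 * M * cnt S fun p => ¬ v + p ∈ S := by
  have hi : Function.Injective fun p : Cell => v + p := add_right_injective v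
  have hb : ∀ U : Finset Cell, |∑ p ∈ U, g p| ≤ M * #U := fun U =>
    (abs_sum_le_sum_abs _ _).trans ((sum_le_card_nsmul _ _ _ fun p _ => hg p).trans
      (by rw [nsmul_eq_mul, mul_comm]))
  have h1 : #(S.image (fun p => v + p) \ S) ≤ #{p ∈ S | ¬ v + p ∈ S} := by
    refine (card_le_card fun p hp => ?_).trans (card_image_le (f := fun p => v + p))
    simp only [Finset.mem_sdiff, mem_image, mem_filter] at hp ⊢
    obtain ⟨⟨q, a, rfl⟩, b⟩ := hp
    exact ⟨q, ⟨a, b⟩, rfl⟩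
  have h2 : #(S \ S.image fun p => v + p) = #(S.image (fun p => v + p) \ S) :=
    card_sdiff_comm (card_image_of_injective _ hi).symm
  have hM : 0 ≤ M := (abs_nonneg _).trans (hg 0)
  have h3 : ((#(S.image (fun p => v + p) \ S) : ℕ) : ℝ) ≤ cnt S fun p => ¬ v + p ∈ S := by
    unfold cnt
    exact_mod_cast h1.trans_eq (by congr)
  rw [← sum_image (g := fun p => v + p) hi.injOn, ← sum_sdiff_sub_sum_sdiff]
  refine (abs_sub _ _).trans ((add_le_add (hb _) (hb _)).trans ?_)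
  rw [h2]
  nlinarith

theorem lim_small (K : ℝ) {j : ℕ → ℕ} (hj : ∀ a, a ≤ j a) :
    Tendsto (fun a => K / (2 : ℝ) ^ j a) atTop (𝓝 0) :=
  tendsto_const_nhds.div_atTop ((tendsto_pow_atTop_atTop_of_one_lt one_lt_two).comp
    (tendsto_atTop_mono hj tendsto_id))

variable {X : Type} [TopologicalSpace X] [CompactSpace X] [TopologicalSpace.MetrizableSpace X]
  [MeasurableSpace X] [BorelSpace X]

/-- an invariant limit measure -/
theorem lim_meas (τ : Cell → X → X) (hτ : ∀ v, Continuous (τ v))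
    (hadd : ∀ u v ω, τ u (τ v ω) = τ (u + v) ω) (w : ℕ → X) (j : ℕ → ℕ) (hj : ∀ a, a ≤ j a) :
    ∃ μ : Measure X, IsProbabilityMeasure μ ∧ (∀ v, MeasurePreserving (τ v) μ μ) ∧
      ∀ f : X → ℝ, Continuous f → Tendsto (fun a => (Bx.mk (j a) 0 0).avg fun p => f (τ p (w a)))
        UU (𝓝 (∫ ω, f ω ∂μ)) := by
  have hU : UU.NeBot := (hyperfilter ℕ).neBot
  have h4 : ∀ a, ((4 : ENNReal) ^ j a) ≠ 0 := fun a => pow_ne_zero _ (by norm_num)
  have h5 : ∀ a, ((4 : ENNReal) ^ j a) ≠ ⊤ := fun a => ENNReal.pow_ne_top (by norm_num)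
  let ν : ℕ → ProbabilityMeasure X := fun a =>
    ⟨((4 : ENNReal) ^ j a)⁻¹ • ∑ p ∈ (Bx.mk (j a) 0 0).cells, Measure.dirac (τ p (w a)), ⟨by
      have : (#(Bx.mk (j a) 0 0).cells : ENNReal) = 4 ^ j a := by
        have : #(Bx.mk (j a) 0 0).cells = 4 ^ j a := by exact_mod_cast lim_card (j a)
        rw [this]
        norm_cast
      simp [Measure.finsetSum_apply, this, ENNReal.inv_mul_cancel (h4 a) (h5 a)]⟩⟩
  obtain ⟨μ, -, hμ⟩ := isCompact_univ.ultrafilter_le_nhds ((hyperfilter ℕ).map ν) (by simp)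
  have H : ∀ f : X → ℝ, Continuous f → Tendsto
      (fun a => (Bx.mk (j a) 0 0).avg fun p => f (τ p (w a))) UU (𝓝 (∫ ω, f ω ∂(μ : Measure X))) := by
    intro f hf
    have := ProbabilityMeasure.tendsto_iff_forall_integral_tendsto.1
      (show Tendsto ν UU (𝓝 μ) from hμ) (BoundedContinuousFunction.mkOfCompact ⟨f, hf⟩)
    refine this.congr fun a => ?_
    simp only [ν, ProbabilityMeasure.coe_mk, integral_smul_measure]
    rw [integral_finsetSum_measure fun _ _ => integrable_dirac enorm_lt_top]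
    simp [Bx.avg, div_eq_inv_mul]
  refine ⟨μ, inferInstance, fun v => ⟨(hτ v).measurable, ?_⟩, H⟩
  refine ext_of_forall_integral_eq_of_IsFiniteMeasure fun f => ?_
  rw [integral_map (hτ v).measurable.aemeasurable f.continuous.aestronglyMeasurable]
  refine sub_eq_zero.1 (tendsto_nhds_unique ((H _ (f.continuous.comp (hτ v))).sub
    (H _ f.continuous)) ?_)
  set r : ℕ := v.1.natAbs + v.2.natAbs
  refine squeeze_zero_norm (fun a => ?_)
    ((lim_small (2 * ‖f‖ * (4 * r)) hj).mono_left Nat.hyperfilter_le_atTop)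
  have h1 := lim_shift (Bx.mk (j a) 0 0).cells v (fun p => f (τ p (w a)))
    fun p => f.norm_coe_le_norm _
  have h2 : cnt (Bx.mk (j a) 0 0).cells (fun p => ¬ v + p ∈ (Bx.mk (j a) 0 0).cells) ≤
      4 * r * 2 ^ j a := by
    refine le_trans ?_ (lim_bad (j a) r)
    unfold cnt
    norm_cast
    refine card_le_card fun p hp => ?_
    simp only [mem_filter] at hp ⊢
    refine ⟨hp.1, fun h => hp.2 (h v ?_ ?_)⟩ <;> simp only [r, abs_le] <;> omega
  have h3 : (4 : ℝ) ^ j a = 2 ^ j a * 2 ^ j a := by rw [← mul_pow]; norm_num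
  simp only [Bx.avg, Function.comp, hadd, ← sub_div, Real.norm_eq_abs, abs_div]
  rw [abs_of_pos (by positivity : (0 : ℝ) < 4 ^ j a), h3, div_le_div_iff₀ (by positivity)
    (by positivity)]
  have := h1.trans (mul_le_mul_of_nonneg_left h2 (by positivity))
  nlinarith [pow_pos (two_pos (α := ℝ)) (j a)]

/-- typical points -/
theorem lim_sel (τ : Cell → X → X) (hτ : ∀ v, Continuous (τ v))
    (hadd : ∀ u v ω, τ u (τ v ω) = τ (u + v) ω) (w : ℕ → X) (j : ℕ → ℕ) (hj : ∀ a, a ≤ j a)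
    {f : X → ℝ} (hf : Continuous f) (hf1 : ∀ ω, f ω ≤ 1) {δ : ℝ} (hδ : 0 < δ)
    (h1 : ∀ a, δ ≤ (Bx.mk (j a) 0 0).avg fun p => f (τ p (w a)))
    {g : ℕ → X → ℝ} (hg : ∀ n, Continuous (g n)) (hg0 : ∀ n ω, 0 ≤ g n ω) {K : ℝ}
    (h2 : ∀ a n, (Bx.mk (j a) 0 0).avg (fun p => g n (τ p (w a))) ≤ K)
    (Y : ℕ → X → ℝ) (hY : ∀ m, Measurable (Y m)) :
    ∃ (ω : ℕ → X) (c : ℕ → ℕ) (K' : ℝ), ∀ n,
      δ / 2 ≤ (Bx.mk n 0 0).avg (fun p => f (τ p (ω n))) ∧ g n (ω n) ≤ K' ∧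
      ∀ m < n, (Bx.mk n 0 0).fr (fun p => (c m : ℝ) < Y m (τ p (ω n))) ≤ 1 / (m + 1) := by
  obtain ⟨μ, hμ, hinv, H⟩ := lim_meas τ hτ hadd w j hj
  have hU : UU.NeBot := (hyperfilter ℕ).neBot
  have e1 : δ ≤ ∫ ω, f ω ∂μ := ge_of_tendsto' (H f hf) h1
  have e2 : ∀ n, ∫ ω, g n ω ∂μ ≤ K := fun n => le_of_tendsto' (H _ (hg n)) fun a => h2 a n
  have hK : 0 ≤ K := (integral_nonneg (hg0 0)).trans (e2 0)
  have hm : ∀ m (c : ℕ), MeasurableSet {ω | (c : ℝ) < Y m ω} := fun m c =>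
    measurableSet_lt measurable_const (hY m)
  have e3 : ∀ m : ℕ, ∃ c : ℕ, μ.real {ω | (c : ℝ) < Y m ω} ≤ δ / 8 * (1 / 2) ^ m / (m + 1) := by
    intro m
    have := tendsto_measure_iInter_atTop (μ := μ) (s := fun c : ℕ => {ω | (c : ℝ) < Y m ω})
      (fun c => (hm m c).nullMeasurableSet)
      (fun a b h ω (k : (b : ℝ) < _) => lt_of_le_of_lt (Nat.cast_le.2 h) k) ⟨0, measure_ne_top _ _⟩
    have h0 : ⋂ c : ℕ, {ω | (c : ℝ) < Y m ω} = ∅ := Set.eq_empty_of_forall_notMem fun ω h =>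
      let ⟨c, hc⟩ := exists_nat_ge (Y m ω)
      hc.not_gt (Set.mem_iInter.1 h c)
    rw [h0, measure_empty] at this
    exact (((ENNReal.tendsto_toReal ENNReal.zero_ne_top).comp this).eventually_le_const
      (show ENNReal.toReal 0 < _ by rw [ENNReal.toReal_zero]; positivity)).exists
  choose c hc using e3
  let I : ℕ → X → ℝ := fun m => {ω | (c m : ℝ) < Y m ω}.indicator 1
  have iI : ∀ m, Integrable (I m) μ := fun m => (integrable_const 1).indicator (hm m _)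
  have ic : ∀ {F : X → ℝ}, Continuous F → Integrable F μ := fun {F} h =>
    (BoundedContinuousFunction.mkOfCompact ⟨F, h⟩).integrable μ
  have av : ∀ (n : ℕ) {F : X → ℝ}, Integrable F μ →
      Integrable (fun ω => (Bx.mk n 0 0).avg fun p => F (τ p ω)) μ ∧
        ∫ ω, (Bx.mk n 0 0).avg (fun p => F (τ p ω)) ∂μ = ∫ ω, F ω ∂μ := by
    intro n F hF
    have a1 : ∀ p, Integrable (fun ω => F (τ p ω)) μ := fun p =>
      (hinv p).integrable_comp_of_integrable hF
    have a2 : ∀ p, ∫ ω, F (τ p ω) ∂μ = ∫ ω, F ω ∂μ := fun p => by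
      rw [← integral_map (hinv p).measurable.aemeasurable (by rw [(hinv p).map_eq]; exact hF.1),
        (hinv p).map_eq]
    refine ⟨(integrable_finsetSum _ fun p _ => a1 p).div_const _, ?_⟩
    simp only [Bx.avg, integral_div]
    rw [integral_finsetSum _ fun p _ => a1 p]
    simp only [a2, sum_const, nsmul_eq_mul, lim_card]
    field_simp
  have key : ∀ n, ∃ ω, δ / 2 ≤ (Bx.mk n 0 0).avg (fun p => f (τ p ω)) - δ / (4 * (K + 1)) * g n ω -
      ∑ m ∈ range n, ((m : ℝ) + 1) * (Bx.mk n 0 0).avg fun p => I m (τ p ω) := by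
    intro n
    have b1 := av n (ic hf)
    have b2 := (ic (hg n)).const_mul (δ / (4 * (K + 1)))
    have b3 := fun m : ℕ => (av n (iI m)).1.const_mul ((m : ℝ) + 1)
    have b4 := integrable_finsetSum (range n) fun m _ => b3 m
    obtain ⟨ω, hω⟩ := exists_integral_le ((b1.1.sub b2).sub b4)
    refine ⟨ω, le_trans ?_ hω⟩
    simp only [Pi.sub_apply]
    rw [integral_sub (b1.1.sub' b2) b4, integral_sub b1.1 b2, b1.2, integral_const_mul,
      integral_finsetSum _ fun m _ => b3 m]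
    have b5 : ∑ m ∈ range n, ∫ ω, ((m : ℝ) + 1) * (Bx.mk n 0 0).avg (fun p => I m (τ p ω)) ∂μ ≤
        ∑ m ∈ range n, δ / 8 * (1 / 2) ^ m := sum_le_sum fun m _ => by
      rw [integral_const_mul, (av n (iI m)).2, integral_indicator_one (hm m _), mul_comm]
      exact (le_div_iff₀ (by positivity)).1 (hc m)
    rw [← mul_sum] at b5
    have b6 := mul_le_mul_of_nonneg_left (sum_geometric_two_le n) (by positivity : 0 ≤ δ / 8)
    have b7 : δ / (4 * (K + 1)) * ∫ ω, g n ω ∂μ ≤ δ / 4 := by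
      refine (mul_le_mul_of_nonneg_left ((e2 n).trans (le_add_of_nonneg_right zero_le_one))
        (by positivity)).trans_eq ?_
      field_simp
    linarith
  choose ω hω using key
  refine ⟨ω, c, 4 * (K + 1) / δ, fun n => ?_⟩
  have c1 : (Bx.mk n 0 0).avg (fun p => f (τ p (ω n))) ≤ 1 := by
    rw [Bx.avg, div_le_one (by positivity), ← lim_card]
    simpa using sum_le_card_nsmul _ _ 1 fun p _ => hf1 (τ p (ω n))
  have c2 : 0 ≤ δ / (4 * (K + 1)) * g n (ω n) := mul_nonneg (by positivity) (hg0 _ _)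
  have c3 : ∀ m ∈ range n, 0 ≤ ((m : ℝ) + 1) * (Bx.mk n 0 0).avg fun p => I m (τ p (ω n)) :=
    fun m _ => mul_nonneg (by positivity) (div_nonneg (sum_nonneg fun p _ =>
      Set.indicator_nonneg (fun _ _ => zero_le_one) _) (by positivity))
  have c4 := sum_nonneg c3
  have c5 := hω n
  refine ⟨by linarith, ?_, fun m hm => ?_⟩
  · have : δ / (4 * (K + 1)) * g n (ω n) ≤ 1 := by linarith
    rw [div_mul_eq_mul_div, div_le_one (by positivity)] at this
    rw [le_div_iff₀ hδ]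
    linarith
  · have c6 := single_le_sum c3 (mem_range.2 hm)
    have c7 : (Bx.mk n 0 0).fr (fun p => (c m : ℝ) < Y m (τ p (ω n))) =
        (Bx.mk n 0 0).avg fun p => I m (τ p (ω n)) := by
      simp [Bx.fr, Bx.avg, cnt, I, Set.indicator]
    rw [c7, le_div_iff₀ (by positivity)]
    linarith

end Pool.Agent.MP_38296a_co.H21

end FileLim2

section FileLim3

/-!
The compact space of rooted configurations.
-/

set_option autoImplicit false

namespace Pool.Agent.MP_38296a_co.H21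

open Finset Filter Classical Topology

noncomputable section

abbrev lim_Sl : Type := Cell × Fin 3

/-- same line relation, slopes, offsets of the vertices -/
abbrev lim_X0 : Type := (lim_Sl → lim_Sl → Bool) × (lim_Sl → ℝ) × (Cell → ℝ) × (Cell → ℝ)

def lim_s (ω : lim_X0) (a : lim_Sl) : ℝ :=
  a.1.2 + ω.2.2.2 a.1 - ω.2.1 a * (a.1.1 + ω.2.2.1 a.1)

/-- valid configurations -/
structure lim_V (k : ℕ) (ω : lim_X0) : Prop where
  symm : ∀ a b, ω.1 a b → ω.1 b a
  trans : ∀ a b c, ω.1 a b → ω.1 b c → ω.1 a c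
  occ : ∀ q i, ω.1 (q, 0) (q, 0) → ω.1 (q, i) (q, i)
  eq : ∀ a b, ω.1 a b → ω.2.1 a = ω.2.1 b ∧ lim_s ω a = lim_s ω b
  sep : ∀ a, ω.1 a a → |ω.2.1 a - (((a.2 : ℕ) : ℝ) - 1)| ≤ 1 / 10
  bx : ∀ a, ω.2.1 a ∈ Set.Icc (-2 : ℝ) 2
  b1 : ∀ q, ω.2.2.1 q ∈ Set.Icc (0 : ℝ) 1
  b2 : ∀ q, ω.2.2.2 q ∈ Set.Icc (0 : ℝ) 1
  far : ∀ q q', ω.1 (q, 0) (q, 0) → ω.1 (q', 0) (q', 0) → q ≠ q' →
    2 ≤ |q.1 - q'.1| ∨ 2 ≤ |q.2 - q'.2|
  lin : ∀ q q' i j, ω.1 (q, i) (q', i) → ω.1 (q, j) (q', j) → i ≠ j → q = q'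
  poor : ∀ (S : Fin 3 → Finset lim_Sl) (W : Finset Cell),
    (∀ q ∈ W, ∀ i, ∃ b ∈ S i, ω.1 (q, i) b) → (∀ i, #(S i) ≤ 2 * k) → #W < k ^ 2

def lim_sh (v : Cell) (ω : lim_X0) : lim_X0 :=
  (fun a b => ω.1 (a.1 + v, a.2) (b.1 + v, b.2), fun a => ω.2.1 (a.1 + v, a.2),
    fun q => ω.2.2.1 (q + v), fun q => ω.2.2.2 (q + v))

/-- number of lines met in `W` -/
def lim_nc (W : Finset Cell) (ω : lim_X0) : ℕ :=
  #({a ∈ W ×ˢ (univ : Finset (Fin 3)) | ω.1 a a}.image
    fun a => {b ∈ W ×ˢ (univ : Finset (Fin 3)) | ω.1 a b})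

variable {k : ℕ} {ω : lim_X0}

theorem lim_s_sh (v : Cell) (ω : lim_X0) (a : lim_Sl) : lim_s (lim_sh v ω) a =
    lim_s ω (a.1 + v, a.2) + ω.2.1 (a.1 + v, a.2) * v.1 - v.2 := by
  simp only [lim_s, lim_sh, Prod.fst_add, Prod.snd_add]
  push_cast
  ring

theorem lim_V.sh (h : lim_V k ω) (v : Cell) : lim_V k (lim_sh v ω) where
  symm _ _ := h.symm _ _
  trans _ _ _ := h.trans _ _ _
  occ _ _ := h.occ _ _
  eq a b r := ⟨(h.eq _ _ r).1, by rw [lim_s_sh, lim_s_sh, (h.eq _ _ r).1, (h.eq _ _ r).2]⟩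
  sep _ := h.sep _
  bx _ := h.bx _
  b1 _ := h.b1 _
  b2 _ := h.b2 _
  far q q' a b c := by simpa using h.far _ _ a b fun e => c (add_right_cancel e)
  lin q q' i j a b c := add_right_cancel (h.lin _ _ i j a b c)
  poor S W a b := by
    rw [← card_image_of_injective W (add_left_injective v)]
    refine h.poor (fun i => (S i).image fun b => (b.1 + v, b.2)) _ (fun q hq i => ?_)
      fun i => card_image_le.trans (b i)
    obtain ⟨q, c, rfl⟩ := mem_image.1 hq
    obtain ⟨b, d, e⟩ := a q c i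
    exact ⟨_, mem_image_of_mem _ d, e⟩

theorem lim_sh_cont (v : Cell) : Continuous (lim_sh v) := by
  unfold lim_sh
  fun_prop

theorem lim_sh_add (u v : Cell) (ω : lim_X0) : lim_sh u (lim_sh v ω) = lim_sh (u + v) ω := by
  simp only [lim_sh, add_assoc]

theorem lim_ev (ω : lim_X0) (a b : lim_Sl) : ∀ᶠ ω' in 𝓝 ω, ω'.1 a b = ω.1 a b :=
  ((isOpen_discrete {ω.1 a b}).preimage (f := fun ω : lim_X0 => ω.1 a b)
    (by fun_prop)).mem_nhds rfl

theorem lim_compact (k : ℕ) : IsCompact {ω | lim_V k ω} := by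
  have o : ∀ a b, IsOpen {ω : lim_X0 | ω.1 a b} := fun a b =>
    (isOpen_discrete {true}).preimage (f := fun ω : lim_X0 => ω.1 a b) (by fun_prop)
  have c : ∀ a b, IsClosed {ω : lim_X0 | ω.1 a b} := fun a b =>
    (isClosed_discrete {true}).preimage (f := fun ω : lim_X0 => ω.1 a b) (by fun_prop)
  have cs : ∀ a, Continuous fun ω => lim_s ω a := fun a => by
    unfold lim_s
    fun_prop
  refine (isCompact_univ.prod ((isCompact_univ_pi fun _ => isCompact_Icc (a := -2) (b := 2)).prod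
    ((isCompact_univ_pi fun _ => isCompact_Icc (a := 0) (b := 1)).prod
      (isCompact_univ_pi fun _ => isCompact_Icc (a := 0) (b := 1))))).of_isClosed_subset
    (isClosed_of_closure_subset fun ω h => ?_)
    fun ω h => ⟨trivial, fun a _ => h.bx a, fun a _ => h.b1 a, fun a _ => h.b2 a⟩
  have key : ∀ P : lim_X0 → Prop, IsClosed {ω | P ω} → (∀ ω, lim_V k ω → P ω) → P ω :=
    fun P a b => closure_minimal b a h
  refine ⟨fun a b => key _ (isClosed_imp (o _ _) (c _ _)) fun _ v => v.symm a b,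
    fun a b d => key _ (isClosed_imp (o _ _) (isClosed_imp (o _ _) (c _ _)))
      fun _ v => v.trans a b d,
    fun q i => key _ (isClosed_imp (o _ _) (c _ _)) fun _ v => v.occ q i,
    fun a b => key _ (isClosed_imp (o _ _) ((isClosed_eq (by fun_prop) (by fun_prop)).inter
      (isClosed_eq (cs _) (cs _)))) fun _ v => v.eq a b,
    fun a => key _ (isClosed_imp (o _ _) (isClosed_le (by fun_prop) continuous_const))
      fun _ v => v.sep a,
    fun a => key _ (isClosed_Icc.preimage (by fun_prop)) fun _ v => v.bx a,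
    fun a => key _ (isClosed_Icc.preimage (by fun_prop)) fun _ v => v.b1 a,
    fun a => key _ (isClosed_Icc.preimage (by fun_prop)) fun _ v => v.b2 a,
    fun q q' => key _ (isClosed_imp (o _ _) (isClosed_imp (o _ _) isClosed_const))
      fun _ v => v.far q q',
    fun q q' i j => key _ (isClosed_imp (o _ _) (isClosed_imp (o _ _) isClosed_const))
      fun _ v => v.lin q q' i j,
    fun S W => key _ (isClosed_imp (isOpen_iff_mem_nhds.2 fun ω' a => ?_) isClosed_const)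
      fun _ v => v.poor S W⟩
  refine (eventually_all_finset W).2 fun q hq => eventually_all.2 fun i => ?_
  obtain ⟨b, d, e⟩ := a q hq i
  exact (lim_ev ω' (q, i) b).mono fun _ f => ⟨b, d, f.trans e⟩

theorem lim_nc_cont (W : Finset Cell) : Continuous fun ω => (lim_nc W ω : ℝ) := by
  refine continuous_iff_continuousAt.2 fun ω => continuousAt_const.congr (f := fun _ =>
    (lim_nc W ω : ℝ)) ?_
  filter_upwards [(eventually_all_finset (W ×ˢ (univ : Finset (Fin 3)))).2 fun a _ =>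
    (eventually_all_finset (W ×ˢ (univ : Finset (Fin 3)))).2 fun b _ => lim_ev ω a b] with ω' h
  unfold lim_nc
  rw [filter_congr (q := fun a => ω'.1 a a) fun a k => by rw [h a k a k]]
  congr 2
  exact image_congr fun a k => filter_congr fun b k' => by rw [h a (mem_filter.1 k).1 b k']

theorem lim_image {α β γ : Type} [DecidableEq β] [DecidableEq γ] (s : Finset α) (f : α → β)
    (g : α → γ) (h : ∀ a ∈ s, ∀ b ∈ s, g a = g b → f a = f b) : #(s.image f) ≤ #(s.image g) := by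
  rcases s.eq_empty_or_nonempty with rfl | ⟨a0, -⟩
  · simp
  have : Nonempty α := ⟨a0⟩
  refine le_trans (card_le_card fun y hy => ?_)
    (card_image_le (f := fun z => f (Function.invFunOn g s z)))
  obtain ⟨a, ha, rfl⟩ := mem_image.1 hy
  have := Function.invFunOn_pos (f := g) (s := s) ⟨a, ha, rfl⟩
  exact mem_image.2 ⟨g a, mem_image_of_mem _ ha, h _ this.1 _ ha this.2⟩

theorem lim_ind {α : Type} (S : Finset α) (P : α → Prop) : ∑ p ∈ S, ind (P p) = cnt S P := by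
  simp [ind, cnt]

theorem lim_le_cnt {α β : Type} {S : Finset α} {P : α → Prop} {T : Finset β} (f : β → α)
    (h : ∀ t ∈ T, f t ∈ S ∧ P (f t)) (hi : Set.InjOn f T) : (#T : ℝ) ≤ cnt S P :=
  Nat.cast_le.2 (card_le_card_of_injOn f (fun t a => mem_coe.2 (mem_filter.2 (h t a))) hi)

theorem lim_cnt_le {α β : Type} {S : Finset α} {P : α → Prop} {T : Finset β} (f : α → β)
    (h : ∀ a ∈ S, P a → f a ∈ T) (hi : Set.InjOn f {a | P a}) : cnt S P ≤ #T :=
  Nat.cast_le.2 (card_le_card_of_injOn f (fun a k => h a (mem_filter.1 k).1 (mem_filter.1 k).2)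
    (hi.mono fun _ k => (mem_filter.1 k).2))

theorem lim_cnt_or {α : Type} {S : Finset α} {P P1 P2 : α → Prop}
    (h : ∀ a ∈ S, P a → P1 a ∨ P2 a) : cnt S P ≤ cnt S P1 + cnt S P2 := by
  simp only [← lim_ind, ← sum_add_distrib, ind]
  refine sum_le_sum fun a k => ?_
  have := h a k
  split_ifs <;> first | (norm_num; done) | tauto

/-- cells near a line -/
theorem lim_near (j R : ℕ) (c : ℤ → ℝ) :
    #{p ∈ (Bx.mk j 0 0).cells | |c p.1 - p.2| ≤ R} ≤ 2 ^ j * (2 * R + 1) := by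
  have h2 : ((2 : ℤ) ^ j).toNat = 2 ^ j := by exact_mod_cast Int.toNat_natCast (2 ^ j)
  have h3 : ((R : ℤ) + 1 - -R).toNat = 2 * R + 1 := by omega
  refine (card_le_card_of_injOn (t := Ico (0 : ℤ) (2 ^ j) ×ˢ Icc (-R : ℤ) R)
    (fun p => (p.1, p.2 - ⌊c p.1⌋)) (fun p hp => ?_) fun p _ q _ e => ?_).trans_eq
    (by rw [card_product, Int.card_Ico, Int.card_Icc, sub_zero, h2, h3])
  · simp only [coe_filter, Set.mem_ofPred_eq, lim_mem, abs_le] at hp
    simp only [coe_product, coe_Ico, coe_Icc, Set.mem_prod, Set.mem_Ico, Set.mem_Icc]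
    have a1 := Int.floor_le (c p.1)
    have a2 := Int.lt_floor_add_one (c p.1)
    have a3 : ((-R : ℤ) : ℝ) ≤ (p.2 - ⌊c p.1⌋ : ℤ) := by push_cast; linarith [hp.2.2]
    have a4 : ((p.2 - ⌊c p.1⌋ : ℤ) : ℝ) < (R + 1 : ℤ) := by push_cast; linarith [hp.2.1]
    exact ⟨hp.1.1, Int.cast_le.1 a3, Int.lt_add_one_iff.1 (Int.cast_lt.1 a4)⟩
  · obtain ⟨e1, e2⟩ := Prod.ext_iff.1 e
    simp only at e1 e2
    rw [e1] at e2
    exact Prod.ext e1 (sub_left_injective e2)

/-- the configuration of an arrangement -/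
theorem lim_cfg {ι : Type} {B : Arr ι} (hB : B.Ok) (hp : ¬ Rich k B.T) {j : ℕ} {C δ : ℝ}
    (hδ : 0 < δ) (hb : Boxed B j C δ) : ∃ ω, lim_V k ω ∧
      δ ≤ (Bx.mk j 0 0).avg (fun p => ind ((lim_sh p ω).1 (0, 0) (0, 0))) ∧
      ∀ n, (Bx.mk j 0 0).avg (fun p => lim_nc (Bx.mk n 0 0).cells (lim_sh p ω) / 2 ^ n) ≤
        7 * C := by
  obtain ⟨t0, -⟩ : B.T.Nonempty :=
    card_pos.1 (Nat.cast_pos.1 (lt_of_lt_of_le (by positivity) hb.dens))
  have : Nonempty (Tri ι) := ⟨t0⟩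
  have inj : Set.InjOn B.loc B.T := fun t a u b e => by_contra fun h => by
    simpa [e] using hB.far t a u b h
  let tr := Function.invFunOn B.loc B.T
  let O : Cell → Prop := fun q => tr q ∈ B.T ∧ B.loc (tr q) = q
  have hO : ∀ t ∈ B.T, O (B.loc t) := fun t a => Function.invFunOn_pos ⟨t, a, rfl⟩
  choose! X Y hX using hB.vtx
  have hx : ∀ t ∈ B.T, ∀ i, |B.x (t i)| ≤ 11 / 10 := fun t a i => by
    have := abs_le.1 (hB.sep t a i)
    have h1 : ((i : ℕ) : ℝ) ≤ 2 := by exact_mod_cast Nat.le_of_lt_succ i.2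
    have h2 : (0 : ℝ) ≤ (i : ℕ) := Nat.cast_nonneg _
    exact abs_le.2 ⟨by linarith, by linarith⟩
  let ω : lim_X0 := (fun a b => decide (O a.1 ∧ O b.1 ∧ tr a.1 a.2 = tr b.1 b.2),
    fun a => if O a.1 then B.x (tr a.1 a.2) else 0, fun q => if O q then X (tr q) - q.1 else 0,
    fun q => if O q then Y (tr q) - q.2 else 0)
  have r : ∀ a b, ω.1 a b ↔ O a.1 ∧ O b.1 ∧ tr a.1 a.2 = tr b.1 b.2 := fun a b => decide_eq_true_iff
  have hs : ∀ a : lim_Sl, O a.1 → lim_s ω a = B.s (tr a.1 a.2) := fun a h => by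
    simp only [lim_s, ω, if_pos h, (hX _ h.1).1 a.2]
    ring
  refine ⟨ω, ⟨?_, ?_, ?_, fun a b e => ?_, fun a e => ?_, fun a => ?_, fun q => ?_, fun q => ?_,
    fun q q' a b e => ?_, fun q q' i j a b e => ?_, fun S W a b => ?_⟩, ?_, fun n => ?_⟩
  · simp only [r]
    exact fun a b h => ⟨h.2.1, h.1, h.2.2.symm⟩
  · simp only [r]
    exact fun a b c h h' => ⟨h.1, h'.2.1, h.2.2.trans h'.2.2⟩
  · simp only [r]
    exact fun q i h => ⟨h.1, h.1, trivial⟩
  · obtain ⟨e1, e2, e3⟩ := (r _ _).1 e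
    simp only [hs _ e1, hs _ e2, ω, if_pos e1, if_pos e2, e3, and_self]
  · have := ((r _ _).1 e).1
    simp only [ω, if_pos this]
    exact hB.sep _ this.1 _
  · simp only [ω]
    split_ifs with h
    · exact abs_le.1 ((hx _ h.1 _).trans (by norm_num))
    · norm_num
  · simp only [ω]
    split_ifs with h
    · have := hX _ h.1
      rw [h.2] at this
      exact ⟨by linarith, by linarith⟩
    · norm_num
  · simp only [ω]
    split_ifs with h
    · have := hX _ h.1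
      rw [h.2] at this
      exact ⟨by linarith, by linarith⟩
    · norm_num
  · have a := ((r _ _).1 a).1
    have b := ((r _ _).1 b).1
    have := hB.far _ a.1 _ b.1 fun h => e (a.2.symm.trans (h ▸ b.2))
    rwa [a.2, b.2] at this
  · obtain ⟨a1, a2, a3⟩ := (r _ _).1 a
    exact a1.2.symm.trans (hB.lin _ a1.1 _ a2.1 i j e a3 ((r _ _).1 b).2.2 ▸ a2.2)
  · refine lt_of_not_ge fun h => hp ⟨fun i => (S i).image fun b => tr b.1 b.2,
      fun i => card_image_le.trans (b i), h.trans (card_le_card_of_injOn tr (fun q hq => ?_)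
        fun q hq q' hq' e => ?_)⟩
    · obtain ⟨_, -, c⟩ := a q hq 0
      refine mem_coe.2 (mem_filter.2 ⟨((r _ _).1 c).1.1, fun i => ?_⟩)
      obtain ⟨b, d, c⟩ := a q hq i
      exact mem_image.2 ⟨b, d, ((r _ _).1 c).2.2.symm⟩
    · obtain ⟨_, -, c⟩ := a q hq 0
      obtain ⟨_, -, c'⟩ := a q' hq' 0
      exact ((r _ _).1 c).1.2.symm.trans (e ▸ ((r _ _).1 c').1.2)
  · rw [Bx.avg, le_div_iff₀ (by positivity)]
    refine hb.dens.trans ?_
    rw [lim_ind]
    refine lim_le_cnt B.loc (fun t a => ⟨hb.inb t a, ?_⟩) inj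
    simp only [lim_sh, zero_add, r]
    exact ⟨hO t a, hO t a, trivial⟩
  · have h1 : ∀ p : Cell, lim_nc (Bx.mk n 0 0).cells (lim_sh p ω) ≤
        #{l ∈ lines B.T | |B.s l + B.x l * p.1 - p.2| ≤ (3 * 2 ^ n : ℕ)} := fun p => by
      refine (lim_image _ _ (fun a => tr (a.1 + p) a.2) fun a ha b hb e =>
        filter_congr fun c _ => ?_).trans (card_le_card fun l hl => ?_)
      · simp only [lim_sh, r, e, ((r _ _).1 (mem_filter.1 ha).2).1,
          ((r _ _).1 (mem_filter.1 hb).2).1]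
      · obtain ⟨a, ha, rfl⟩ := mem_image.1 hl
        have b1 := ((r _ _).1 (mem_filter.1 ha).2).1
        have b2 := lim_mem.1 (mem_product.1 (mem_filter.1 ha).1).1
        refine mem_filter.2 ⟨lim_lines.2 ⟨_, b1.1, _, rfl⟩, ?_⟩
        obtain ⟨c0, c1, c2, c3, c4⟩ := hX _ b1.1
        have c5 := c0 a.2
        have c6 := abs_le.1 (hx _ b1.1 a.2)
        simp only [b1.2, Prod.fst_add, Prod.snd_add] at c1 c2 c3 c4 c5 c6
        have d1 : (0 : ℝ) ≤ a.1.1 := by exact_mod_cast b2.1.1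
        have d2 : (a.1.1 : ℝ) + 1 ≤ 2 ^ n := by exact_mod_cast b2.1.2
        have d3 : (0 : ℝ) ≤ a.1.2 := by exact_mod_cast b2.2.1
        have d4 : (a.1.2 : ℝ) + 1 ≤ 2 ^ n := by exact_mod_cast b2.2.2
        push_cast at c1 c2 c3 c4 ⊢
        exact abs_le.2 ⟨by nlinarith, by nlinarith⟩
    have h2 : ∑ p ∈ (Bx.mk j 0 0).cells, lim_nc (Bx.mk n 0 0).cells (lim_sh p ω) ≤
        #(lines B.T) * (2 ^ j * (2 * (3 * 2 ^ n) + 1)) := by
      refine (sum_le_sum fun p _ => h1 p).trans ?_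
      simp only [card_filter]
      rw [sum_comm]
      refine sum_le_card_nsmul _ _ _ fun l _ => ?_
      rw [← card_filter]
      exact lim_near j _ fun u => B.s l + B.x l * u
    have h3 : (4 : ℝ) ^ j = 2 ^ j * 2 ^ j := by rw [← mul_pow]; norm_num
    have h4 : (1 : ℝ) ≤ 2 ^ n := one_le_pow₀ one_le_two
    have h5 : 0 ≤ C * 2 ^ j := (Nat.cast_nonneg _).trans hb.few
    rw [Bx.avg, ← sum_div, div_div, div_le_iff₀ (by positivity), h3]
    refine (show _ ≤ (#(lines B.T) : ℝ) * (2 ^ j * (2 * (3 * 2 ^ n) + 1)) by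
      exact_mod_cast h2).trans ((mul_le_mul hb.few (show _ ≤ (2 : ℝ) ^ j * (7 * 2 ^ n) by
        gcongr; linarith) (by positivity) h5).trans_eq (by ring))

/-- the arrangement of a configuration -/
theorem lim_arr (h : lim_V k ω) (W : Finset Cell) : ∃ (A : Arr ℕ) (e : lim_Sl → ℕ),
    (∀ t, t ∈ A.T ↔ ∃ q ∈ W, ω.1 (q, 0) (q, 0) ∧ (fun i => e (q, i)) = t) ∧
    (∀ q, ω.1 (q, 0) (q, 0) → A.loc (fun i => e (q, i)) = q) ∧
    (∀ a, ω.1 a a → A.x (e a) = ω.2.1 a ∧ A.s (e a) = lim_s ω a) ∧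
    A.Ok ∧ ¬ Rich k A.T ∧ #(lines A.T) ≤ lim_nc W ω := by
  let d : ℕ → lim_Sl := Function.invFun Encodable.encode
  let e : lim_Sl → ℕ := fun a => Encodable.encode (epsilon fun b => ω.1 a b)
  have h1 : ∀ a, ω.1 a a → ω.1 a (d (e a)) := fun a r => by
    simp only [d, e, Function.leftInverse_invFun Encodable.encode_injective _]
    exact epsilon_spec (p := fun b => ω.1 a b) ⟨a, r⟩
  have h2 : ∀ a b, ω.1 a a → ω.1 b b → e a = e b → ω.1 a b := fun a b r r' u =>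
    h.trans _ _ _ (h1 a r) (h.symm _ _ (u ▸ h1 b r'))
  have h3 : ∀ a b, ω.1 a b → e a = e b := fun a b r => by
    have : (fun c => ω.1 a c = true) = fun c => ω.1 b c = true := funext fun c => propext
      ⟨h.trans _ _ _ (h.symm _ _ r), h.trans _ _ _ r⟩
    simp only [e, this]
  let tq : Cell → Tri ℕ := fun q i => e (q, i)
  have h4 : ∀ q q' i j, ω.1 (q, 0) (q, 0) → ω.1 (q', 0) (q', 0) → i ≠ j → tq q i = tq q' i →
      tq q j = tq q' j → q = q' := fun q q' i j a b c u v =>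
    h.lin q q' i j (h2 _ _ (h.occ _ _ a) (h.occ _ _ b) u) (h2 _ _ (h.occ _ _ a) (h.occ _ _ b) v) c
  let A : Arr ℕ := ⟨{q ∈ W | ω.1 (q, 0) (q, 0)}.image tq, fun m => ω.2.1 (d m),
    fun m => lim_s ω (d m), Function.invFunOn tq {q | ω.1 (q, 0) (q, 0)}⟩
  have a1 : ∀ t, t ∈ A.T ↔ ∃ q ∈ W, ω.1 (q, 0) (q, 0) ∧ tq q = t := fun t => by
    simp only [A, mem_image, mem_filter, and_assoc]
  have a2 : ∀ q, ω.1 (q, 0) (q, 0) → A.loc (tq q) = q := fun q a =>
    Set.InjOn.leftInvOn_invFunOn (fun q a q' b u => h4 q q' 0 1 a b (by decide) (congrFun u _)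
      (congrFun u _)) a
  have a3 : ∀ a, ω.1 a a → A.x (e a) = ω.2.1 a ∧ A.s (e a) = lim_s ω a := fun a r =>
    ⟨(h.eq _ _ (h1 a r)).1.symm, (h.eq _ _ (h1 a r)).2.symm⟩
  refine ⟨A, e, a1, a2, a3, ⟨fun t ht u hu i j c x y => ?_, fun t ht i => ?_, fun t ht => ?_,
    fun t ht u hu c => ?_⟩, fun ⟨S, b, c⟩ => ?_, ?_⟩
  · obtain ⟨q, -, a, rfl⟩ := (a1 t).1 ht
    obtain ⟨q', -, b, rfl⟩ := (a1 u).1 hu
    rw [h4 q q' i j a b c x y]
  · obtain ⟨q, -, a, rfl⟩ := (a1 t).1 ht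
    rw [(a3 _ (h.occ q i a)).1]
    exact h.sep _ (h.occ q i a)
  · obtain ⟨q, -, a, rfl⟩ := (a1 t).1 ht
    refine ⟨q.1 + ω.2.2.1 q, q.2 + ω.2.2.2 q, fun i => ?_, ?_⟩
    · rw [(a3 _ (h.occ q i a)).1, (a3 _ (h.occ q i a)).2, lim_s]
      ring
    · rw [a2 q a]
      exact ⟨by linarith [(h.b1 q).1], by linarith [(h.b1 q).2], by linarith [(h.b2 q).1],
        by linarith [(h.b2 q).2]⟩
  · obtain ⟨q, -, a, rfl⟩ := (a1 t).1 ht
    obtain ⟨q', -, b, rfl⟩ := (a1 u).1 hu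
    rw [a2 q a, a2 q' b]
    exact h.far q q' a b fun r => c (r ▸ rfl)
  · refine (h.poor (fun i => (S i).image d) {q ∈ W | ω.1 (q, 0) (q, 0) ∧ ∀ i, tq q i ∈ S i}
      (fun q hq i => ⟨_, mem_image_of_mem _ ((mem_filter.1 hq).2.2 i),
        h1 _ (h.occ q i (mem_filter.1 hq).2.1)⟩) fun i => card_image_le.trans (b i)).not_ge
      (c.trans ((card_le_card fun t ht => ?_).trans (card_image_le (f := tq))))
    simp only [mem_filter] at ht
    obtain ⟨q, x, a, rfl⟩ := (a1 t).1 ht.1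
    exact mem_image_of_mem _ (mem_filter.2 ⟨x, a, ht.2⟩)
  · refine le_trans (card_le_card fun l hl => ?_) (lim_image _ e _ fun a ha b hb u => ?_)
    · obtain ⟨t, ht, i, rfl⟩ := lim_lines.1 hl
      obtain ⟨q, x, a, rfl⟩ := (a1 t).1 ht
      exact mem_image.2 ⟨(q, i), mem_filter.2 ⟨mem_product.2 ⟨x, mem_univ _⟩, h.occ q i a⟩, rfl⟩
    · exact h3 _ _ (mem_filter.1 (u.ge (mem_filter.2 (mem_filter.1 hb)))).2

end

end Pool.Agent.MP_38296a_co.H21

end FileLim3

section FileLim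

set_option autoImplicit false

namespace Pool.Agent.MP_38296a_co.H21

open Finset Filter Classical

theorem lim_tight {Q : ℕ → Bx} {P P' : ℕ → ℕ → Cell → Prop} (h : Tight Q P)
    (e : ∀ n c p, P n c p → P' n c p) : Tight Q P' := fun θ hθ =>
  let ⟨c, hc⟩ := h θ hθ
  ⟨c, hc.mono fun n k => le_trans (div_le_div_of_nonneg_right ((lim_cnt_or (P2 := fun _ => False)
    fun p _ b => .inl fun r => b (e n c p r)).trans_eq (by simp [cnt])) (by positivity)) k⟩

/-- passage to the limit -/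
theorem p2 (k : ℕ) {ι : Type} (B : ℕ → Arr ι) (j : ℕ → ℕ) {C δ : ℝ} (hδ : 0 < δ)
    (h : ∀ a, (B a).Ok ∧ Boxed (B a) (j a) C δ ∧ a ≤ j a ∧ ¬ Rich k (B a).T) :
    ∃ (A : ℕ → Arr ℕ) (Q : ℕ → Bx), UG k A Q ∧ LocHof A Q := by
  choose w hw h1 h2 using fun a => lim_cfg (h a).1 (h a).2.2.2 hδ (h a).2.1
  let X : Type := {ω | lim_V k ω}
  have : CompactSpace X := isCompact_iff_compactSpace.1 (lim_compact k)
  let _ : MeasurableSpace X := borel X
  have : BorelSpace X := ⟨rfl⟩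
  let τ : Cell → X → X := fun v ω => ⟨lim_sh v ω.1, lim_V.sh ω.2 v⟩
  let sq : ℕ → Finset Cell := fun r => Icc (-r : ℤ) r ×ˢ Icc (-r : ℤ) r
  obtain ⟨S, hS⟩ := lim_loc
  have cs : ∀ a, Continuous fun ω : X => lim_s ω.1 a := fun a => by
    unfold lim_s
    fun_prop
  choose Y hY hYP using fun m : ℕ => lim_MB.all fun O : (sq m).powerset =>
    lim_MB.all fun N : Fin (m + 1) => hS (Ω := X) (ι := O.1 × Fin 3)
      (x0 := fun ω a => ω.1.2.1 (a.1, a.2)) (s0 := fun ω a => lim_s ω.1 (a.1, a.2))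
      (Continuous.measurable (by fun_prop)) (continuous_pi fun a => cs _).measurable
      (univ.image fun q i => (q, i)) N
  obtain ⟨ω, c, K, H⟩ := lim_sel τ
    (fun v => ((lim_sh_cont v).comp continuous_subtype_val).subtype_mk _)
    (fun u v ω => Subtype.ext (lim_sh_add u v ω.1)) (fun a => ⟨w a, hw a⟩) j (fun a => (h a).2.2.1)
    (f := fun ω => ind (ω.1.1 (0, 0) (0, 0)))
    ((continuous_of_discreteTopology (f := fun b : Bool => ind b)).comp (by fun_prop))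
    (fun ω => by unfold ind; split_ifs <;> norm_num) hδ h1
    (g := fun n ω => lim_nc (Bx.mk n 0 0).cells ω.1 / 2 ^ n)
    (fun n => ((lim_nc_cont _).comp continuous_subtype_val).div_const _)
    (fun _ _ => by positivity) h2 Y hY
  choose A e a1 a2 a3 a4 a5 a6 using fun n => lim_arr (ω n).2 (Bx.mk n 0 0).cells
  have main : ∀ N r, Tight (fun n => Bx.mk n 0 0) fun n c p =>
      lim_Loc S N (A n).x (A n).s ((A n).TS p r) c := by
    intro N r θ hθ
    obtain ⟨m0, hm0⟩ := exists_nat_one_div_lt (half_pos hθ)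
    set m := max m0 (max N r)
    have hN : N < m + 1 := by omega
    have hr : r ≤ m := by omega
    have hm : 1 / ((m : ℝ) + 1) ≤ θ / 2 := le_trans (by gcongr; omega) hm0.le
    refine ⟨c m, Eventually.filter_mono Nat.hyperfilter_le_atTop ?_⟩
    filter_upwards [eventually_gt_atTop m,
      (lim_small (4 * r) fun a => le_refl a).eventually_le_const (half_pos hθ)] with n b1 b2
    have b3 := ((H n).2.2 m b1).trans hm
    have b4 : (4 : ℝ) ^ n = 2 ^ n * 2 ^ n := by rw [← mul_pow]; norm_num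
    have b5 := div_le_div_of_nonneg_right (lim_bad n r) (by positivity : (0 : ℝ) ≤ 4 ^ n)
    rw [b4, mul_div_mul_right _ _ (by positivity), ← b4] at b5
    refine le_trans (div_le_div_of_nonneg_right (lim_cnt_or fun p _ hp => ?_) (by positivity))
      ((add_div _ _ _).trans_le ((add_le_add (b5.trans b2) b3).trans_eq (add_halves θ)))
    refine or_iff_not_imp_left.2 fun g => lt_of_not_ge fun l => hp ?_
    rw [not_not] at g
    let O : Finset Cell := {q ∈ sq r | (ω n).1.1 (q + p, 0) (q + p, 0)}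
    have hO : ∀ q, q ∈ O ↔ (|q.1| ≤ r ∧ |q.2| ≤ r) ∧ (ω n).1.1 (q + p, 0) (q + p, 0) := fun q => by
      simp only [O, sq, mem_filter, mem_product, mem_Icc, abs_le]
    have o := fun a : O × Fin 3 => a3 n _ (lim_V.occ (ω n).2 _ a.2 ((hO _).1 a.1.2).2)
    refine hYP m _ _ l ⟨O, mem_powerset.2 fun q hq => ?_⟩ ⟨N, hN⟩ ℕ
      (fun a => e n (a.1 + p, a.2)) _ _ p.1 p.2 _ (funext fun a => (o a).1.symm)
      (funext fun a => ?_) fun t => ?_
    · have := ((hO q).1 hq).1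
      simp only [sq, mem_product, mem_Icc, abs_le] at this ⊢
      omega
    · simp only [Function.comp, (o a).1, (o a).2]
      exact lim_s_sh ..
    · simp only [Arr.TS, mem_filter, a1, mem_image, mem_univ, true_and, exists_exists_eq_and]
      constructor
      · rintro ⟨⟨q, -, d, rfl⟩, f⟩
        rw [a2 n q d] at f
        refine ⟨⟨q - p, (hO _).2 ⟨f, by rwa [sub_add_cancel]⟩⟩, funext fun i => ?_⟩
        simp only [Function.comp, sub_add_cancel]
      · rintro ⟨q, rfl⟩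
        obtain ⟨d, f⟩ := (hO _).1 q.2
        refine ⟨⟨_, g q d.1 d.2, f, rfl⟩, ?_⟩
        rw [show (fun a : O × Fin 3 => e n (a.1 + p, a.2)) ∘ (fun i => (q, i)) =
          fun i => e n (q + p, i) from rfl, a2 n _ f]
        simpa using d
  refine ⟨A, fun n => ⟨n, 0, 0⟩, ⟨⟨a4, Nat.hyperfilter_le_atTop, K, .of_forall fun n => ?_⟩,
    ⟨δ / 2, half_pos hδ, .of_forall fun n => ?_⟩, a5,
    fun r => lim_tight (main 0 r) fun _ _ _ a => a.2.1,
    S, fun r L => lim_tight (main L r) fun _ _ _ a => a.2.2⟩,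
    fun N r => lim_tight (main N r) fun _ _ _ a => a.1⟩
  · exact (lim_cnt_le id (fun _ a _ => a) (Set.injOn_id _)).trans ((Nat.cast_le.2 (a6 n)).trans
      ((div_le_iff₀ (by positivity)).1 (H n).2.1))
  · have := (H n).1
    rw [Bx.avg, le_div_iff₀ (by positivity), lim_ind] at this
    simp only [τ, lim_sh, zero_add] at this
    refine this.trans (lim_cnt_le (fun q i => e n (q, i)) (fun q a b => mem_filter.2
      ⟨(a1 n _).2 ⟨q, a, b, rfl⟩, by rwa [a2 n q b]⟩) fun q a q' b u => ?_)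
    exact (a2 n q a).symm.trans ((congrArg _ u).trans (a2 n q' b))

end Pool.Agent.MP_38296a_co.H21

end FileLim
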