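import Pool.Agent.MP_38296a_co.H21.Core

section FileUR0

/-!
Definitions for the module on the uniform range of scales. The plane carries the sup metric.
-/

set_option autoImplicit false

namespace Pool.Agent.MP_38296a_co.H21.URn

open Finset Filter Classical

noncomputable section

abbrev Pt : Type := ℝ × ℝ

/-- clamp to the unit interval -/
def clp (x : ℝ) : ℝ := max 0 (min 1 x)

/-- equal to one up to distance `r` from `z`, zero from distance `2 r` on -/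
def bump (z : Pt) (r : ℝ) (p : Pt) : ℝ := clp (2 - dist p z / r)

/-- indicator of a closed square -/
def sqi (z : Pt) (r : ℝ) (p : Pt) : ℝ := ind (dist p z ≤ r)

/-- weights of the three classes -/
def Wt (v : Fin 3 → ℝ) : Prop := (∀ i, 0 < v i) ∧ v 0 * v 1 * v 2 = 1

/-- local scale -/
def Rad (ρ : Pt → ℝ) : Prop := (∀ p, 0 < ρ p) ∧ ∀ p q, ρ p ≤ ρ q + dist p q

/-- test function which varies slowly at the scale `ρ` -/
def Adm (ρ Φ : Pt → ℝ) : Prop :=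
  (∀ p, 0 ≤ Φ p ∧ Φ p ≤ 1) ∧ ∀ p q, ρ p * |Φ p - Φ q| ≤ dist p q

section Fam
variable {ι : Type} (F : Fam ι)

/-- crossing point of two lines -/
def cr (a b : ι) : Pt :=
  ((F.s b - F.s a) / (F.x a - F.x b), F.s a + F.x a * ((F.s b - F.s a) / (F.x a - F.x b)))

/-- vertex of a triple -/
def vt (t : Tri ι) : Pt := cr F (t 0) (t 1)

/-- height of a line above a point -/
def hgt (z : Pt) (a : ι) : ℝ := F.s a + F.x a * z.1 - z.2

/-- weighted sum over the crossing points of two classes -/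
def mu (v : Fin 3 → ℝ) (i j : Fin 3) (Φ : Pt → ℝ) : ℝ :=
  v i * v j * ∑ a ∈ cl F.T i, ∑ b ∈ cl F.T j, Φ (cr F a b)

def LL (v : Fin 3 → ℝ) (Φ : Pt → ℝ) : ℝ := (mu F v 0 1 Φ + mu F v 1 2 Φ + mu F v 2 0 Φ) / 3

/-- sum over vertices -/
def TT (S : Finset (Tri ι)) (Φ : Pt → ℝ) : ℝ := ∑ t ∈ S, Φ (vt F t)

/-- weighted number of lines of the class `i` with a property -/
def wc (v : Fin 3 → ℝ) (i : Fin 3) (Q : ι → Prop) : ℝ := v i * cnt (cl F.T i) Q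

/-- weighted number of lines with height at most `r` in absolute value -/
def nl (v : Fin 3 → ℝ) (i : Fin 3) (z : Pt) (r : ℝ) : ℝ := wc F v i fun a => |hgt F z a| ≤ r

/-- the vertices are covered by at most `W` balls of the local size -/
def Cov (ρ : Pt → ℝ) (S : Finset (Tri ι)) (W : ℝ) : Prop :=
  ∃ Y : Finset Pt, (#Y : ℝ) ≤ W ∧ ∀ t ∈ S, ∃ y ∈ Y, 3 * dist (vt F t) y ≤ ρ (vt F t)

/-- upper bound for the density of vertices -/
def UB (P κ K : ℝ) : Prop :=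
  ∀ v, Wt v → ∀ (ρ Φ : Pt → ℝ) (S : Finset (Tri ι)) (W : ℝ), Rad ρ → Adm ρ Φ → S ⊆ F.T →
    Cov F ρ S W → TT F S Φ ≤ (1 + κ) * P * LL F v Φ + κ * #S + K * W

/-- nearly extremal -/
def NE (v : Fin 3 → ℝ) (P τ : ℝ) (z : Pt) (r : ℝ) : Prop :=
  (1 - τ) * P * LL F v (bump z r) ≤ TT F F.T (bump z r)

/-- doubling -/
def Dbl (v : Fin 3 → ℝ) (a : ℝ) (z : Pt) (r : ℝ) : Prop :=
  a * LL F v (sqi z (4 * r)) ≤ LL F v (sqi z (r / 10 ^ 4))

/-- the lines are uniformly distributed -/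
def Unif (v : Fin 3 → ℝ) (t : ℝ) (z : Pt) (r : ℝ) : Prop :=
  ∃ d : ℝ, 0 < d ∧ ∀ (i : Fin 3) (α β : ℝ), -(r / 400) ≤ α → β ≤ r / 400 → t * r ≤ β - α →
    d * (β - α) ≤ wc F v i (fun a => α ≤ hgt F z a ∧ hgt F z a ≤ β) ∧
    wc F v i (fun a => α ≤ hgt F z a ∧ hgt F z a ≤ β) ≤ 8 * d * (β - α)

/-- the same triples in the coordinates `u⁻¹ • (p - w)` -/
def sim (w : Pt) (u : ℝ) : Fam ι := ⟨F.T, F.x, fun a => hgt F w a / u⟩

end Fam

/-- indicator of a union of cells of the grid of mesh `s` -/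
def box (s : ℝ) (n : ℤ × ℤ) (lo hi : ℤ) (p : Pt) : ℝ :=
  ind (n.1 + lo ≤ ⌊p.1 / s⌋ ∧ ⌊p.1 / s⌋ < n.1 + hi ∧ n.2 + lo ≤ ⌊p.2 / s⌋ ∧ ⌊p.2 / s⌋ < n.2 + hi)

/-- upper bound for squares with a margin -/
def USq {ι : Type} (F : Fam ι) (m : ℕ) (p K : ℝ) : Prop :=
  ∀ v, Wt v → ∀ (s : ℝ) (n : ℤ × ℤ), 0 < s →
    TT F F.T (box s n 1 (m - 1)) ≤ p * LL F v (box s n 0 m) + K

/-- the hypotheses of the local theorem at the unit square -/
structure Loc {ι : Type} (F : Fam ι) (v : Fin 3 → ℝ) (P K τ a : ℝ) : Prop where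
  ok : F.Ok τ
  wt : Wt v
  P0 : 0 < P
  P1 : P ≤ 1
  K0 : 0 ≤ K
  t0 : 0 < τ
  t1 : τ ≤ 1 / 100
  a0 : 0 < a
  a1 : a ≤ 1
  ub : UB F P τ K
  ne : NE F v P τ 0 1
  dbl : Dbl F v a 0 1
  mass : K + 1 ≤ τ * P ^ 2 * √(LL F v (bump 0 1))

/-! ### One dimensional objects -/

/-- one on `[b - σ, b + σ]`, zero outside `[b - 2 σ, b + 2 σ]` -/
def trp (b σ s : ℝ) : ℝ := clp (2 - |s - b| / σ)

def itv (α β s : ℝ) : ℝ := ind (α ≤ s ∧ s ≤ β)

def ann (b lam r s : ℝ) : ℝ := ind (lam ≤ |s - b| ∧ |s - b| ≤ r)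

/-- Lipschitz test function supported in `[-R, R]` -/
def Test (R Λ : ℝ) (f : ℝ → ℝ) : Prop :=
  (∀ s, 0 ≤ f s ∧ f s ≤ 1) ∧ (∀ s t, |f s - f t| ≤ Λ * |s - t|) ∧ ∀ s, R < |s| → f s = 0

abbrev Fn : Type := (ℝ → ℝ) →ₗ[ℝ] ℝ

/-- approximate product identity along the ultrafilter -/
def PI (ν : ℕ → Fin 3 → Fn) (R A : ℝ) : Prop :=
  ∀ i j l : Fin 3, i ≠ j → j ≠ l → i ≠ l → ∀ (f : ℝ → ℝ) (Λ b σ η : ℝ), Test R Λ f → 0 ≤ Λ →
    |b| ≤ R → 0 < σ → σ ≤ R → 0 < η → ∀ᶠ k in UU,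
      |ν k i f - ν k l (fun s => f (-b - s))| * ν k j (trp b σ) ≤
        η + 2 * σ * Λ * A * ν k j (trp b σ)

/-- factor between heights and labels -/
def cf : Fin 3 → ℝ := ![1, -2, 1]

/-- linear coordinate attached to the class `i`; the three coordinates sum to zero -/
def yc (i : Fin 3) (z : Pt) (u : ℝ) (p : Pt) : ℝ :=
  cf i * ((p.2 - z.2) - (((i : ℕ) : ℝ) - 1) * (p.1 - z.1)) / u

/-- the point with coordinates `b` -/
def ptOf (b : Fin 3 → ℝ) : Pt := ((b 0 - b 2) / 2, -b 1 / 2)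

def lab {ι : Type} (F : Fam ι) (i : Fin 3) (z : Pt) (u : ℝ) (a : ι) : ℝ := cf i * hgt F z a / u

/-- normalised counting functional of the labels -/
def nu {ι : Type} (F : Fam ι) (v : Fin 3 → ℝ) (z : Pt) (u : ℝ) (i : Fin 3) : Fn :=
  (v i / √(LL F v (bump 0 1))) • ∑ a ∈ cl F.T i, LinearMap.proj (lab F i z u a)

/-! ### The tree of cells -/

/-- side of the cells of level `h` -/
def sd (h : ℕ) : ℝ := 1 / (10 ^ 5) ^ h

/-- centre of a cell -/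
def ctr (c : ℕ × Cell) : Pt := (((c.2.1 : ℝ) + 1 / 2) * sd c.1, ((c.2.2 : ℝ) + 1 / 2) * sd c.1)

def root : ℕ × Cell := (0, (0, 0))

def z0 : Pt := (1 / 2, 1 / 2)

/-- nodes `Al` and leaves `Lv` of the stopping tree -/
structure Tree (Good : ℕ × Cell → Prop) (Al Lv : Finset (ℕ × Cell)) : Prop where
  sub : Lv ⊆ Al
  stop : ∀ c ∈ Lv, ¬ Good c
  par : ∀ c ∈ Al, c = root ∨ ∃ c' ∈ Al, Good c' ∧ c.1 = c'.1 + 1 ∧
    dist (ctr c) (ctr c') ≤ sd c'.1 / 2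
  anc : ∀ c ∈ Al, ∀ h ≤ c.1, ∃ c' ∈ Al, c'.1 = h ∧ dist (ctr c) (ctr c') ≤ sd h / 2
  inn : ∀ c ∈ Al, dist (ctr c) z0 + sd c.1 / 2 ≤ 1 / 2
  cov : ∀ p : Pt, dist p z0 < 1 / 2 → ∃ c ∈ Lv, dist p (ctr c) ≤ sd c.1 / 2
  disj : ∀ c ∈ Lv, ∀ c' ∈ Lv, ∀ p : Pt, dist p (ctr c) < sd c.1 / 2 →
    dist p (ctr c') < sd c'.1 / 2 → c = c'
  area : ∑ c ∈ Lv, sd c.1 ^ 2 ≤ 1
  card : #Al ≤ 2 * #Lv

/-- local scale attached to the nodes of the tree -/
def rho (Al : Finset (ℕ × Cell)) (p : Pt) : ℝ :=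
  Al.fold min 1 fun c => dist p (ctr c) + sd c.1

/-- regularity of a cell of side `σ` -/
def Rg {ι : Type} (F : Fam ι) (v : Fin 3 → ℝ) (z : Pt) (σ : ℝ) : Prop :=
  LL F v (bump z (4000 * σ)) ≤ 10 ^ 16 * LL F v (sqi z (σ / 8)) ∧
    LL F v (sqi z (40000 * σ)) ≤ 10 ^ 16 * LL F v (bump z (4000 * σ)) ∧
    nl F v 1 z σ ≤ 10 ^ 16 * √(LL F v (bump z (4000 * σ)))

end

end Pool.Agent.MP_38296a_co.H21.URn

end FileUR0

section FileUR1

set_option autoImplicit false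

namespace Pool.Agent.MP_38296a_co.H21.URn

open Finset Filter Classical Topology

/-! ### Test functions -/

theorem u1_half {ρ x a b : ℝ} {p q : Pt} (e : |x| ≤ |a| + |b|) (ha : ρ * |a| ≤ dist p q)
    (hb : ρ * |b| ≤ dist p q) : ρ / 2 * |x| ≤ dist p q := by
  rcases le_total 0 ρ with h | h
  · nlinarith [mul_le_mul_of_nonneg_left e h]
  · have h1 : ρ * |x| ≤ 0 := mul_nonpos_of_nonpos_of_nonneg h (abs_nonneg _)
    linarith [dist_nonneg (x := p) (y := q)]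

theorem u1_grid {R x c : ℝ} (hR : 0 ≤ R) {N : ℕ} (hN : 0 < N) (h : |x - c| ≤ R) :
    ∃ n ∈ Icc (-(N : ℤ)) N, |x - (c + n * (R / N))| ≤ R / N := by
  have hN' : (0 : ℝ) < N := by exact_mod_cast hN
  rcases hR.eq_or_lt with rfl | hR'
  · exact ⟨0, by simp, by simpa using h⟩
  have hs : 0 < R / N := div_pos hR' hN'
  have h1 := Int.floor_le ((x - c) / (R / N))
  have h2 := Int.lt_floor_add_one ((x - c) / (R / N))
  rw [abs_le] at h
  have e : R / (R / N) = N := by field_simp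
  have h3 : (x - c) / (R / N) ≤ N := by
    exact (div_le_div_of_nonneg_right h.2 hs.le).trans e.le
  have h4 : -(N : ℝ) ≤ (x - c) / (R / N) := by
    refine le_trans ?_ (div_le_div_of_nonneg_right h.1 hs.le)
    rw [neg_div, e]
  refine ⟨⌊(x - c) / (R / N)⌋, mem_Icc.2 ⟨Int.le_floor.2 (by exact_mod_cast h4), ?_⟩, ?_⟩
  · have : ((⌊(x - c) / (R / N)⌋ : ℤ) : ℝ) ≤ ((N : ℤ) : ℝ) := by push_cast; linarith
    exact_mod_cast this
  · rw [le_div_iff₀ hs] at h1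
    rw [div_lt_iff₀ hs] at h2
    rw [abs_le]; constructor <;> nlinarith

theorem clp_mem (x : ℝ) : 0 ≤ clp x ∧ clp x ≤ 1 := by
  unfold clp
  exact ⟨le_max_left _ _, max_le zero_le_one (min_le_left _ _)⟩

theorem clp_lip (x y : ℝ) : |clp x - clp y| ≤ |x - y| := by
  unfold clp
  refine (abs_max_sub_max_le_max _ _ _ _).trans (max_le (by simp) ?_)
  refine (abs_min_sub_min_le_max _ _ _ _).trans (max_le (by simp) le_rfl)

theorem clp_one {x : ℝ} (h : 1 ≤ x) : clp x = 1 := by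
  unfold clp
  rw [min_eq_left h]; simp

theorem clp_zero {x : ℝ} (h : x ≤ 0) : clp x = 0 := by
  unfold clp
  exact max_eq_left ((min_le_right _ _).trans h)

theorem bump_mem (z : Pt) (r : ℝ) (p : Pt) : 0 ≤ bump z r p ∧ bump z r p ≤ 1 := by
  exact clp_mem _

theorem bump_one {z p : Pt} {r : ℝ} (hr : 0 < r) (h : dist p z ≤ r) : bump z r p = 1 := by
  unfold bump
  apply clp_one
  have : dist p z / r ≤ 1 := (div_le_one hr).2 h
  linarith

theorem bump_zero {z p : Pt} {r : ℝ} (hr : 0 < r) (h : 2 * r ≤ dist p z) : bump z r p = 0 := by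
  unfold bump
  apply clp_zero
  have : 2 ≤ dist p z / r := (le_div_iff₀ hr).2 h
  linarith

theorem sqi_mem (z : Pt) (r : ℝ) (p : Pt) : 0 ≤ sqi z r p ∧ sqi z r p ≤ 1 := by
  unfold sqi ind
  split_ifs <;> simp

theorem sqi_le_sqi {z z' : Pt} {r r' : ℝ} (h : dist z z' + r ≤ r') (p : Pt) :
    sqi z r p ≤ sqi z' r' p := by
  unfold sqi ind
  by_cases h1 : dist p z ≤ r
  · have : dist p z' ≤ r' := by linarith [dist_triangle p z z']
    simp [h1, this]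
  · rw [if_neg h1]; split_ifs <;> simp

theorem sqi_le_bump {z z' : Pt} {r r' : ℝ} (hr : 0 < r') (h : dist z z' + r ≤ r') (p : Pt) :
    sqi z r p ≤ bump z' r' p := by
  by_cases h1 : dist p z ≤ r
  · rw [bump_one hr (by linarith [dist_triangle p z z'])]
    exact (sqi_mem _ _ _).2
  · have : sqi z r p = 0 := by unfold sqi ind; rw [if_neg h1]
    rw [this]; exact (bump_mem _ _ _).1

theorem bump_le_sqi {z z' : Pt} {r r' : ℝ} (hr : 0 < r) (h : dist z z' + 2 * r ≤ r') (p : Pt) :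
    bump z r p ≤ sqi z' r' p := by
  by_cases h1 : dist p z ≤ 2 * r
  · have : sqi z' r' p = 1 := by
      unfold sqi ind; rw [if_pos (by linarith [dist_triangle p z z'])]
    rw [this]; exact (bump_mem _ _ _).2
  · rw [bump_zero hr (le_of_lt (not_le.1 h1))]; exact (sqi_mem _ _ _).1

theorem Adm.mono {ρ ρ' Φ : Pt → ℝ} (h : Adm ρ Φ) (hρ : ∀ p, ρ' p ≤ ρ p) : Adm ρ' Φ := by
  exact ⟨h.1, fun p q => (mul_le_mul_of_nonneg_right (hρ p) (abs_nonneg _)).trans (h.2 p q)⟩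

theorem Adm.one_sub {ρ Φ : Pt → ℝ} (h : Adm ρ Φ) : Adm ρ fun p => 1 - Φ p := by
  refine ⟨fun p => ⟨by linarith [(h.1 p).2], by linarith [(h.1 p).1]⟩, fun p q => ?_⟩
  have : |1 - Φ p - (1 - Φ q)| = |Φ p - Φ q| := by
    rw [← abs_neg]; congr 1; ring
  rw [this]; exact h.2 p q

theorem Adm.mul {ρ Φ Ψ : Pt → ℝ} (h : Adm ρ Φ) (h' : Adm ρ Ψ) :
    Adm (fun p => ρ p / 2) fun p => Φ p * Ψ p := by
  refine ⟨fun p => ⟨mul_nonneg (h.1 p).1 (h'.1 p).1,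
    mul_le_one₀ (h.1 p).2 (h'.1 p).1 (h'.1 p).2⟩, fun p q => ?_⟩
  have e : |Φ p * Ψ p - Φ q * Ψ q| ≤ |Φ p - Φ q| + |Ψ p - Ψ q| := by
    have : Φ p * Ψ p - Φ q * Ψ q = (Φ p - Φ q) * Ψ p + Φ q * (Ψ p - Ψ q) := by ring
    rw [this]
    refine (abs_add_le _ _).trans (add_le_add ?_ ?_)
    · rw [abs_mul, abs_of_nonneg (h'.1 p).1]
      exact mul_le_of_le_one_right (abs_nonneg _) (h'.1 p).2
    · rw [abs_mul, abs_of_nonneg (h.1 q).1]
      exact mul_le_of_le_one_left (abs_nonneg _) (h.1 q).2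
  exact u1_half e (h.2 p q) (h'.2 p q)

/-- sum of functions with disjoint supports -/
theorem adm_sum {α : Type} {ρ : Pt → ℝ} (C : Finset α) (f : α → Pt → ℝ)
    (h : ∀ c ∈ C, Adm ρ (f c))
    (hd : ∀ c ∈ C, ∀ c' ∈ C, ∀ p, f c p ≠ 0 → f c' p ≠ 0 → c = c') :
    Adm (fun p => ρ p / 2) fun p => ∑ c ∈ C, f c p := by
  have one : ∀ p, (∀ c ∈ C, f c p = 0) ∨ ∃ c ∈ C, f c p ≠ 0 ∧ ∑ c ∈ C, f c p = f c p := by
    intro p
    by_cases h0 : ∀ c ∈ C, f c p = 0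
    · exact Or.inl h0
    · push Not at h0
      obtain ⟨c, hc, h1⟩ := h0
      refine Or.inr ⟨c, hc, h1, sum_eq_single c (fun c' hc' hn => ?_) fun h2 => absurd hc h2⟩
      by_contra h2
      exact hn (hd c' hc' c hc p h2 h1)
  refine ⟨fun p => ?_, fun p q => ?_⟩
  · rcases one p with h0 | ⟨c, hc, -, h1⟩
    · simp [sum_eq_zero h0]
    · simp only [h1]; exact (h c hc).1 p
  · have hdn := dist_nonneg (x := p) (y := q)
    beta_reduce
    rcases one p with h0 | ⟨c, hc, hc0, h1⟩ <;> rcases one q with h0' | ⟨c', hc', hc0', h1'⟩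
    · simp [sum_eq_zero h0, sum_eq_zero h0']
    · refine u1_half (a := f c' p - f c' q) (b := 0) ?_ ((h c' hc').2 p q) (by simp)
      rw [sum_eq_zero h0, h1', h0 c' hc']; simp
    · refine u1_half (a := f c p - f c q) (b := 0) ?_ ((h c hc).2 p q) (by simp)
      rw [sum_eq_zero h0', h1, h0' c hc]; simp
    · by_cases hcc : c = c'
      · subst hcc
        refine u1_half (a := f c p - f c q) (b := 0) ?_ ((h c hc).2 p q) (by simp)
        rw [h1, h1']; simp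
      · refine u1_half ?_ ((h c hc).2 p q) ((h c' hc').2 p q)
        have e1 : f c q = 0 := by
          by_contra h2
          exact hcc (hd c hc c' hc' q h2 hc0')
        have e2 : f c' p = 0 := by
          by_contra h2
          exact hcc (hd c hc c' hc' p hc0 h2)
        rw [h1, h1', e1, e2, sub_zero, zero_sub, abs_neg]
        exact abs_sub _ _

theorem adm_bump (z : Pt) {r : ℝ} (hr : 0 < r) : Adm (fun _ => r) (bump z r) := by
  refine ⟨bump_mem z r, fun p q => ?_⟩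
  unfold bump
  have h1 := clp_lip (2 - dist p z / r) (2 - dist q z / r)
  have h2 : |2 - dist p z / r - (2 - dist q z / r)| = |dist p z - dist q z| / r := by
    rw [← abs_neg, ← abs_of_pos hr, ← abs_div, abs_of_pos hr]; congr 1; ring
  rw [h2, le_div_iff₀ hr] at h1
  have h3 := abs_dist_sub_le p q z
  linarith

/-- Near `z` use the Lipschitz bound; if `dist p z > (2 R + 1) u` and `Φ q ≠ 0` then
`dist p q ≥ (dist p z + u) / 2`. -/
theorem adm_loc {Φ : Pt → ℝ} {z : Pt} {u Λ R C : ℝ} (hu : 0 < u) (hΛ : 0 ≤ Λ) (hR : 0 ≤ R)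
    (h01 : ∀ p, 0 ≤ Φ p ∧ Φ p ≤ 1) (hL : ∀ p q, u * |Φ p - Φ q| ≤ Λ * dist p q)
    (h0 : ∀ p, R * u < dist p z → Φ p = 0) (hC : Λ * (2 * R + 2) ≤ C) (hC2 : 2 ≤ C) :
    Adm (fun p => (dist p z + u) / C) Φ := by
  refine ⟨h01, fun p q => ?_⟩
  have hC0 : 0 < C := by linarith
  have hd := dist_nonneg (x := p) (y := q)
  have hz := dist_nonneg (x := p) (y := z)
  have ha := abs_nonneg (Φ p - Φ q)
  rw [div_mul_eq_mul_div, div_le_iff₀ hC0]
  by_cases h1 : dist p z ≤ (2 * R + 1) * u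
  · have h2 := hL p q
    calc (dist p z + u) * |Φ p - Φ q| ≤ ((2 * R + 2) * u) * |Φ p - Φ q| :=
          mul_le_mul_of_nonneg_right (by linarith) ha
      _ = (2 * R + 2) * (u * |Φ p - Φ q|) := by ring
      _ ≤ (2 * R + 2) * (Λ * dist p q) := mul_le_mul_of_nonneg_left h2 (by linarith)
      _ = dist p q * (Λ * (2 * R + 2)) := by ring
      _ ≤ dist p q * C := mul_le_mul_of_nonneg_left hC hd
  · push Not at h1
    have hRu : 0 ≤ R * u := mul_nonneg hR hu.le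
    have hp : Φ p = 0 := h0 p (by nlinarith)
    by_cases hq : R * u < dist q z
    · rw [hp, h0 q hq]; simp only [sub_self, abs_zero, mul_zero]; positivity
    · push Not at hq
      have h3 := dist_triangle p q z
      have h4 : |Φ p - Φ q| ≤ 1 := by
        rw [hp, zero_sub, abs_neg, abs_of_nonneg (h01 q).1]; exact (h01 q).2
      calc (dist p z + u) * |Φ p - Φ q| ≤ (dist p z + u) * 1 :=
            mul_le_mul_of_nonneg_left h4 (by linarith)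
        _ ≤ dist p q * 2 := by nlinarith
        _ ≤ dist p q * C := mul_le_mul_of_nonneg_left hC2 hd

theorem adm_bump' (z : Pt) {r : ℝ} (hr : 0 < r) :
    Adm (fun p => (dist p z + r) / 6) (bump z r) := by
  refine adm_loc (Λ := 1) (R := 2) hr zero_le_one (by norm_num) (bump_mem z r)
    (fun p q => by rw [one_mul]; exact (adm_bump z hr).2 p q)
    (fun p hp => bump_zero hr hp.le) (by norm_num) (by norm_num)

theorem rad_const {r : ℝ} (hr : 0 < r) : Rad fun _ => r := by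
  exact ⟨fun _ => hr, fun p q => le_add_of_nonneg_right dist_nonneg⟩

theorem Rad.div {ρ : Pt → ℝ} (h : Rad ρ) {C : ℝ} (hC : 1 ≤ C) : Rad fun p => ρ p / C := by
  have hC0 : 0 < C := by linarith
  refine ⟨fun p => div_pos (h.1 p) hC0, fun p q => ?_⟩
  have h1 := h.2 p q
  have h2 : dist p q / C ≤ dist p q := div_le_self dist_nonneg hC
  have h3 : ρ p / C ≤ (ρ q + dist p q) / C := div_le_div_of_nonneg_right h1 hC0.le
  rw [add_div] at h3
  linarith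

theorem rad_min (z : Pt) {u : ℝ} (hu : 0 < u) : Rad fun p => min 1 (dist p z + u) := by
  refine ⟨fun p => lt_min one_pos (by linarith [dist_nonneg (x := p) (y := z)]), fun p q => ?_⟩
  have h1 := dist_triangle p q z
  have h2 := dist_nonneg (x := p) (y := q)
  beta_reduce
  rcases le_total 1 (dist q z + u) with h | h
  · rw [min_eq_left h]; linarith [min_le_left 1 (dist p z + u)]
  · rw [min_eq_right h]; linarith [min_le_right 1 (dist p z + u)]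

/-- a grid in a square -/
theorem grid (z : Pt) {R : ℝ} (hR : 0 ≤ R) {N : ℕ} (hN : 0 < N) :
    ∃ Y : Finset Pt, #Y ≤ (2 * N + 1) ^ 2 ∧ ∀ p, dist p z ≤ R → ∃ y ∈ Y, dist p y ≤ R / N := by
  have hN' : (0 : ℝ) < N := by exact_mod_cast hN
  refine ⟨((Icc (-(N : ℤ)) N) ×ˢ (Icc (-(N : ℤ)) N)).image
    fun n : ℤ × ℤ => (z.1 + n.1 * (R / N), z.2 + n.2 * (R / N)), ?_, fun p hp => ?_⟩
  · refine card_image_le.trans ?_
    rw [card_product, Int.card_Icc]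
    have : ((N : ℤ) + 1 - -(N : ℤ)).toNat = 2 * N + 1 := by omega
    rw [this, sq]
  · rw [Prod.dist_eq, max_le_iff, Real.dist_eq, Real.dist_eq] at hp
    obtain ⟨n1, hn1, h1⟩ := u1_grid hR hN hp.1
    obtain ⟨n2, hn2, h2⟩ := u1_grid hR hN hp.2
    refine ⟨_, mem_image.2 ⟨(n1, n2), mem_product.2 ⟨hn1, hn2⟩, rfl⟩, ?_⟩
    rw [Prod.dist_eq, max_le_iff, Real.dist_eq, Real.dist_eq]
    exact ⟨h1, h2⟩

theorem cov_const {ι : Type} (F : Fam ι) {S : Finset (Tri ι)} {ρ : Pt → ℝ} {z : Pt} {R : ℝ}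
    (hR : 0 ≤ R) {N : ℕ} (hN : 0 < N) (hS : ∀ t ∈ S, dist (vt F t) z ≤ R)
    (hρ : ∀ t ∈ S, 3 * R / N ≤ ρ (vt F t)) : Cov F ρ S ((2 * N + 1) ^ 2) := by
  obtain ⟨Y, hY, h⟩ := grid z hR hN
  refine ⟨Y, by exact_mod_cast hY, fun t ht => ?_⟩
  obtain ⟨y, hy, hd⟩ := h _ (hS t ht)
  refine ⟨y, hy, le_trans ?_ (hρ t ht)⟩
  rw [mul_div_assoc]; linarith

theorem Cov.mono {ι : Type} {F : Fam ι} {S S' : Finset (Tri ι)} {ρ ρ' : Pt → ℝ} {W W' : ℝ}
    (h : Cov F ρ S W) (hS : S' ⊆ S) (hρ : ∀ p, ρ p ≤ ρ' p) (hW : W ≤ W') : Cov F ρ' S' W' := by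
  obtain ⟨Y, hY, h⟩ := h
  refine ⟨Y, hY.trans hW, fun t ht => ?_⟩
  obtain ⟨y, hy, hd⟩ := h t (hS ht)
  exact ⟨y, hy, hd.trans (hρ _)⟩

/-! ### Linearity -/

section Lin
variable {ι : Type} (F : Fam ι) {v : Fin 3 → ℝ}

theorem mu_add (v : Fin 3 → ℝ) (i j : Fin 3) (Φ Ψ : Pt → ℝ) :
    mu F v i j (fun p => Φ p + Ψ p) = mu F v i j Φ + mu F v i j Ψ := by
  simp only [mu, sum_add_distrib, mul_add]

theorem mu_mono (hv : Wt v) (i j : Fin 3) {Φ Ψ : Pt → ℝ} (h : ∀ p, Φ p ≤ Ψ p) :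
    mu F v i j Φ ≤ mu F v i j Ψ := by
  unfold mu
  exact mul_le_mul_of_nonneg_left (sum_le_sum fun a _ => sum_le_sum fun b _ => h _)
    (mul_pos (hv.1 i) (hv.1 j)).le

theorem mu_nonneg (hv : Wt v) (i j : Fin 3) {Φ : Pt → ℝ} (h : ∀ p, 0 ≤ Φ p) :
    0 ≤ mu F v i j Φ := by
  unfold mu
  exact mul_nonneg (mul_pos (hv.1 i) (hv.1 j)).le
    (sum_nonneg fun a _ => sum_nonneg fun b _ => h _)

theorem LL_add (v : Fin 3 → ℝ) (Φ Ψ : Pt → ℝ) :
    LL F v (fun p => Φ p + Ψ p) = LL F v Φ + LL F v Ψ := by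
  simp only [LL, mu_add]; ring

theorem LL_sub (v : Fin 3 → ℝ) (Φ Ψ : Pt → ℝ) :
    LL F v (fun p => Φ p - Ψ p) = LL F v Φ - LL F v Ψ := by
  simp only [LL, mu, sum_sub_distrib]; ring

theorem LL_smul (v : Fin 3 → ℝ) (c : ℝ) (Φ : Pt → ℝ) :
    LL F v (fun p => c * Φ p) = c * LL F v Φ := by
  simp only [LL, mu, ← mul_sum]; ring

theorem LL_sum {α : Type} (v : Fin 3 → ℝ) (C : Finset α) (f : α → Pt → ℝ) :
    LL F v (fun p => ∑ c ∈ C, f c p) = ∑ c ∈ C, LL F v (f c) := by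
  induction C using Finset.induction_on with
  | empty => simp [LL, mu]
  | insert c C hc ih => simp only [sum_insert hc, LL_add, ih]

theorem LL_mono (hv : Wt v) {Φ Ψ : Pt → ℝ} (h : ∀ p, Φ p ≤ Ψ p) : LL F v Φ ≤ LL F v Ψ := by
  unfold LL
  linarith [mu_mono F hv 0 1 h, mu_mono F hv 1 2 h, mu_mono F hv 2 0 h]

theorem LL_nonneg (hv : Wt v) {Φ : Pt → ℝ} (h : ∀ p, 0 ≤ Φ p) : 0 ≤ LL F v Φ := by
  unfold LL
  linarith [mu_nonneg F hv 0 1 h, mu_nonneg F hv 1 2 h, mu_nonneg F hv 2 0 h]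

theorem TT_add (S : Finset (Tri ι)) (Φ Ψ : Pt → ℝ) :
    TT F S (fun p => Φ p + Ψ p) = TT F S Φ + TT F S Ψ := by
  simp only [TT, sum_add_distrib]

theorem TT_sub (S : Finset (Tri ι)) (Φ Ψ : Pt → ℝ) :
    TT F S (fun p => Φ p - Ψ p) = TT F S Φ - TT F S Ψ := by
  simp only [TT, sum_sub_distrib]

theorem TT_smul (S : Finset (Tri ι)) (c : ℝ) (Φ : Pt → ℝ) :
    TT F S (fun p => c * Φ p) = c * TT F S Φ := by
  simp only [TT, mul_sum]

theorem TT_sum {α : Type} (S : Finset (Tri ι)) (C : Finset α) (f : α → Pt → ℝ) :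
    TT F S (fun p => ∑ c ∈ C, f c p) = ∑ c ∈ C, TT F S (f c) := by
  unfold TT
  exact sum_comm

theorem TT_mono (S : Finset (Tri ι)) {Φ Ψ : Pt → ℝ} (h : ∀ t ∈ S, Φ (vt F t) ≤ Ψ (vt F t)) :
    TT F S Φ ≤ TT F S Ψ := by
  exact sum_le_sum h

theorem TT_le_of_subset {S S' : Finset (Tri ι)} (h : S ⊆ S') {Φ : Pt → ℝ} (h0 : ∀ p, 0 ≤ Φ p) :
    TT F S Φ ≤ TT F S' Φ := by
  exact sum_le_sum_of_subset_of_nonneg h fun t _ _ => h0 _

theorem TT_eq_of_subset {S S' : Finset (Tri ι)} (h : S ⊆ S') {Φ : Pt → ℝ}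
    (h0 : ∀ t ∈ S', t ∉ S → Φ (vt F t) = 0) : TT F S Φ = TT F S' Φ := by
  exact sum_subset h h0

theorem wc_mono (hv : Wt v) (i : Fin 3) {Q Q' : ι → Prop} (h : ∀ a ∈ cl F.T i, Q a → Q' a) :
    wc F v i Q ≤ wc F v i Q' := by
  unfold wc cnt
  refine mul_le_mul_of_nonneg_left ?_ (hv.1 i).le
  exact_mod_cast card_le_card fun a ha => by
    rw [mem_filter] at ha ⊢; exact ⟨ha.1, h a ha.1 ha.2⟩

theorem wc_nonneg (hv : Wt v) (i : Fin 3) (Q : ι → Prop) : 0 ≤ wc F v i Q := by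
  unfold wc cnt
  exact mul_nonneg (hv.1 i).le (Nat.cast_nonneg _)

theorem wc_le_add (hv : Wt v) (i : Fin 3) {Q Q₁ Q₂ : ι → Prop}
    (h : ∀ a ∈ cl F.T i, Q a → Q₁ a ∨ Q₂ a) : wc F v i Q ≤ wc F v i Q₁ + wc F v i Q₂ := by
  unfold wc cnt
  rw [← mul_add]
  refine mul_le_mul_of_nonneg_left ?_ (hv.1 i).le
  rw [← Nat.cast_add, Nat.cast_le]
  refine le_trans (card_le_card fun a ha => ?_) (card_union_le _ _)
  rw [mem_filter] at ha
  rcases h a ha.1 ha.2 with h1 | h1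
  · exact mem_union_left _ (mem_filter.2 ⟨ha.1, h1⟩)
  · exact mem_union_right _ (mem_filter.2 ⟨ha.1, h1⟩)

theorem wc_add_le (hv : Wt v) (i : Fin 3) {Q Q₁ Q₂ : ι → Prop}
    (h₁ : ∀ a ∈ cl F.T i, Q₁ a → Q a) (h₂ : ∀ a ∈ cl F.T i, Q₂ a → Q a)
    (h : ∀ a ∈ cl F.T i, Q₁ a → ¬ Q₂ a) : wc F v i Q₁ + wc F v i Q₂ ≤ wc F v i Q := by
  unfold wc cnt
  rw [← mul_add]
  refine mul_le_mul_of_nonneg_left ?_ (hv.1 i).le
  rw [← Nat.cast_add, Nat.cast_le, ← card_union_of_disjoint]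
  · refine card_le_card fun a ha => ?_
    rcases mem_union.1 ha with h1 | h1 <;> rw [mem_filter] at h1 ⊢
    · exact ⟨h1.1, h₁ a h1.1 h1.2⟩
    · exact ⟨h1.1, h₂ a h1.1 h1.2⟩
  · rw [disjoint_left]
    intro a h1 h2
    rw [mem_filter] at h1 h2
    exact h a h1.1 h1.2 h2.2

theorem wc_pos (hv : Wt v) {i : Fin 3} {Q : ι → Prop} (h : 0 < wc F v i Q) :
    ∃ a ∈ cl F.T i, Q a := by
  unfold wc cnt at h
  have h1 := (mul_pos_iff_of_pos_left (hv.1 i)).1 h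
  rw [Nat.cast_pos, card_pos] at h1
  obtain ⟨a, ha⟩ := h1
  exact ⟨a, (mem_filter.1 ha).1, (mem_filter.1 ha).2⟩

theorem UB.mono {F : Fam ι} {P κ κ' K : ℝ} (h : UB F P κ K) (hP : 0 ≤ P) (hκ : κ ≤ κ') :
    UB F P κ' K := by
  intro v hv ρ Φ S W hρ hΦ hS hc
  have h1 := h v hv ρ Φ S W hρ hΦ hS hc
  have h2 : 0 ≤ P * LL F v Φ := mul_nonneg hP (LL_nonneg F hv fun p => (hΦ.1 p).1)
  have h3 : (0 : ℝ) ≤ #S := Nat.cast_nonneg _
  nlinarith

theorem NE.mono {F : Fam ι} {P τ τ' r : ℝ} {z : Pt} (h : NE F v P τ z r) (hv : Wt v)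
    (hP : 0 ≤ P) (hτ : τ ≤ τ') : NE F v P τ' z r := by
  unfold NE at h ⊢
  have h2 : 0 ≤ P * LL F v (bump z r) := mul_nonneg hP (LL_nonneg F hv fun p => (bump_mem _ _ p).1)
  nlinarith

theorem Dbl.mono {F : Fam ι} {a a' r : ℝ} {z : Pt} (h : Dbl F v a z r) (hv : Wt v)
    (ha : a' ≤ a) : Dbl F v a' z r := by
  unfold Dbl at h ⊢
  exact (mul_le_mul_of_nonneg_right ha (LL_nonneg F hv fun p => (sqi_mem _ _ p).1)).trans h

theorem ok_mono {F : Fam ι} {ε ε' : ℝ} (h : F.Ok ε) (he : ε ≤ ε') : F.Ok ε' := by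
  exact ⟨h.lin, fun t ht i => (h.sep t ht i).trans he, h.thru, h.one⟩

/-- Apply the upper bound to `(1 - Ψ) χ` (admissible for `ρ / 2`). -/
theorem sel {F : Fam ι} {P κ K τ W : ℝ} {ρ χ Ψ : Pt → ℝ} {S : Finset (Tri ι)} (hv : Wt v)
    (hP : 0 ≤ P) (hκ : 0 ≤ κ) (hub : UB F P κ K) (hρ : Rad ρ) (hχ : Adm ρ χ) (hΨ : Adm ρ Ψ)
    (hS : S ⊆ F.T) (hc : Cov F (fun p => ρ p / 2) S W)
    (hne : (1 - τ) * P * LL F v χ ≤ TT F S χ) :
    P * LL F v (fun p => Ψ p * χ p) - TT F S (fun p => Ψ p * χ p) ≤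
      (τ + κ) * P * LL F v χ + κ * #S + K * W := by
  have h1 := hub v hv _ _ S W (hρ.div (C := 2) (by norm_num)) (hΨ.one_sub.mul hχ) hS hc
  have e : (fun p => (1 - Ψ p) * χ p) = fun p => χ p - Ψ p * χ p := by
    funext p; ring
  rw [e, TT_sub, LL_sub] at h1
  have h2 : 0 ≤ κ * (P * LL F v fun p => Ψ p * χ p) := mul_nonneg hκ (mul_nonneg hP
    (LL_nonneg F hv fun p => mul_nonneg (hΨ.1 p).1 (hχ.1 p).1))
  nlinarith

/-- Apply the upper bound to `S` and `bump z (2 r)` with the constant scale `2 r`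
(`cov_const` with `N = 3`). -/
theorem card_near {F : Fam ι} {P κ K r : ℝ} {z : Pt} (hv : Wt v) (hP : 0 ≤ P) (hK : 0 ≤ K)
    (hκ : κ ≤ 1 / 2) (hr : 0 < r) (hub : UB F P κ K) {S : Finset (Tri ι)} (hS : S ⊆ F.T)
    (hn : ∀ t ∈ S, dist (vt F t) z ≤ 2 * r) :
    (#S : ℝ) ≤ 3 * P * LL F v (sqi z (4 * r)) + 98 * K := by
  have hr2 : 0 < 2 * r := by linarith
  have hc := cov_const F (S := S) (ρ := fun _ => 2 * r) (z := z) hr2.le (N := 3) (by norm_num) hn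
    (fun t _ => by push_cast; linarith)
  have h1 := hub v hv _ _ S _ (rad_const hr2) (adm_bump z hr2) hS hc
  have h2 : TT F S (bump z (2 * r)) = #S := by
    unfold TT
    rw [sum_congr rfl fun t ht => bump_one hr2 (hn t ht)]; simp
  have h3 : LL F v (bump z (2 * r)) ≤ LL F v (sqi z (4 * r)) :=
    LL_mono F hv (bump_le_sqi hr2 (by rw [dist_self]; linarith))
  have h4 : 0 ≤ LL F v (bump z (2 * r)) := LL_nonneg F hv fun p => (bump_mem _ _ p).1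
  have h5 : (0 : ℝ) ≤ #S := Nat.cast_nonneg _
  rw [h2] at h1
  push_cast at h1
  have h6 : (1 + κ) * (P * LL F v (bump z (2 * r))) ≤ 3 / 2 * (P * LL F v (bump z (2 * r))) :=
    mul_le_mul_of_nonneg_right (by linarith) (mul_nonneg hP h4)
  have h7 := mul_le_mul_of_nonneg_left h3 hP
  nlinarith

end Lin

/-! ### The counting functionals -/

theorem nu_apply {ι : Type} (F : Fam ι) (v : Fin 3 → ℝ) (z : Pt) (u : ℝ) (i : Fin 3)
    (f : ℝ → ℝ) : nu F v z u i f =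
      v i / √(LL F v (bump 0 1)) * ∑ a ∈ cl F.T i, f (lab F i z u a) := by
  simp [nu, LinearMap.sum_apply]

theorem nu_mono {ι : Type} (F : Fam ι) {v : Fin 3 → ℝ} (hv : Wt v) (z : Pt) (u : ℝ) (i : Fin 3) :
    Monotone (nu F v z u i) := by
  intro f g h
  rw [nu_apply, nu_apply]
  exact mul_le_mul_of_nonneg_left (sum_le_sum fun a _ => h _)
    (div_nonneg (hv.1 i).le (Real.sqrt_nonneg _))

theorem nu_ind {ι : Type} (F : Fam ι) (v : Fin 3 → ℝ) (z : Pt) (u : ℝ) (i : Fin 3)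
    (Q : ℝ → Prop) : nu F v z u i (fun s => ind (Q s)) =
      wc F v i (fun a => Q (lab F i z u a)) / √(LL F v (bump 0 1)) := by
  rw [nu_apply]
  unfold wc cnt ind
  rw [sum_boole]
  ring

end Pool.Agent.MP_38296a_co.H21.URn

end FileUR1

section FileUR2

set_option autoImplicit false

namespace Pool.Agent.MP_38296a_co.H21.URn

open Finset Filter Classical Topology

/-! ### Geometry of the three classes of lines -/

section Geo
variable {ι : Type} {F : Fam ι} {ε : ℝ} {v : Fin 3 → ℝ}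

theorem slope_near (h : F.Ok ε) {i : Fin 3} {a : ι} (ha : a ∈ cl F.T i) :
    |F.x a - (((i : ℕ) : ℝ) - 1)| ≤ ε := by
  obtain ⟨t, ht, rfl⟩ := mem_image.1 ha
  exact h.sep t ht i

theorem u2_idx {i j : Fin 3} (hij : i ≠ j) : (1 : ℝ) ≤ |((i : ℕ) : ℝ) - ((j : ℕ) : ℝ)| := by
  have h : (1 : ℤ) ≤ |((i : ℕ) : ℤ) - ((j : ℕ) : ℤ)| :=
    Int.one_le_abs (sub_ne_zero.2 fun e => hij (Fin.ext (by exact_mod_cast e)))
  exact_mod_cast h

theorem u2_x (h : F.Ok ε) (he : ε ≤ 1 / 10) {i : Fin 3} {a : ι} (ha : a ∈ cl F.T i) :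
    |F.x a| ≤ 11 / 10 := by
  have h1 := abs_le.1 (slope_near h ha)
  have h2 : ((i : ℕ) : ℝ) ≤ 2 := by exact_mod_cast Nat.le_of_lt_succ i.2
  have h3 : (0 : ℝ) ≤ ((i : ℕ) : ℝ) := Nat.cast_nonneg _
  exact abs_le.2 ⟨by linarith [h1.1], by linarith [h1.2]⟩

theorem u2_d1 (p z : Pt) : |p.1 - z.1| ≤ dist p z := by
  rw [Prod.dist_eq, ← Real.dist_eq]
  exact le_max_left _ _

theorem u2_d2 (p z : Pt) : |p.2 - z.2| ≤ dist p z := by
  rw [Prod.dist_eq, ← Real.dist_eq]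
  exact le_max_right _ _

theorem u2_dist {p z : Pt} {r : ℝ} (h1 : |p.1 - z.1| ≤ r) (h2 : |p.2 - z.2| ≤ r) :
    dist p z ≤ r := by
  rw [Prod.dist_eq, Real.dist_eq, Real.dist_eq]
  exact max_le h1 h2

theorem slope_gap (h : F.Ok ε) (he : ε ≤ 1 / 10) {i j : Fin 3} (hij : i ≠ j) {a b : ι}
    (ha : a ∈ cl F.T i) (hb : b ∈ cl F.T j) : 4 / 5 ≤ |F.x a - F.x b| := by
  have h1 := abs_le.1 (slope_near h ha)
  have h2 := abs_le.1 (slope_near h hb)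
  rcases le_abs.1 (u2_idx hij) with h3 | h3
  · exact le_abs.2 (Or.inl (by linarith [h1.1, h2.2]))
  · exact le_abs.2 (Or.inr (by linarith [h1.2, h2.1]))

theorem u2_ne (h : F.Ok ε) (he : ε ≤ 1 / 10) {i j : Fin 3} (hij : i ≠ j) {a b : ι}
    (ha : a ∈ cl F.T i) (hb : b ∈ cl F.T j) : F.x a - F.x b ≠ 0 := fun e => by
  have := slope_gap h he hij ha hb
  rw [e, abs_zero] at this
  norm_num at this

theorem hgt_cr (h : F.Ok ε) (he : ε ≤ 1 / 10) {i j : Fin 3} (hij : i ≠ j) {a b : ι}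
    (ha : a ∈ cl F.T i) (hb : b ∈ cl F.T j) :
    hgt F (cr F a b) a = 0 ∧ hgt F (cr F a b) b = 0 := by
  have h0 := u2_ne h he hij ha hb
  unfold hgt cr
  refine ⟨sub_self _, ?_⟩
  simp only
  field_simp
  ring

theorem eq_cr (h : F.Ok ε) (he : ε ≤ 1 / 10) {i j : Fin 3} (hij : i ≠ j) {a b : ι}
    (ha : a ∈ cl F.T i) (hb : b ∈ cl F.T j) {p : Pt} (h1 : hgt F p a = 0) (h2 : hgt F p b = 0) :
    p = cr F a b := by
  have h0 := u2_ne h he hij ha hb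
  unfold hgt at h1 h2
  have e : (F.s b - F.s a) / (F.x a - F.x b) = p.1 := by
    rw [div_eq_iff h0]
    linear_combination h2 - h1
  unfold cr
  rw [e]
  exact Prod.ext rfl (by simp only; linarith)

theorem hgt_sub (F : Fam ι) (z p : Pt) (a : ι) :
    hgt F z a = hgt F p a + F.x a * (z.1 - p.1) - (z.2 - p.2) := by
  unfold hgt
  ring

theorem hgt_lip (h : F.Ok ε) (he : ε ≤ 1 / 10) {i : Fin 3} {a : ι} (ha : a ∈ cl F.T i)
    (z p : Pt) : |hgt F z a - hgt F p a| ≤ 21 / 10 * dist p z := by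
  have e : hgt F z a - hgt F p a = (p.2 - z.2) - F.x a * (p.1 - z.1) := by
    rw [hgt_sub F z p]
    ring
  have h1 := mul_le_mul (u2_x h he ha) (u2_d1 p z) (abs_nonneg _) (by norm_num)
  have h2 := abs_sub (p.2 - z.2) (F.x a * (p.1 - z.1))
  rw [abs_mul] at h2
  rw [e]
  linarith [u2_d2 p z]

theorem dist_cr (h : F.Ok ε) (he : ε ≤ 1 / 10) {i j : Fin 3} (hij : i ≠ j) {a b : ι}
    (ha : a ∈ cl F.T i) (hb : b ∈ cl F.T j) {z : Pt} {s : ℝ} (h1 : |hgt F z a| ≤ s)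
    (h2 : |hgt F z b| ≤ s) : dist (cr F a b) z ≤ 4 * s := by
  obtain ⟨e1, e2⟩ := hgt_cr h he hij ha hb
  rw [hgt_sub F z (cr F a b), e1, zero_add] at h1
  rw [hgt_sub F z (cr F a b), e2, zero_add] at h2
  have h3 := slope_gap h he hij ha hb
  have h4 := u2_x h he ha
  rw [dist_comm]
  have key : ∀ X Y : ℝ, |F.x a * X - Y| ≤ s → |F.x b * X - Y| ≤ s → |X| ≤ 4 * s ∧ |Y| ≤ 4 * s := by
    intro X Y k1 k2
    have k3 := abs_sub (F.x a * X - Y) (F.x b * X - Y)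
    rw [show F.x a * X - Y - (F.x b * X - Y) = (F.x a - F.x b) * X by ring, abs_mul] at k3
    have k4 := mul_le_mul_of_nonneg_right h3 (abs_nonneg X)
    have k5 := abs_sub (F.x a * X) (F.x a * X - Y)
    rw [sub_sub_cancel, abs_mul] at k5
    have k6 := mul_le_mul_of_nonneg_right h4 (abs_nonneg X)
    have k7 := abs_nonneg (F.x a * X - Y)
    constructor <;> linarith
  exact u2_dist (key _ _ h1 h2).1 (key _ _ h1 h2).2

/-- two points close to two lines of different classes are close -/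
theorem dist_two (h : F.Ok ε) (he : ε ≤ 1 / 10) {i j : Fin 3} (hij : i ≠ j) {a b : ι}
    (ha : a ∈ cl F.T i) (hb : b ∈ cl F.T j) {z z' : Pt} {s : ℝ} (h1 : |hgt F z a| ≤ s)
    (h2 : |hgt F z b| ≤ s) (h3 : |hgt F z' a| ≤ s) (h4 : |hgt F z' b| ≤ s) :
    dist z z' ≤ 8 * s := by
  have a1 := dist_cr h he hij ha hb h1 h2
  have a2 := dist_cr h he hij ha hb h3 h4
  linarith [dist_triangle_left z z' (cr F a b)]

theorem mem_cl {t : Tri ι} (ht : t ∈ F.T) (i : Fin 3) : t i ∈ cl F.T i := by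
  exact mem_image_of_mem _ ht

theorem hgt_vt (h : F.Ok ε) (he : ε ≤ 1 / 10) {t : Tri ι} (ht : t ∈ F.T) (i : Fin 3) :
    hgt F (vt F t) (t i) = 0 := by
  obtain ⟨X, Y, hX⟩ := h.thru t ht
  have h1 : ∀ j, hgt F (X, Y) (t j) = 0 := fun j => sub_eq_zero.2 (hX j).symm
  have h2 : (X, Y) = vt F t :=
    eq_cr h he (i := 0) (j := 1) (by decide) (mem_cl ht 0) (mem_cl ht 1) (h1 0) (h1 1)
  rw [← h2]
  exact h1 i

theorem vt_eq (h : F.Ok ε) (he : ε ≤ 1 / 10) {t : Tri ι} (ht : t ∈ F.T) {i j : Fin 3}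
    (hij : i ≠ j) : vt F t = cr F (t i) (t j) := by
  exact eq_cr h he hij (mem_cl ht i) (mem_cl ht j) (hgt_vt h he ht i) (hgt_vt h he ht j)

theorem vt_inj (h : F.Ok ε) (he : ε ≤ 1 / 10) {t u : Tri ι} (ht : t ∈ F.T) (hu : u ∈ F.T)
    (e : vt F t = vt F u) : t = u := by
  refine h.one t ht u hu (vt F t).1 (vt F t).2 (fun i => (sub_eq_zero.1 (hgt_vt h he ht i)).symm)
    fun i => ?_
  rw [e]
  exact (sub_eq_zero.1 (hgt_vt h he hu i)).symm

theorem vt_sep (h : F.Ok ε) (he : ε ≤ 1 / 10) : ∃ δ : ℝ, 0 < δ ∧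
    ∀ t ∈ F.T, ∀ u ∈ F.T, dist (vt F t) (vt F u) < δ → t = u := by
  rcases ((F.T ×ˢ F.T).filter fun e => e.1 ≠ e.2).eq_empty_or_nonempty with h0 | h0
  · refine ⟨1, one_pos, fun t ht u hu _ => ?_⟩
    by_contra hne
    have : (t, u) ∈ (F.T ×ˢ F.T).filter fun e => e.1 ≠ e.2 :=
      mem_filter.2 ⟨mem_product.2 ⟨ht, hu⟩, hne⟩
    rw [h0] at this
    exact notMem_empty _ this
  · obtain ⟨e, h1, h2⟩ := exists_min_image _ (fun e => dist (vt F e.1) (vt F e.2)) h0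
    obtain ⟨h3, h4⟩ := mem_filter.1 h1
    refine ⟨_, dist_pos.2 fun k => h4 (vt_inj h he (mem_product.1 h3).1 (mem_product.1 h3).2 k),
      fun t ht u hu hd => ?_⟩
    by_contra hne
    exact hd.not_ge (h2 (t, u) (mem_filter.2 ⟨mem_product.2 ⟨ht, hu⟩, hne⟩))

theorem u2_cnt {α : Type} (S : Finset α) (P : α → Prop) : cnt S P = ∑ a ∈ S, ind (P a) := by
  unfold cnt ind
  rw [sum_boole]

theorem u2_ind (P : Prop) : 0 ≤ ind P ∧ ind P ≤ 1 := by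
  unfold ind
  split_ifs <;> norm_num

theorem u2_wc (hv : Wt v) (i : Fin 3) (Q : ι → Prop) : 0 ≤ wc F v i Q :=
  mul_nonneg (hv.1 i).le (Nat.cast_nonneg _)

theorem u2_mu (hv : Wt v) (i j : Fin 3) {Φ : Pt → ℝ} (h0 : ∀ p, 0 ≤ Φ p) : 0 ≤ mu F v i j Φ :=
  mul_nonneg (mul_pos (hv.1 i) (hv.1 j)).le (sum_nonneg fun _ _ => sum_nonneg fun _ _ => h0 _)

/-- small bumps see at most one vertex -/
theorem TT_small (h : F.Ok ε) (he : ε ≤ 1 / 10) : ∃ δ : ℝ, 0 < δ ∧ ∀ (z : Pt) (r : ℝ)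
    (Φ : Pt → ℝ), r ≤ δ → (∀ p, Φ p ≤ sqi z r p) → TT F F.T Φ ≤ 1 := by
  obtain ⟨δ, hδ, h1⟩ := vt_sep h he
  refine ⟨δ / 3, by positivity, fun z r Φ hr hΦ => ?_⟩
  refine (sum_le_sum fun t _ => hΦ (vt F t)).trans ?_
  unfold sqi
  rw [← u2_cnt]
  unfold cnt
  rw [Nat.cast_le_one, card_le_one]
  intro t ht u hu
  obtain ⟨a1, a2⟩ := mem_filter.1 ht
  obtain ⟨b1, b2⟩ := mem_filter.1 hu
  exact h1 t a1 u b1 (by linarith [dist_triangle_right (vt F t) (vt F u) z])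

theorem mu_comm (h : F.Ok ε) (he : ε ≤ 1 / 10) (v : Fin 3 → ℝ) {i j : Fin 3} (hij : i ≠ j)
    (Φ : Pt → ℝ) : mu F v i j Φ = mu F v j i Φ := by
  unfold mu
  rw [mul_comm (v i), sum_comm]
  congr 1
  refine sum_congr rfl fun b hb => sum_congr rfl fun a ha => ?_
  obtain ⟨e1, e2⟩ := hgt_cr h he hij ha hb
  rw [← eq_cr h he hij.symm hb ha e2 e1]

theorem LL_eq (h : F.Ok ε) (he : ε ≤ 1 / 10) (v : Fin 3 → ℝ) {i j k : Fin 3} (hij : i ≠ j)
    (hjk : j ≠ k) (hik : i ≠ k) (Φ : Pt → ℝ) :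
    LL F v Φ = (mu F v i j Φ + mu F v j k Φ + mu F v k i Φ) / 3 := by
  have e1 := mu_comm h he v (i := 1) (j := 0) (by decide) Φ
  have e2 := mu_comm h he v (i := 2) (j := 1) (by decide) Φ
  have e3 := mu_comm h he v (i := 0) (j := 2) (by decide) Φ
  have key : ∀ i j k : Fin 3, i ≠ j → j ≠ k → i ≠ k → (i = 0 ∧ j = 1 ∧ k = 2) ∨
      (i = 1 ∧ j = 2 ∧ k = 0) ∨ (i = 2 ∧ j = 0 ∧ k = 1) ∨ (i = 0 ∧ j = 2 ∧ k = 1) ∨
      (i = 2 ∧ j = 1 ∧ k = 0) ∨ (i = 1 ∧ j = 0 ∧ k = 2) := by decide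
  unfold LL
  rcases key i j k hij hjk hik with ⟨rfl, rfl, rfl⟩ | ⟨rfl, rfl, rfl⟩ | ⟨rfl, rfl, rfl⟩ |
    ⟨rfl, rfl, rfl⟩ | ⟨rfl, rfl, rfl⟩ | ⟨rfl, rfl, rfl⟩ <;> linarith

theorem u2_prod (v : Fin 3 → ℝ) (i j : Fin 3) (Q Q' : ι → Prop) : wc F v i Q * wc F v j Q' =
    v i * v j * ∑ a ∈ cl F.T i, ∑ b ∈ cl F.T j, ind (Q a) * ind (Q' b) := by
  unfold wc
  rw [u2_cnt, u2_cnt, ← sum_mul_sum]
  ring

theorem mu_ge (hv : Wt v) (i j : Fin 3) {Φ : Pt → ℝ} (h0 : ∀ p, 0 ≤ Φ p) {Q Q' : ι → Prop}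
    (h : ∀ a ∈ cl F.T i, ∀ b ∈ cl F.T j, Q a → Q' b → 1 ≤ Φ (cr F a b)) :
    wc F v i Q * wc F v j Q' ≤ mu F v i j Φ := by
  rw [u2_prod]
  refine mul_le_mul_of_nonneg_left (sum_le_sum fun a ha => sum_le_sum fun b hb => ?_)
    (mul_pos (hv.1 i) (hv.1 j)).le
  unfold ind
  split_ifs with h1 h2
  · rw [mul_one]
    exact h a ha b hb h1 h2
  all_goals simpa using h0 _

theorem mu_le (hv : Wt v) (i j : Fin 3) {Φ : Pt → ℝ} (h1 : ∀ p, Φ p ≤ 1) {Q Q' : ι → Prop}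
    (h : ∀ a ∈ cl F.T i, ∀ b ∈ cl F.T j, 0 < Φ (cr F a b) → Q a ∧ Q' b) :
    mu F v i j Φ ≤ wc F v i Q * wc F v j Q' := by
  rw [u2_prod]
  refine mul_le_mul_of_nonneg_left (sum_le_sum fun a ha => sum_le_sum fun b hb => ?_)
    (mul_pos (hv.1 i) (hv.1 j)).le
  rcases lt_or_ge 0 (Φ (cr F a b)) with h2 | h2
  · obtain ⟨h3, h4⟩ := h a ha b hb h2
    unfold ind
    rw [if_pos h3, if_pos h4, mul_one]
    exact h1 _
  · exact h2.trans (mul_nonneg (u2_ind _).1 (u2_ind _).1)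

theorem nl_le_mu (h : F.Ok ε) (he : ε ≤ 1 / 10) (hv : Wt v) {i j : Fin 3} (hij : i ≠ j)
    (z : Pt) (s : ℝ) : nl F v i z s * nl F v j z s ≤ mu F v i j (sqi z (4 * s)) := by
  refine mu_ge hv i j (fun p => (u2_ind _).1) fun a ha b hb h1 h2 => ?_
  exact (if_pos (dist_cr h he hij ha hb h1 h2)).ge

theorem mu_le_nl (h : F.Ok ε) (he : ε ≤ 1 / 10) (hv : Wt v) {i j : Fin 3} (hij : i ≠ j)
    (z : Pt) (s : ℝ) :
    mu F v i j (sqi z s) ≤ nl F v i z (21 / 10 * s) * nl F v j z (21 / 10 * s) := by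
  refine mu_le hv i j (fun p => (u2_ind _).2) fun a ha b hb h1 => ?_
  have h2 : dist (cr F a b) z ≤ s := by
    by_contra hc
    unfold sqi ind at h1
    rw [if_neg hc] at h1
    exact lt_irrefl _ h1
  obtain ⟨e1, e2⟩ := hgt_cr h he hij ha hb
  have a1 := hgt_lip h he ha z (cr F a b)
  have a2 := hgt_lip h he hb z (cr F a b)
  rw [e1, sub_zero] at a1
  rw [e2, sub_zero] at a2
  exact ⟨by linarith, by linarith⟩

theorem LL_ge_nl (h : F.Ok ε) (he : ε ≤ 1 / 10) (hv : Wt v) {z : Pt} {s e : ℝ} (h0 : 0 ≤ e)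
    (hn : ∀ i, e ≤ nl F v i z s) : e ^ 2 ≤ LL F v (sqi z (4 * s)) := by
  have key : ∀ i j : Fin 3, i ≠ j → e ^ 2 ≤ mu F v i j (sqi z (4 * s)) := fun i j hij => by
    rw [pow_two]
    exact (mul_le_mul (hn i) (hn j) h0 (h0.trans (hn i))).trans (nl_le_mu h he hv hij z s)
  unfold LL
  linarith [key 0 1 (by decide), key 1 2 (by decide), key 2 0 (by decide)]

theorem LL_le_nl (h : F.Ok ε) (he : ε ≤ 1 / 10) (hv : Wt v) {z : Pt} {s e : ℝ}
    (hn : ∀ i, nl F v i z (21 / 10 * s) ≤ e) : LL F v (sqi z s) ≤ e ^ 2 := by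
  have key : ∀ i j : Fin 3, i ≠ j → mu F v i j (sqi z s) ≤ e ^ 2 := fun i j hij => by
    rw [pow_two]
    exact (mu_le_nl h he hv hij z s).trans
      (mul_le_mul (hn i) (hn j) (u2_wc hv j _) ((u2_wc hv i _).trans (hn i)))
  unfold LL
  linarith [key 0 1 (by decide), key 1 2 (by decide), key 2 0 (by decide)]

/-- the map `t ↦ (t i, t j)` is injective -/
theorem TT_le_mu (h : F.Ok ε) (he : ε ≤ 1 / 10) (hv : Wt v) {i j : Fin 3} (hij : i ≠ j)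
    {Φ : Pt → ℝ} (h0 : ∀ p, 0 ≤ Φ p) : v i * v j * TT F F.T Φ ≤ mu F v i j Φ := by
  refine mul_le_mul_of_nonneg_left ?_ (mul_pos (hv.1 i) (hv.1 j)).le
  have hinj : Set.InjOn (fun t : Tri ι => (t i, t j)) F.T := fun t ht u hu e =>
    h.lin t ht u hu i j hij (congrArg Prod.fst e) (congrArg Prod.snd e)
  have e : TT F F.T Φ = ∑ y ∈ F.T.image fun t : Tri ι => (t i, t j), Φ (cr F y.1 y.2) := by
    rw [sum_image hinj]
    exact sum_congr rfl fun t ht => by rw [vt_eq h he ht hij]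
  rw [e, ← sum_product']
  refine sum_le_sum_of_subset_of_nonneg (fun y hy => ?_) fun y _ _ => h0 _
  obtain ⟨t, ht, rfl⟩ := mem_image.1 hy
  exact mem_product.2 ⟨mem_cl ht i, mem_cl ht j⟩

theorem u2_amgm {a b c : ℝ} (ha : 0 ≤ a) (hb : 0 ≤ b) (hc : 0 ≤ c) (h : a * b * c = 1) :
    3 ≤ a + b + c := by
  have h1 : (3 : ℝ) ^ 3 ≤ (a + b + c) ^ 3 := by
    have e : (a + b + c) ^ 3 = 27 * (a * b * c) +
        ((a + b + c) * ((a - b) ^ 2 + (b - c) ^ 2 + (c - a) ^ 2) / 2 +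
          3 * (a * (b - c) ^ 2 + b * (c - a) ^ 2 + c * (a - b) ^ 2)) := by ring
    have h2 : 0 ≤ (a + b + c) * ((a - b) ^ 2 + (b - c) ^ 2 + (c - a) ^ 2) / 2 +
        3 * (a * (b - c) ^ 2 + b * (c - a) ^ 2 + c * (a - b) ^ 2) := by positivity
    rw [e, h]
    linarith
  exact le_of_pow_le_pow_left₀ three_ne_zero (by positivity) h1

/-- inequality of the arithmetic and geometric means for the weights -/
theorem TT_le_LL (h : F.Ok ε) (he : ε ≤ 1 / 10) (hv : Wt v) {Φ : Pt → ℝ} (h0 : ∀ p, 0 ≤ Φ p) :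
    TT F F.T Φ ≤ LL F v Φ := by
  have h1 := TT_le_mu h he hv (i := 0) (j := 1) (by decide) h0
  have h2 := TT_le_mu h he hv (i := 1) (j := 2) (by decide) h0
  have h3 := TT_le_mu h he hv (i := 2) (j := 0) (by decide) h0
  have h4 : 3 ≤ v 0 * v 1 + v 1 * v 2 + v 2 * v 0 :=
    u2_amgm (mul_pos (hv.1 0) (hv.1 1)).le (mul_pos (hv.1 1) (hv.1 2)).le
      (mul_pos (hv.1 2) (hv.1 0)).le (by linear_combination (v 0 * v 1 * v 2 + 1) * hv.2)
  have h5 : 0 ≤ TT F F.T Φ := sum_nonneg fun _ _ => h0 _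
  have h6 := mul_le_mul_of_nonneg_right h4 h5
  unfold LL
  linarith

/-- `v j * v k * (P * L / 2) ≤ mu j k ≤ 3 L` and `v i * (v j * v k) = 1` -/
theorem wt_low (h : F.Ok ε) (he : ε ≤ 1 / 10) (hv : Wt v) {Φ : Pt → ℝ} (h0 : ∀ p, 0 ≤ Φ p)
    {P : ℝ} (hL : 0 < LL F v Φ) (hT : P * LL F v Φ ≤ 2 * TT F F.T Φ) (i : Fin 3) :
    P / 6 ≤ v i := by
  obtain ⟨j, k, hij, hjk, hik, e⟩ :
      ∃ j k : Fin 3, i ≠ j ∧ j ≠ k ∧ i ≠ k ∧ v i * (v j * v k) = 1 := by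
    have h1 := hv.2
    have key : ∀ i : Fin 3, i = 0 ∨ i = 1 ∨ i = 2 := by decide
    rcases key i with rfl | rfl | rfl
    · exact ⟨1, 2, by decide, by decide, by decide, by linarith⟩
    · exact ⟨2, 0, by decide, by decide, by decide, by linarith⟩
    · exact ⟨0, 1, by decide, by decide, by decide, by linarith⟩
  have h1 := TT_le_mu h he hv hjk h0
  have h2 := LL_eq h he v hij hjk hik Φ
  have h3 := u2_mu (F := F) hv i j h0
  have h4 := u2_mu (F := F) hv k i h0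
  have h5 := mul_le_mul_of_nonneg_left hT (mul_pos (hv.1 j) (hv.1 k)).le
  have h6 : v j * v k * P ≤ 6 := le_of_mul_le_mul_right (by linarith) hL
  have h7 := mul_le_mul_of_nonneg_left h6 (hv.1 i).le
  rw [← mul_assoc, e] at h7
  linarith

theorem u2_yc0 (z : Pt) (u : ℝ) (p : Pt) : yc 0 z u p = ((p.2 - z.2) + (p.1 - z.1)) / u := by
  have e : (((0 : Fin 3) : ℕ) : ℝ) - 1 = -1 := by norm_num
  have e' : cf 0 = 1 := rfl
  rw [yc, e, e', one_mul, neg_one_mul, sub_neg_eq_add]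

theorem u2_yc1 (z : Pt) (u : ℝ) (p : Pt) : yc 1 z u p = -2 * (p.2 - z.2) / u := by
  simp [yc, cf]

theorem u2_yc2 (z : Pt) (u : ℝ) (p : Pt) : yc 2 z u p = ((p.2 - z.2) - (p.1 - z.1)) / u := by
  have e : (((2 : Fin 3) : ℕ) : ℝ) - 1 = 1 := by norm_num
  have e' : cf 2 = 1 := rfl
  rw [yc, e, e', one_mul, one_mul]

theorem u2_three (i : Fin 3) : i = 0 ∨ i = 1 ∨ i = 2 := by
  revert i
  decide

theorem u2_cf (i : Fin 3) : 1 ≤ |cf i| ∧ |cf i| ≤ 2 := by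
  rcases u2_three i with rfl | rfl | rfl <;> simp [cf]

theorem u2_abs {u : ℝ} (hu : 0 < u) (y : ℝ) : u * |y / u| = |y| := by
  rw [abs_div, abs_of_pos hu, mul_div_cancel₀ _ hu.ne']

theorem yc_sum (z : Pt) (u : ℝ) (p : Pt) {i j k : Fin 3} (hij : i ≠ j) (hjk : j ≠ k)
    (hik : i ≠ k) : yc i z u p + yc j z u p + yc k z u p = 0 := by
  have e : yc 0 z u p + yc 1 z u p + yc 2 z u p = 0 := by
    rw [u2_yc0, u2_yc1, u2_yc2]
    ring
  rcases u2_three i with rfl | rfl | rfl <;> rcases u2_three j with rfl | rfl | rfl <;>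
    rcases u2_three k with rfl | rfl | rfl <;> first | contradiction | linarith

theorem yc_lip (i : Fin 3) (z : Pt) {u : ℝ} (hu : 0 < u) (p q : Pt) :
    u * |yc i z u p - yc i z u q| ≤ 2 * dist p q := by
  have h1 := abs_le.1 (u2_d1 p q)
  have h2 := abs_le.1 (u2_d2 p q)
  rcases u2_three i with rfl | rfl | rfl <;>
    simp only [u2_yc0, u2_yc1, u2_yc2, ← sub_div, u2_abs hu] <;>
    exact abs_le.2 ⟨by linarith [h1.1, h1.2, h2.1, h2.2], by linarith [h1.1, h1.2, h2.1, h2.2]⟩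

theorem dist_le_yc (z : Pt) {u : ℝ} (hu : 0 < u) (p : Pt) {i j : Fin 3} (hij : i ≠ j) :
    dist p z ≤ (|yc i z u p| + |yc j z u p|) * u := by
  rw [mul_comm, mul_add]
  have a0 := abs_le.1 (le_refl |(p.2 - z.2) + (p.1 - z.1)|)
  have a1 := abs_le.1 (le_refl |-2 * (p.2 - z.2)|)
  have a2 := abs_le.1 (le_refl |(p.2 - z.2) - (p.1 - z.1)|)
  have b0 := abs_nonneg ((p.2 - z.2) + (p.1 - z.1))
  have b1 := abs_nonneg (-2 * (p.2 - z.2))
  have b2 := abs_nonneg ((p.2 - z.2) - (p.1 - z.1))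
  obtain ⟨a0, a0'⟩ := a0
  obtain ⟨a1, a1'⟩ := a1
  obtain ⟨a2, a2'⟩ := a2
  rcases u2_three i with rfl | rfl | rfl <;> rcases u2_three j with rfl | rfl | rfl <;>
    first
    | contradiction
    | (simp only [u2_yc0, u2_yc1, u2_yc2, u2_abs hu]
       exact u2_dist (abs_le.2 ⟨by linarith, by linarith⟩) (abs_le.2 ⟨by linarith, by linarith⟩))

theorem yc_ptOf {b : Fin 3 → ℝ} (hb : b 0 + b 1 + b 2 = 0) (i : Fin 3) (z : Pt) {u : ℝ}
    (hu : 0 < u) : yc i z u (z + u • ptOf b) = b i := by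
  have e1 : (z + u • ptOf b).1 - z.1 = u * ((b 0 - b 2) / 2) := by simp [ptOf]
  have e2 : (z + u • ptOf b).2 - z.2 = u * (-b 1 / 2) := by simp [ptOf]
  rcases u2_three i with rfl | rfl | rfl
  · rw [u2_yc0, e1, e2, div_eq_iff hu.ne']
    linear_combination (-u / 2) * hb
  · rw [u2_yc1, e2, div_eq_iff hu.ne']
    ring
  · rw [u2_yc2, e1, e2, div_eq_iff hu.ne']
    linear_combination (-u / 2) * hb

/-- change of the base point of the labels -/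
theorem lab_sub (h : F.Ok ε) {i : Fin 3} {a : ι} (ha : a ∈ cl F.T i) (z p : Pt) {u : ℝ}
    (hu : 0 < u) : u * |lab F i z u a - yc i z u p - lab F i p u a| ≤ 2 * ε * dist p z := by
  have e : lab F i z u a - yc i z u p - lab F i p u a =
      cf i * ((F.x a - (((i : ℕ) : ℝ) - 1)) * -(p.1 - z.1)) / u := by
    unfold lab yc hgt
    ring
  have h1 := slope_near h ha
  rw [e, u2_abs hu, abs_mul, abs_mul, abs_neg, mul_assoc]
  exact mul_le_mul (u2_cf i).2 (mul_le_mul h1 (u2_d1 p z) (abs_nonneg _) ((abs_nonneg _).trans h1))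
    (by positivity) (by norm_num)

theorem lab_abs (F : Fam ι) (i : Fin 3) (z : Pt) {u : ℝ} (hu : 0 < u) (a : ι) :
    |hgt F z a| ≤ u * |lab F i z u a| ∧ u * |lab F i z u a| ≤ 2 * |hgt F z a| := by
  unfold lab
  rw [u2_abs hu, abs_mul]
  exact ⟨le_mul_of_one_le_left (abs_nonneg _) (u2_cf i).1,
    mul_le_mul_of_nonneg_right (u2_cf i).2 (abs_nonneg _)⟩

end Geo

end Pool.Agent.MP_38296a_co.H21.URn

end FileUR2
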