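import Pool.Agent.MP_38296a_co.H21.URa

section FileUR3

set_option autoImplicit false

namespace Pool.Agent.MP_38296a_co.H21.URn

open Finset Filter Classical Topology

theorem u3_ind_mem (P : Prop) : 0 ≤ ind P ∧ ind P ≤ 1 := by
  unfold ind
  split_ifs <;> norm_num

theorem u3_ind_mono {P Q : Prop} (h : P → Q) : ind P ≤ ind Q := by
  unfold ind
  by_cases hp : P
  · rw [if_pos hp, if_pos (h hp)]
  · rw [if_neg hp]
    split_ifs <;> norm_num

theorem u3_box_le (s : ℝ) (c : ℤ × ℤ) (m : ℤ) (p : Pt) :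
    box s c 1 (m - 1) p ≤ box s c 0 m p :=
  u3_ind_mono fun h => by omega

theorem u3_floor {x s : ℝ} (h : |x| < s) : -1 ≤ ⌊x / s⌋ ∧ ⌊x / s⌋ < 1 := by
  have hs : 0 < s := lt_of_le_of_lt (abs_nonneg x) h
  obtain ⟨h1, h2⟩ := abs_lt.1 h
  constructor
  · rw [Int.le_floor, le_div_iff₀ hs]
    push_cast
    linarith
  · rw [Int.floor_lt, div_lt_iff₀ hs]
    push_cast
    linarith

theorem u3_LL_le {ι : Type} (F : Fam ι) {n : ℕ} (hn : #(lines F.T) ≤ n) {Φ : Pt → ℝ}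
    (h : ∀ p, Φ p ≤ 1) : LL F (fun _ => 1) Φ ≤ (n : ℝ) ^ 2 := by
  have hc : ∀ i, (#(cl F.T i) : ℝ) ≤ n := fun i => by
    have : cl F.T i ⊆ lines F.T := subset_biUnion_of_mem (cl F.T) (mem_univ i)
    exact_mod_cast (card_le_card this).trans hn
  have key : ∀ i j, mu F (fun _ => 1) i j Φ ≤ (n : ℝ) ^ 2 := fun i j => by
    unfold mu
    rw [one_mul, one_mul]
    calc _ ≤ ∑ _a ∈ cl F.T i, ∑ _b ∈ cl F.T j, (1 : ℝ) :=
          sum_le_sum fun a _ => sum_le_sum fun b _ => h _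
      _ = #(cl F.T i) * #(cl F.T j) := by simp
      _ ≤ n * n := mul_le_mul (hc i) (hc j) (by positivity) (by positivity)
      _ = _ := by ring
  have h1 := key 0 1
  have h2 := key 1 2
  have h3 := key 2 0
  unfold LL
  linarith

theorem u3_big {ι : Type} (F : Fam ι) {m : ℕ} (hm : 10 ≤ m) :
    ∃ s : ℝ, 0 < s ∧ TT F F.T (box s (-2, -2) 1 (m - 1)) = #F.T := by
  have h0 : ∀ t ∈ F.T, 0 ≤ |(vt F t).1| + |(vt F t).2| := fun t _ => by positivity
  refine ⟨1 + ∑ t ∈ F.T, (|(vt F t).1| + |(vt F t).2|), ?_, ?_⟩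
  · have := sum_nonneg h0
    linarith
  · unfold TT
    rw [card_eq_sum_ones]
    push_cast
    refine sum_congr rfl fun t ht => ?_
    have h1 := single_le_sum h0 ht
    have h2 := abs_nonneg (vt F t).1
    have h3 := abs_nonneg (vt F t).2
    have h4 := u3_floor (x := (vt F t).1)
      (s := 1 + ∑ t ∈ F.T, (|(vt F t).1| + |(vt F t).2|)) (by linarith)
    have h5 := u3_floor (x := (vt F t).2)
      (s := 1 + ∑ t ∈ F.T, (|(vt F t).1| + |(vt F t).2|)) (by linarith)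
    unfold box ind
    rw [if_pos]
    simp only
    omega

theorem u3_up {ι : Type} {F : Fam ι} {m : ℕ} {p p' K : ℝ} (h : USq F m p K) (hp : p ≤ p') :
    USq F m p' K := fun v hv s c hs => by
  have h1 := h v hv s c hs
  have h2 := LL_nonneg F hv (Φ := box s c 0 m) fun p => (u3_ind_mem _).1
  have h3 := mul_le_mul_of_nonneg_right hp h2
  linarith

/-- The extremal density. Let `A` be the set of reals `p` such that for some `K ≥ 0` all `F a`
satisfy `USq (F a) m p K`. It contains `1` (`TT_le_LL`, the inner box is inside the outer box),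
is closed upwards, and every `p ∈ A` satisfies `δ ≤ p`: take `v = 1` and `s` so large that the
inner box with `n = (-2, -2)` contains all vertices (`|coordinates| < s`), then
`δ n ^ 2 ≤ #T ≤ p * LL + K` with `0 ≤ LL ≤ n ^ 2` (each class has at most `n` lines), and `n`
is unbounded. Put `P = sInf A`. Then `(1 + 1 / m) P ∈ A` and `(1 - 1 / m) P ∉ A`. -/
theorem exists_P {ι : Type} (F : ℕ → Fam ι) (n : ℕ → ℕ) {δ ε : ℝ} (hδ : 0 < δ)
    (he : ε ≤ 1 / 10)
    (h : ∀ a, (F a).Ok ε ∧ #(lines (F a).T) ≤ n a ∧ δ * (n a : ℝ) ^ 2 ≤ #(F a).T ∧ a ≤ n a)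
    {m : ℕ} (hm : 10 ≤ m) : ∃ P K : ℝ, 0 < P ∧ P ≤ 1 ∧ 0 ≤ K ∧
      (∀ a, USq (F a) m ((1 + 1 / m) * P) K) ∧ ∀ M : ℝ, ∃ a v s c, Wt v ∧ 0 < s ∧
        (1 - 1 / m) * P * LL (F a) v (box s c 0 m) + M ≤ TT (F a) (F a).T (box s c 1 (m - 1)) := by
  let A : Set ℝ := {p | ∃ K : ℝ, 0 ≤ K ∧ ∀ a, USq (F a) m p K}
  have h1 : (1 : ℝ) ∈ A := by
    refine ⟨0, le_rfl, fun a v hv s c _ => ?_⟩
    have e1 := TT_mono (F a) (F a).T (Φ := box s c 1 (m - 1)) (Ψ := box s c 0 m)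
      fun t _ => u3_box_le s c m _
    have e2 := TT_le_LL (h a).1 he hv (Φ := box s c 0 m) fun p => (u3_ind_mem _).1
    linarith
  have hlow : ∀ p ∈ A, δ ≤ p := by
    rintro p ⟨K, hK, hU⟩
    by_contra hc
    have hη : 0 < δ - max p 0 := by
      have := max_lt (not_le.1 hc) hδ
      linarith
    obtain ⟨a, ha⟩ := exists_nat_gt (K / (δ - max p 0) + 1)
    obtain ⟨-, k2, k3, k4⟩ := h a
    obtain ⟨s, hs, e⟩ := u3_big (F a) hm
    have hw : Wt fun _ => (1 : ℝ) := ⟨fun _ => one_pos, by simp⟩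
    have k5 := u3_up (hU a) (le_max_left p 0) _ hw s (-2, -2) hs
    have k6 := u3_LL_le (F a) k2 (Φ := box s (-2, -2) 0 m) fun p => (u3_ind_mem _).2
    have k7 := mul_le_mul_of_nonneg_left k6 (le_max_right p 0)
    have k8 : (a : ℝ) ≤ n a := by exact_mod_cast k4
    have k9 : 0 ≤ K / (δ - max p 0) := div_nonneg hK hη.le
    have k10 : K / (δ - max p 0) < (n a : ℝ) ^ 2 := by nlinarith
    rw [div_lt_iff₀ hη] at k10
    rw [e] at k5
    nlinarith
  have hb : BddBelow A := ⟨δ, hlow⟩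
  have hP : δ ≤ sInf A := le_csInf ⟨1, h1⟩ hlow
  have hP0 : 0 < sInf A := hδ.trans_le hP
  have hm0 : (0 : ℝ) < 1 / m := by
    have : (0 : ℝ) < m := by exact_mod_cast (by omega : 0 < m)
    positivity
  have hx : 0 < 1 / m * sInf A := mul_pos hm0 hP0
  obtain ⟨p, ⟨K, hK, hU⟩, hp⟩ := exists_lt_of_csInf_lt ⟨1, h1⟩
    (show sInf A < (1 + 1 / m) * sInf A by linarith)
  refine ⟨sInf A, K, hP0, csInf_le hb h1, hK, fun a => u3_up (hU a) hp.le, fun M => ?_⟩
  have hn : (1 - 1 / m) * sInf A ∉ A := notMem_of_lt_csInf (by linarith) hb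
  by_contra hc
  refine hn ⟨max M 0, le_max_right _ _, fun a v hv s c hs => ?_⟩
  by_contra hd
  refine hc ⟨a, v, s, c, hv, hs, ?_⟩
  have := le_max_left M 0
  linarith

theorem u3_hgt {ι : Type} (F : Fam ι) (w : Pt) {u : ℝ} (hu : 0 < u) (z : Pt) (a : ι) :
    hgt (sim F w u) z a = hgt F (w + u • z) a / u := by
  simp only [hgt, sim, Prod.fst_add, Prod.snd_add, Prod.smul_fst, Prod.smul_snd, smul_eq_mul]
  field_simp
  ring

theorem u3_inv (w : Pt) {u : ℝ} (hu : 0 < u) (p : Pt) : w + u • u⁻¹ • (p - w) = p := by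
  rw [smul_smul, mul_inv_cancel₀ hu.ne', one_smul, add_sub_cancel]

theorem u3_dist (w : Pt) {u : ℝ} (hu : 0 < u) (p z : Pt) :
    dist p (w + u • z) = u * dist (u⁻¹ • (p - w)) z := by
  conv_lhs => rw [← u3_inv w hu p]
  rw [dist_add_left, dist_smul₀, Real.norm_eq_abs, abs_of_pos hu]

theorem u3_dist' (w : Pt) {u : ℝ} (hu : 0 < u) (p q : Pt) :
    dist p q = u * dist (u⁻¹ • (p - w)) (u⁻¹ • (q - w)) := by
  rw [← u3_dist w hu, u3_inv w hu]

theorem u3_ok {ι : Type} {F : Fam ι} {ε : ℝ} (h : F.Ok ε) (w : Pt) {u : ℝ} (hu : 0 < u) :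
    (sim F w u).Ok ε := by
  have key : ∀ t X Y, Thru (sim F w u).x (sim F w u).s t X Y →
      Thru F.x F.s t (w.1 + u * X) (w.2 + u * Y) := fun t X Y hT i => by
    have := hT i
    simp only [sim, hgt] at this
    rw [this]
    field_simp
    ring
  refine ⟨h.lin, h.sep, fun t ht => ?_, fun t ht t' ht' X Y h1 h2 =>
    h.one t ht t' ht' _ _ (key _ _ _ h1) (key _ _ _ h2)⟩
  obtain ⟨X, Y, hT⟩ := h.thru t ht
  refine ⟨(X - w.1) / u, (Y - w.2) / u, fun i => ?_⟩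
  simp only [sim, hgt]
  rw [hT i]
  field_simp
  ring

theorem u3_cr {ι : Type} {F : Fam ι} {ε : ℝ} (h : F.Ok ε) (he : ε ≤ 1 / 10) (w : Pt) {u : ℝ}
    (hu : 0 < u) {i j : Fin 3} (hij : i ≠ j) {a b : ι} (ha : a ∈ cl F.T i) (hb : b ∈ cl F.T j) :
    cr (sim F w u) a b = u⁻¹ • (cr F a b - w) := by
  obtain ⟨h1, h2⟩ := hgt_cr h he hij ha hb
  refine (eq_cr (u3_ok h w hu) he hij ha hb ?_ ?_).symm
  · rw [u3_hgt F w hu, u3_inv w hu, h1, zero_div]
  · rw [u3_hgt F w hu, u3_inv w hu, h2, zero_div]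

theorem u3_LL {ι : Type} {F : Fam ι} {ε : ℝ} (h : F.Ok ε) (he : ε ≤ 1 / 10) (w : Pt) {u : ℝ}
    (hu : 0 < u) (v : Fin 3 → ℝ) (Φ : Pt → ℝ) :
    LL (sim F w u) v Φ = LL F v fun p => Φ (u⁻¹ • (p - w)) := by
  have key : ∀ i j : Fin 3, i ≠ j →
      mu (sim F w u) v i j Φ = mu F v i j fun p => Φ (u⁻¹ • (p - w)) := fun i j hij => by
    unfold mu
    congr 1
    exact sum_congr rfl fun a ha => sum_congr rfl fun b hb => by rw [u3_cr h he w hu hij ha hb]
  unfold LL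
  rw [key 0 1 (by decide), key 1 2 (by decide), key 2 0 (by decide)]

theorem u3_vt {ι : Type} {F : Fam ι} {ε : ℝ} (h : F.Ok ε) (he : ε ≤ 1 / 10) (w : Pt) {u : ℝ}
    (hu : 0 < u) {t : Tri ι} (ht : t ∈ F.T) : vt (sim F w u) t = u⁻¹ • (vt F t - w) :=
  u3_cr h he w hu (by decide) (mem_cl ht 0) (mem_cl ht 1)

theorem u3_TT {ι : Type} {F : Fam ι} {ε : ℝ} (h : F.Ok ε) (he : ε ≤ 1 / 10) (w : Pt) {u : ℝ}
    (hu : 0 < u) {S : Finset (Tri ι)} (hS : S ⊆ F.T) (Φ : Pt → ℝ) :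
    TT (sim F w u) S Φ = TT F S fun p => Φ (u⁻¹ • (p - w)) :=
  sum_congr rfl fun t ht => by rw [u3_vt h he w hu (hS ht)]

theorem u3_bump (w : Pt) {u : ℝ} (hu : 0 < u) (z : Pt) (r : ℝ) :
    (fun p => bump z r (u⁻¹ • (p - w))) = bump (w + u • z) (u * r) := by
  funext p
  unfold bump
  rw [u3_dist w hu, mul_div_mul_left _ _ hu.ne']

theorem u3_sqi (w : Pt) {u : ℝ} (hu : 0 < u) (z : Pt) (r : ℝ) :
    (fun p => sqi z r (u⁻¹ • (p - w))) = sqi (w + u • z) (u * r) := by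
  funext p
  unfold sqi
  rw [u3_dist w hu, mul_le_mul_iff_right₀ hu]

/-- Change of coordinates. For lines of different classes
`cr (sim F w u) a b = u⁻¹ • (cr F a b - w)` (use `eq_cr`), hence `mu`, `LL`, `TT` of `sim F w u`
at `Φ` are those of `F` at `fun p => Φ (u⁻¹ • (p - w))`. For `UB` transport `ρ` to
`fun p => u * ρ (u⁻¹ • (p - w))` and the covering set by `y ↦ w + u • y`. -/
theorem sim_all {ι : Type} {F : Fam ι} {ε : ℝ} (h : F.Ok ε) (he : ε ≤ 1 / 10) (w : Pt) {u : ℝ}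
    (hu : 0 < u) : (sim F w u).Ok ε ∧ (∀ P κ K, UB F P κ K → UB (sim F w u) P κ K) ∧
      (∀ v z r, LL (sim F w u) v (bump z r) = LL F v (bump (w + u • z) (u * r))) ∧
      (∀ v z r, LL (sim F w u) v (sqi z r) = LL F v (sqi (w + u • z) (u * r))) ∧
      (∀ z r, TT (sim F w u) F.T (bump z r) = TT F F.T (bump (w + u • z) (u * r))) ∧
      ∀ z a, hgt (sim F w u) z a = hgt F (w + u • z) a / u := by
  refine ⟨u3_ok h w hu, fun P κ K hub v hv ρ Φ S W hρ hΦ hS hc => ?_,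
    fun v z r => by rw [u3_LL h he w hu, u3_bump w hu],
    fun v z r => by rw [u3_LL h he w hu, u3_sqi w hu],
    fun z r => by rw [u3_TT h he w hu Subset.rfl, u3_bump w hu], u3_hgt F w hu⟩
  rw [u3_LL h he w hu, u3_TT h he w hu hS]
  refine hub v hv (fun p => u * ρ (u⁻¹ • (p - w))) _ S W
    ⟨fun p => mul_pos hu (hρ.1 _), fun p q => ?_⟩ ⟨fun p => hΦ.1 _, fun p q => ?_⟩ hS ?_
  · rw [u3_dist' w hu p q, ← mul_add]
    exact mul_le_mul_of_nonneg_left (hρ.2 _ _) hu.le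
  · rw [u3_dist' w hu p q, mul_assoc]
    exact mul_le_mul_of_nonneg_left (hΦ.2 _ _) hu.le
  · obtain ⟨Y, hY, hc⟩ := hc
    refine ⟨Y.image fun y => w + u • y, le_trans (by exact_mod_cast card_image_le) hY,
      fun t ht => ?_⟩
    obtain ⟨y, hy, hd⟩ := hc t ht
    rw [u3_vt h he w hu (hS ht)] at hd
    refine ⟨_, mem_image_of_mem _ hy, ?_⟩
    have := mul_le_mul_of_nonneg_left hd hu.le
    rw [u3_dist w hu]
    linarith

end Pool.Agent.MP_38296a_co.H21.URn

end FileUR3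

section FileUR6

set_option autoImplicit false

namespace Pool.Agent.MP_38296a_co.H21.URn

open Finset Filter Classical Topology

/-! ### One dimensional rigidity -/

/-- limit along the ultrafilter -/
noncomputable def lm (ν : ℕ → Fin 3 → Fn) (i : Fin 3) (f : ℝ → ℝ) : ℝ :=
  limUnder UU fun k => ν k i f

/-- support of the limit -/
def Sp1 (ν : ℕ → Fin 3 → Fn) (i : Fin 3) (b : ℝ) : Prop :=
  ∀ σ : ℝ, 0 < σ → ∃ c : ℝ, 0 < c ∧ ∀ᶠ k in UU, c ≤ ν k i (trp b σ)

section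
variable {ν : ℕ → Fin 3 → Fn} {R A : ℝ}

theorem u6_ind_nonneg (P : Prop) : 0 ≤ ind P := by
  unfold ind; split_ifs <;> norm_num

theorem u6_ind_pos {P : Prop} (h : P) : ind P = 1 := if_pos h

theorem u6_ind_neg {P : Prop} (h : ¬ P) : ind P = 0 := if_neg h

theorem u6_trp_mem (b σ s : ℝ) : 0 ≤ trp b σ s ∧ trp b σ s ≤ 1 := clp_mem _

theorem u6_trp_one {b σ s : ℝ} (hσ : 0 < σ) (h : |s - b| ≤ σ) : trp b σ s = 1 :=
  clp_one (by have := (div_le_one hσ).2 h; linarith)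

theorem u6_trp_zero {b σ s : ℝ} (hσ : 0 < σ) (h : 2 * σ ≤ |s - b|) : trp b σ s = 0 :=
  clp_zero (by have := (le_div_iff₀ hσ).2 h; linarith)

theorem u6_nonneg {μ : Fn} (hm : Monotone μ) {f : ℝ → ℝ} (hf : ∀ s, 0 ≤ f s) : 0 ≤ μ f :=
  (map_zero μ).symm.trans_le (hm fun s => hf s)

theorem u6_le_itv {f : ℝ → ℝ} {R : ℝ} (h1 : ∀ s, f s ≤ 1) (h0 : ∀ s, R < |s| → f s = 0) (s : ℝ) :
    f s ≤ itv (-R) R s := by
  by_cases h : |s| ≤ R
  · exact (h1 s).trans_eq (u6_ind_pos (abs_le.1 h)).symm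
  · exact (h0 s (not_le.1 h)).trans_le (u6_ind_nonneg _)

theorem u6_test_le {f : ℝ → ℝ} {R Λ : ℝ} (hR : 0 < R) (hf : Test R Λ f) (s : ℝ) :
    0 ≤ f s ∧ f s ≤ itv (-(8 * R)) (8 * R) s :=
  ⟨(hf.1 s).1, u6_le_itv (fun s => (hf.1 s).2) (fun s h => hf.2.2 s (by linarith)) s⟩

instance u6_neBot : UU.NeBot := (hyperfilter ℕ).neBot

theorem test_trp {b σ R : ℝ} (hσ : 0 < σ) (h : |b| + 2 * σ ≤ R) : Test R (1 / σ) (trp b σ) := by
  refine ⟨u6_trp_mem b σ, fun s t => (clp_lip _ _).trans ?_, fun s hs => u6_trp_zero hσ ?_⟩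
  · have e : 2 - |s - b| / σ - (2 - |t - b| / σ) = 1 / σ * (|t - b| - |s - b|) := by ring
    rw [e, abs_mul, abs_of_pos (by positivity : 0 < 1 / σ)]
    refine mul_le_mul_of_nonneg_left ?_ (by positivity)
    have := abs_abs_sub_abs_le_abs_sub (t - b) (s - b)
    rwa [sub_sub_sub_cancel_right, abs_sub_comm t s] at this
  · linarith [abs_sub_abs_le_abs_sub s b]

/-- bounded sequences converge along an ultrafilter (`IsCompact.ultrafilter_le_nhds`,
`tendsto_nhds_limUnder`) -/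
theorem tendsto_lm (hm : ∀ k i, Monotone (ν k i))
    (hA : ∀ i, ∀ᶠ k in UU, ν k i (itv (-(8 * R)) (8 * R)) ≤ A) (i : Fin 3) {f : ℝ → ℝ}
    (hf : ∀ s, 0 ≤ f s ∧ f s ≤ itv (-(8 * R)) (8 * R) s) :
    Tendsto (fun k => ν k i f) UU (𝓝 (lm ν i f)) := by
  obtain ⟨x, -, hx⟩ := (isCompact_Icc (a := (0 : ℝ)) (b := A)).ultrafilter_le_nhds
    ((hyperfilter ℕ).map fun k => ν k i f) (le_principal_iff.2 ((hA i).mono fun k hk =>
      ⟨u6_nonneg (hm k i) fun s => (hf s).1, (hm k i fun s => (hf s).2).trans hk⟩))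
  exact tendsto_nhds_limUnder ⟨x, hx⟩

/-- Pass to the limit in `PI`, divide by the positive lower bound of `ν k j (trp b σ)`, let
`η → 0` and then `σ → 0`. -/
theorem star (hR : 0 < R) (hm : ∀ k i, Monotone (ν k i))
    (hA : ∀ i, ∀ᶠ k in UU, ν k i (itv (-(8 * R)) (8 * R)) ≤ A) (hPI : PI ν R A)
    {i j l : Fin 3} (hij : i ≠ j) (hjl : j ≠ l) (hil : i ≠ l) {b : ℝ} (hb : |b| ≤ R)
    (hs : Sp1 ν j b) {f : ℝ → ℝ} {Λ : ℝ} (hΛ : 0 ≤ Λ) (hf : Test R Λ f) :
    lm ν i f = lm ν l fun s => f (-b - s) := by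
  have h1 := tendsto_lm hm hA i (u6_test_le hR hf)
  have h2 := tendsto_lm hm hA l (f := fun s => f (-b - s)) fun s =>
    ⟨(hf.1 _).1, u6_le_itv (f := fun s => f (-b - s)) (fun s => (hf.1 _).2) (fun s h =>
      hf.2.2 _ (by
        have := abs_sub_abs_le_abs_sub s (-b)
        rw [abs_neg, abs_sub_comm] at this
        linarith)) s⟩
  have hA0 : 0 ≤ A := by
    obtain ⟨k, hk⟩ := (hA i).exists
    exact (u6_nonneg (hm k i) fun s => u6_ind_nonneg _).trans hk
  refine sub_eq_zero.1 (abs_nonpos_iff.1 (le_of_forall_pos_le_add fun ε hε => ?_))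
  rw [zero_add]
  have p0 : 0 < 4 * Λ * A + 1 := by positivity
  obtain ⟨σ, σ0, σ1, σ2⟩ : ∃ σ : ℝ, 0 < σ ∧ σ ≤ R ∧ σ * (4 * Λ * A + 1) ≤ ε :=
    ⟨min R (ε / (4 * Λ * A + 1)), by positivity, min_le_left _ _,
      (le_div_iff₀ p0).1 (min_le_right _ _)⟩
  obtain ⟨c, c0, hc⟩ := hs σ σ0
  refine le_of_tendsto (h1.sub h2).abs ?_
  filter_upwards [hc, hPI i j l hij hjl hil f Λ b σ (ε / 2 * c) hf hΛ hb σ0 σ1 (by positivity)]
    with k k1 k2
  have t0 : 0 < ν k j (trp b σ) := c0.trans_le k1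
  refine le_of_mul_le_mul_right (k2.trans ?_) t0
  have a1 : ε / 2 * c ≤ ε / 2 * ν k j (trp b σ) := by gcongr
  have a2 : 2 * σ * Λ * A * ν k j (trp b σ) ≤ ε / 2 * ν k j (trp b σ) := by
    gcongr
    linarith
  linarith

theorem u6_squeeze (hm : ∀ k i, Monotone (ν k i)) (i : Fin 3) {f g : ℝ → ℝ} (h0 : ∀ s, 0 ≤ f s)
    (h : ∀ s, f s ≤ g s) (hg : Tendsto (fun k => ν k i g) UU (𝓝 0)) :
    Tendsto (fun k => ν k i f) UU (𝓝 0) :=
  squeeze_zero (fun k => u6_nonneg (hm k i) h0) (fun k => hm k i h) hg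

/-- `IsCompact.induction_on` with the property that the mass of the set tends to zero; near a
point `b` outside the support use `trp b σ`, whose mass tends to zero along the ultrafilter. -/
theorem off_supp (hm : ∀ k i, Monotone (ν k i)) (i : Fin 3) {C : Set ℝ} (hC : IsCompact C)
    (h : ∀ b ∈ C, ¬ Sp1 ν i b) : Tendsto (fun k => ν k i fun s => ind (s ∈ C)) UU (𝓝 0) := by
  refine hC.induction_on
    (p := fun C => Tendsto (fun k => ν k i fun s => ind (s ∈ C)) UU (𝓝 0)) ?_ ?_ ?_ ?_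
  · refine u6_squeeze hm i (g := 0) (fun s => u6_ind_nonneg _)
      (fun s => (u6_ind_neg (Set.notMem_empty s)).le) ?_
    simp only [map_zero]
    exact tendsto_const_nhds
  · intro s t hst ht
    refine u6_squeeze hm i (fun s => u6_ind_nonneg _) (fun x => ?_) ht
    by_cases hx : x ∈ s
    · rw [u6_ind_pos hx, u6_ind_pos (hst hx)]
    · rw [u6_ind_neg hx]; exact u6_ind_nonneg _
  · intro s t hs ht
    refine u6_squeeze hm i (g := (fun x => ind (x ∈ s)) + fun x => ind (x ∈ t))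
      (fun s => u6_ind_nonneg _) (fun x => ?_) (by simpa only [map_add, add_zero] using hs.add ht)
    show _ ≤ ind (x ∈ s) + ind (x ∈ t)
    have := u6_ind_nonneg (x ∈ s)
    have := u6_ind_nonneg (x ∈ t)
    by_cases hx : x ∈ s ∪ t
    · rw [u6_ind_pos hx]
      rcases hx with hx | hx <;> have := u6_ind_pos hx <;> linarith
    · rw [u6_ind_neg hx]; linarith
  · intro b hb
    obtain ⟨σ, σ0, hσ⟩ : ∃ σ : ℝ, 0 < σ ∧ ∀ c : ℝ, 0 < c → ∀ᶠ k in UU, ν k i (trp b σ) < c := by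
      by_contra hn
      refine h b hb fun σ σ0 => ?_
      by_contra hn2
      refine hn ⟨σ, σ0, fun c c0 => ?_⟩
      have : ¬ ∀ᶠ k in (hyperfilter ℕ : Filter ℕ), c ≤ ν k i (trp b σ) := fun k => hn2 ⟨c, c0, k⟩
      exact (Ultrafilter.eventually_not.2 this).mono fun k hk => not_le.1 hk
    refine ⟨Metric.closedBall b σ, mem_nhdsWithin_of_mem_nhds (Metric.closedBall_mem_nhds b σ0),
      u6_squeeze hm i (g := trp b σ) (fun s => u6_ind_nonneg _) (fun x => ?_)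
        (tendsto_order.2 ⟨fun c hc => Eventually.of_forall fun k =>
          hc.trans_le (u6_nonneg (hm k i) fun s => (u6_trp_mem b σ s).1), hσ⟩)⟩
    by_cases hx : x ∈ Metric.closedBall b σ
    · rw [u6_ind_pos hx, u6_trp_one σ0 hx]
    · rw [u6_ind_neg hx]; exact (u6_trp_mem b σ x).1

end

end Pool.Agent.MP_38296a_co.H21.URn

end FileUR6

section FileUR6b

set_option autoImplicit false

namespace Pool.Agent.MP_38296a_co.H21.URn

open Finset Filter Classical Topology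

section
variable {ν : ℕ → Fin 3 → Fn} {R A : ℝ}

theorem u6b_mem {x y : ℝ} {n : ℤ} : n ∈ Icc ⌈x⌉ ⌊y⌋ ↔ x ≤ n ∧ (n : ℝ) ≤ y := by
  rw [mem_Icc, Int.ceil_le, Int.le_floor]

theorem u6b_card {x y : ℝ} (h : x + 1 ≤ y) :
    y - x - 1 ≤ (#(Icc ⌈x⌉ ⌊y⌋) : ℝ) ∧ (#(Icc ⌈x⌉ ⌊y⌋) : ℝ) ≤ y - x + 1 := by
  have h1 := Int.le_ceil x
  have h2 := Int.ceil_lt_add_one x
  have h3 := Int.floor_le y
  have h4 := Int.lt_floor_add_one y
  have h5 : ⌈x⌉ ≤ ⌊y⌋ + 1 := by
    have : (⌈x⌉ : ℝ) ≤ ⌊y⌋ + 1 := by linarith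
    exact_mod_cast this
  have h6 : ((#(Icc ⌈x⌉ ⌊y⌋) : ℕ) : ℝ) = ⌊y⌋ + 1 - ⌈x⌉ := by
    exact_mod_cast Int.card_Icc_of_le _ _ h5
  rw [h6]
  constructor <;> linarith

theorem u6b_zero {c t s : ℝ} (ht : 0 < t) (h : 2 * t ≤ |s - c|) : trp c t s = 0 :=
  clp_zero (by rw [sub_nonpos, le_div_iff₀ ht]; exact h)

theorem u6b_one {c t s : ℝ} (ht : 0 < t) (h : |s - c| ≤ t) : trp c t s = 1 :=
  clp_one (by have := (div_le_one ht).2 h; linarith)

theorem u6b_itv0 (α β s : ℝ) : 0 ≤ itv α β s := by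
  unfold itv ind
  split_ifs <;> norm_num

theorem u6b_itv1 {α β s : ℝ} (h1 : α ≤ s) (h2 : s ≤ β) : itv α β s = 1 := if_pos ⟨h1, h2⟩

theorem u6b_test {R Λ : ℝ} {f : ℝ → ℝ} (hR : 0 < R) (h : Test R Λ f) (s : ℝ) :
    0 ≤ f s ∧ f s ≤ itv (-(8 * R)) (8 * R) s := by
  refine ⟨(h.1 s).1, ?_⟩
  by_cases hs : R < |s|
  · rw [h.2.2 s hs]
    exact u6b_itv0 _ _ _
  · rw [not_lt, abs_le] at hs
    rw [u6b_itv1 (by linarith) (by linarith)]
    exact (h.1 s).2

theorem u6b_refl (b c t : ℝ) : (fun s => trp c t (-b - s)) = trp (-b - c) t := by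
  funext s
  rw [trp, trp, ← abs_neg (s - _)]
  congr 4
  ring

theorem u6b_shift {g : ℝ → ℝ} {t R : ℝ} (ht : 0 < t)
    (h : ∀ c, |c| + 2 * t ≤ R → |c + t| + 2 * t ≤ R → g c = g (c + t)) (n : ℤ)
    (hn : |n * t| + 2 * t ≤ R) : g (n * t) = g 0 := by
  induction n using Int.induction_on with
  | zero => simp
  | succ n ih =>
    have h0 : (0 : ℝ) ≤ n * t := by positivity
    push_cast at hn ih ⊢
    rw [add_one_mul] at hn ⊢
    have h1 : |(n : ℝ) * t| + 2 * t ≤ R := by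
      rw [abs_of_nonneg (by linarith)] at hn ⊢
      linarith
    rw [← h _ h1 hn, ih h1]
  | pred n ih =>
    have h0 : (0 : ℝ) ≤ n * t := by positivity
    push_cast at hn ih ⊢
    have h1 : |-(n : ℝ) * t| + 2 * t ≤ R := by
      rw [abs_of_nonpos (by linarith)] at hn ⊢
      linarith
    have e : (-(n : ℝ) - 1) * t + t = -(n : ℝ) * t := by ring
    rw [h _ hn (e ▸ h1), e, ih h1]

/-- packing: the trapezoids with centres `o + 4 n t` in `[α + 2 t, β - 2 t]` have disjoint supports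
inside `[α, β]`, and there are at least `(β - α) / (4 t) - 2` of them -/
theorem count_lo (μ : Fn) (hm : Monotone μ) {o t q α β : ℝ} (ht : 0 < t) (hq : 0 ≤ q)
    (hl : 40 * t ≤ β - α)
    (h : ∀ n : ℤ, α ≤ o + n * t → o + n * t ≤ β → q ≤ μ (trp (o + n * t) t)) :
    1 / 5 * (q / t) * (β - α) ≤ μ (itv α β) := by
  have h4 : 0 < 4 * t := by positivity
  have e : (β - 2 * t - o) / (4 * t) - (α + 2 * t - o) / (4 * t) - 1 = (β - α) / t / 4 - 2 := by
    field_simp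
    ring
  have h40 : 40 ≤ (β - α) / t := (le_div_iff₀ ht).2 hl
  have hc := (u6b_card (x := (α + 2 * t - o) / (4 * t)) (y := (β - 2 * t - o) / (4 * t))
    (by linarith)).1
  have hS : ∀ n ∈ Icc ⌈(α + 2 * t - o) / (4 * t)⌉ ⌊(β - 2 * t - o) / (4 * t)⌋,
      α + 2 * t ≤ o + n * (4 * t) ∧ o + n * (4 * t) ≤ β - 2 * t := by
    intro n hn
    rw [u6b_mem, div_le_iff₀ h4, le_div_iff₀ h4] at hn
    constructor <;> linarith [hn.1, hn.2]
  generalize Icc ⌈(α + 2 * t - o) / (4 * t)⌉ ⌊(β - 2 * t - o) / (4 * t)⌋ = S at hc hS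
  have h1 : ∑ n ∈ S, trp (o + n * (4 * t)) t ≤ itv α β := by
    intro s
    rw [Finset.sum_apply]
    by_cases hx : ∃ n ∈ S, |s - (o + n * (4 * t))| < 2 * t
    · obtain ⟨n, hn, hs⟩ := hx
      rw [abs_lt] at hs
      rw [u6b_itv1 (by linarith [(hS n hn).1]) (by linarith [(hS n hn).2]),
        sum_eq_single_of_mem n hn]
      · exact (clp_mem _).2
      · intro m _ hmn
        refine u6b_zero ht (le_abs.2 ?_)
        rcases lt_or_gt_of_ne hmn with h2 | h2
        · have : (m : ℝ) + 1 ≤ n := by exact_mod_cast h2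
          left
          nlinarith
        · have : (n : ℝ) + 1 ≤ m := by exact_mod_cast h2
          right
          nlinarith
    · rw [sum_eq_zero fun n hn => u6b_zero ht (not_lt.1 fun h2 => hx ⟨n, hn, h2⟩)]
      exact u6b_itv0 _ _ _
  have h2 := hm h1
  rw [map_sum] at h2
  have h3 : #S • q ≤ ∑ n ∈ S, μ (trp (o + n * (4 * t)) t) := card_nsmul_le_sum _ _ _ fun n hn => by
    have e2 : o + n * (4 * t) = o + ((4 * n : ℤ) : ℝ) * t := by push_cast; ring
    have := hS n hn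
    rw [e2] at this ⊢
    exact h _ (by linarith) (by linarith)
  rw [nsmul_eq_mul] at h3
  have e3 : 1 / 5 * (q / t) * (β - α) = (β - α) / t / 5 * q := by ring
  rw [e3]
  exact (mul_le_mul_of_nonneg_right (by linarith) hq).trans (h3.trans h2)

/-- covering: the plateaus of the trapezoids with centres `o + 2 n t` in `[α - t, β + t]` cover
`[α, β]`, and there are at most `(β - α) / (2 t) + 2` of them -/
theorem count_hi (μ : Fn) (hm : Monotone μ) {o t q α β : ℝ} (ht : 0 < t) (hq : 0 ≤ q)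
    (hl : 40 * t ≤ β - α)
    (h : ∀ n : ℤ, α - t ≤ o + n * t → o + n * t ≤ β + t → μ (trp (o + n * t) t) ≤ q) :
    μ (itv α β) ≤ 11 / 20 * (q / t) * (β - α) := by
  have h4 : 0 < 2 * t := by positivity
  have e : (β + t - o) / (2 * t) - (α - t - o) / (2 * t) + 1 = (β - α) / t / 2 + 2 := by
    field_simp
    ring
  have h40 : 40 ≤ (β - α) / t := (le_div_iff₀ ht).2 hl
  have hc := (u6b_card (x := (α - t - o) / (2 * t)) (y := (β + t - o) / (2 * t))
    (by linarith)).2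
  have hS : ∀ n, n ∈ Icc ⌈(α - t - o) / (2 * t)⌉ ⌊(β + t - o) / (2 * t)⌋ ↔
      α - t ≤ o + n * (2 * t) ∧ o + n * (2 * t) ≤ β + t := by
    intro n
    rw [u6b_mem, div_le_iff₀ h4, le_div_iff₀ h4]
    constructor <;> rintro ⟨a, b⟩ <;> constructor <;> linarith
  generalize Icc ⌈(α - t - o) / (2 * t)⌉ ⌊(β + t - o) / (2 * t)⌋ = S at hc hS
  have h1 : itv α β ≤ ∑ n ∈ S, trp (o + n * (2 * t)) t := by
    intro s
    rw [Finset.sum_apply]
    have h0 : ∀ n ∈ S, 0 ≤ trp (o + n * (2 * t)) t s := fun n _ => (clp_mem _).1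
    unfold itv ind
    split_ifs with hs
    · have h2 := abs_sub_round ((s - o) / (2 * t))
      generalize round ((s - o) / (2 * t)) = n at h2
      have h3 : |s - (o + n * (2 * t))| ≤ t := by
        have e2 : s - (o + n * (2 * t)) = ((s - o) / (2 * t) - n) * (2 * t) := by
          field_simp
          ring
        rw [e2, abs_mul, abs_of_pos h4]
        nlinarith
      have h5 := abs_le.1 h3
      rw [← u6b_one ht h3]
      exact single_le_sum h0 ((hS n).2 ⟨by linarith [hs.1], by linarith [hs.2]⟩)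
    · exact sum_nonneg h0
  have h2 := hm h1
  rw [map_sum] at h2
  have h3 : ∑ n ∈ S, μ (trp (o + n * (2 * t)) t) ≤ #S • q := sum_le_card_nsmul _ _ _ fun n hn => by
    have e2 : o + n * (2 * t) = o + ((2 * n : ℤ) : ℝ) * t := by push_cast; ring
    have := (hS n).1 hn
    rw [e2] at this ⊢
    exact h _ this.1 this.2
  rw [nsmul_eq_mul] at h3
  have e3 : 11 / 20 * (q / t) * (β - α) = 11 / 20 * ((β - α) / t) * q := by ring
  rw [e3]
  exact (h2.trans h3).trans (mul_le_mul_of_nonneg_right (by linarith) hq)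

/-- Two close points of a support. Let `i, l` be the other classes, `t = |b - b'|`. By `star` at
`b` and at `b'`, `lm i (trp (n t) t) = q` does not depend on `n` as long as `|n t| + 2 t ≤ R`;
by `star` the same value `q` occurs for the class `l` at the centres `-b + n t`, and for the class
`j` at the centres `b - b'' + n t`, where `b''` is a point of the support of the class `i` in
`[-θ, θ]` (`off_supp`). Only finitely many `n` matter, so eventually all these values are in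
`[9 q / 10, 11 q / 10]`; `q > 0` because of the lower bound `a0` (if `q = 0` the mass of
`[-R / 5, R / 5]` tends to zero by `count_hi`); then `count_lo`, `count_hi`,
`d = 18 / 100 * (q / t)`. -/
theorem case_unif (hR : 0 < R) (hm : ∀ k i, Monotone (ν k i))
    (hA : ∀ i, ∀ᶠ k in UU, ν k i (itv (-(8 * R)) (8 * R)) ≤ A) (hPI : PI ν R A) {a0 θ t1 : ℝ}
    (ha0 : 0 < a0) (hθ : θ ≤ R / 20) (ha : ∀ i, ∀ᶠ k in UU, a0 ≤ ν k i (itv (-θ) θ))
    (ht1 : t1 ≤ R / 100) {j : Fin 3} {b b' : ℝ} (hb : |b| ≤ R / 4) (hb' : |b'| ≤ R / 4)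
    (hs : Sp1 ν j b) (hs' : Sp1 ν j b') (hne : b ≠ b') (hd : |b - b'| ≤ t1) :
    ∃ d : ℝ, 0 < d ∧ ∀ᶠ k in UU, ∀ (i : Fin 3) (α β : ℝ), -(R / 5) ≤ α → β ≤ R / 5 →
      40 * t1 ≤ β - α → d * (β - α) ≤ ν k i (itv α β) ∧ ν k i (itv α β) ≤ 4 * d * (β - α) := by
  obtain ⟨i, l, hij, hjl, hil, hall⟩ : ∃ i l : Fin 3, i ≠ j ∧ j ≠ l ∧ i ≠ l ∧
      ∀ m, m = i ∨ m = j ∨ m = l := by
    clear hs hs'
    revert j
    decide
  have : NeBot UU := by unfold UU; infer_instance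
  have ht : 0 < |b - b'| := abs_pos.2 (sub_ne_zero.2 hne)
  obtain ⟨t, htd⟩ : ∃ t, t = |b - b'| := ⟨_, rfl⟩
  rw [← htd] at ht hd
  have hΛ : 0 ≤ 1 / t := by positivity
  have s1 : ∀ c, |c| + 2 * t ≤ R → lm ν i (trp c t) = lm ν l (trp (-b - c) t) := fun c hc => by
    rw [star hR hm hA hPI hij hjl hil (by linarith) hs hΛ (test_trp ht hc), u6b_refl]
  have s2 : ∀ c, |c| + 2 * t ≤ R → lm ν i (trp c t) = lm ν l (trp (-b' - c) t) := fun c hc => by
    rw [star hR hm hA hPI hij hjl hil (by linarith) hs' hΛ (test_trp ht hc), u6b_refl]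
  have s3 := u6b_shift (g := fun c => lm ν i (trp c t)) (R := R) ht fun c h1 h2 => by
    rcases abs_choice (b - b') with h3 | h3
    · rw [s1 c h1, s2 _ h2]
      congr 2
      linarith
    · rw [s2 c h1, s1 _ h2]
      congr 2
      linarith
  obtain ⟨q, hq⟩ : ∃ q, lm ν i (trp 0 t) = q := ⟨_, rfl⟩
  simp only [hq] at s3
  obtain ⟨w, hw, hsw⟩ : ∃ w ∈ Set.Icc (-θ) θ, Sp1 ν i w := by
    by_contra hn
    have h1 := off_supp hm i isCompact_Icc fun w hw hsw => hn ⟨w, hw, hsw⟩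
    have h2 : a0 ≤ 0 := ge_of_tendsto h1 (ha i)
    linarith
  have hw' : |w| ≤ θ := abs_le.2 hw
  have hbb := abs_le.1 hb
  have s4 : ∀ n : ℤ, |n * t| + 2 * t ≤ R → lm ν l (trp (-b - n * t) t) = q := fun n hn => by
    rw [← s1 _ hn, s3 n hn]
  obtain ⟨o, ho⟩ : ∃ o : Fin 3 → ℝ, ∀ (m : Fin 3) (n : ℤ), |o m + n * t| ≤ R / 5 + t →
      lm ν m (trp (o m + n * t) t) = q := by
    refine ⟨fun m => if m = i then 0 else if m = j then b - w else -b, fun m n hn => ?_⟩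
    rcases hall m with rfl | rfl | rfl
    · simp only [if_true, zero_add] at hn ⊢
      exact s3 n (by linarith)
    · simp only [if_neg hij.symm, if_true] at hn ⊢
      rw [star hR hm hA hPI hij.symm hil hjl (by linarith) hsw hΛ
        (test_trp ht (by linarith)), u6b_refl, ← s4 n (by
          rw [abs_le] at hn
          have : |n * t| ≤ R / 2 + t := abs_le.2 ⟨by linarith [hw.1], by linarith [hw.2]⟩
          linarith)]
      congr 2
      ring
    · simp only [if_neg hil.symm, if_neg hjl.symm] at hn ⊢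
      rw [← s4 (-n) (by
          rw [abs_le] at hn
          have : |((-n : ℤ) : ℝ) * t| ≤ R / 2 + t := by
            push_cast
            exact abs_le.2 ⟨by linarith, by linarith⟩
          linarith)]
      congr 2
      push_cast
      ring
  have hev : ∀ ε : ℝ, 0 < ε → ∀ᶠ k in UU, ∀ (m : Fin 3) (n : ℤ), -(R / 5) - t ≤ o m + n * t →
      o m + n * t ≤ R / 5 + t → |ν k m (trp (o m + n * t) t) - q| ≤ ε := by
    intro ε hε
    refine eventually_all.2 fun m => ?_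
    have h1 : ∀ n ∈ Icc ⌈(-(R / 5) - t - o m) / t⌉ ⌊(R / 5 + t - o m) / t⌋,
        ∀ᶠ k in UU, |ν k m (trp (o m + n * t) t) - q| ≤ ε := by
      intro n hn
      rw [u6b_mem, div_le_iff₀ ht, le_div_iff₀ ht] at hn
      have h2 : |o m + n * t| ≤ R / 5 + t := abs_le.2 ⟨by linarith [hn.1], by linarith [hn.2]⟩
      have h3 := tendsto_lm hm hA m (u6b_test hR (test_trp (b := o m + n * t) ht (by linarith)))
      rw [ho m n h2] at h3
      exact (Metric.tendsto_nhds.1 h3 ε hε).mono fun k hk => (Real.dist_eq _ _ ▸ hk).le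
    refine ((Filter.eventually_all_finset _).2 h1).mono fun k hk n a1 a2 => hk n ?_
    rw [u6b_mem, div_le_iff₀ ht, le_div_iff₀ ht]
    constructor <;> linarith
  have hq0 : 0 < q := by
    by_contra hn
    have hε : 0 < a0 * t / R := by positivity
    obtain ⟨k, h1, h2⟩ := ((hev _ hε).and (ha i)).exists
    have h3 := count_hi (ν k i) (hm k i) (o := o i) (α := -(R / 5)) (β := R / 5) ht hε.le
      (by linarith) fun n a1 a2 => by linarith [(abs_le.1 (h1 i n a1 a2)).2]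
    have h4 : ν k i (itv (-θ) θ) ≤ ν k i (itv (-(R / 5)) (R / 5)) := hm k i fun s => by
      by_cases h5 : -θ ≤ s ∧ s ≤ θ
      · rw [u6b_itv1 h5.1 h5.2, u6b_itv1 (by linarith [h5.1]) (by linarith [h5.2])]
      · rw [show itv (-θ) θ s = 0 from if_neg h5]
        exact u6b_itv0 _ _ _
    have e : 11 / 20 * (a0 * t / R / t) * (R / 5 - -(R / 5)) = 11 / 50 * a0 := by
      field_simp
      ring
    linarith
  refine ⟨18 / 100 * (q / t), by positivity, (hev (q / 10) (by positivity)).mono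
    fun k hk m α β a1 a2 a3 => ?_⟩
  have h1 := count_lo (ν k m) (hm k m) (o := o m) (α := α) (β := β) (q := 9 / 10 * q) ht
    (by positivity) (by linarith) fun n c1 c2 => by
      linarith [(abs_le.1 (hk m n (by linarith) (by linarith))).1]
  have h2 := count_hi (ν k m) (hm k m) (o := o m) (α := α) (β := β) (q := 11 / 10 * q) ht
    (by positivity) (by linarith) fun n c1 c2 => by
      linarith [(abs_le.1 (hk m n (by linarith) (by linarith))).2]
  have h3 : 0 ≤ q / t * (β - α) := mul_nonneg (by positivity) (by linarith)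
  have e1 : 1 / 5 * (9 / 10 * q / t) * (β - α) = 18 / 100 * (q / t * (β - α)) := by ring
  have e2 : 11 / 20 * (11 / 10 * q / t) * (β - α) = 121 / 200 * (q / t * (β - α)) := by ring
  constructor <;> nlinarith

end

end Pool.Agent.MP_38296a_co.H21.URn

end FileUR6b

section FileUR6c

set_option autoImplicit false

namespace Pool.Agent.MP_38296a_co.H21.URn

open Finset Filter Classical Topology

section
variable {ν : ℕ → Fin 3 → Fn} {R A : ℝ}

theorem u6_trp_le {b σ σ' : ℝ} (h0 : 0 < σ) (h : σ ≤ σ') (s : ℝ) : trp b σ s ≤ trp b σ' s := by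
  have : |s - b| / σ' ≤ |s - b| / σ := by gcongr
  exact max_le_max le_rfl (min_le_min le_rfl (by linarith))

theorem u6_star (hR : 0 < R) (hm : ∀ k i, Monotone (ν k i))
    (hA : ∀ i, ∀ᶠ k in UU, ν k i (itv (-(8 * R)) (8 * R)) ≤ A) (hPI : PI ν R A)
    {i j l : Fin 3} (hij : i ≠ j) (hjl : j ≠ l) (hil : i ≠ l) {a b c σ : ℝ} (hb : |b| ≤ R)
    (hs : Sp1 ν j b) (hσ : 0 < σ) (ha : |a| + 2 * σ ≤ R) (hc : a + b + c = 0) :
    lm ν i (trp a σ) = lm ν l (trp c σ) := by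
  rw [star hR hm hA hPI hij hjl hil hb hs (by positivity) (test_trp hσ ha)]
  congr 1
  funext s
  have e : -b - s - a = -(s - c) := by linarith
  simp only [trp, e, abs_neg]

/-- Either `case_unif` applies or distinct points of a support in `[-R / 4, R / 4]` are more than
`t1` apart. Take `b 0`, `b 1` in the supports inside `[-θ, θ]`, `b 2 = - b 0 - b 1` (in the support
by `star`), `w = lm 0 (trp (b 0) (t1 / 4))`, the same for the three classes by `star`; annuli are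
compact and miss the support (`off_supp`), and `itv` lies between `trp` and `trp + ann`. -/
theorem dich (hR : 0 < R) (hm : ∀ k i, Monotone (ν k i))
    (hA : ∀ i, ∀ᶠ k in UU, ν k i (itv (-(8 * R)) (8 * R)) ≤ A) (hPI : PI ν R A) {a0 θ t1 : ℝ}
    (ha0 : 0 < a0) (hθ : θ ≤ R / 20) (ha : ∀ i, ∀ᶠ k in UU, a0 ≤ ν k i (itv (-θ) θ))
    (ht0 : 0 < t1) (ht1 : t1 ≤ R / 100) :
    (∃ d : ℝ, 0 < d ∧ ∀ᶠ k in UU, ∀ (i : Fin 3) (α β : ℝ), -(R / 5) ≤ α → β ≤ R / 5 →
      40 * t1 ≤ β - α → d * (β - α) ≤ ν k i (itv α β) ∧ ν k i (itv α β) ≤ 4 * d * (β - α)) ∨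
    ∃ (b : Fin 3 → ℝ) (w : ℝ), 0 < w ∧ b 0 + b 1 + b 2 = 0 ∧ ∀ i, |b i| ≤ 2 * θ ∧
      Tendsto (fun k => ν k i (itv (b i - t1 / 2) (b i + t1 / 2))) UU (𝓝 w) ∧
      ∀ lam : ℝ, 0 < lam → Tendsto (fun k => ν k i (ann (b i) lam (t1 / 2))) UU (𝓝 0) := by
  by_cases h : ∃ (j : Fin 3) (b b' : ℝ), |b| ≤ R / 4 ∧ |b'| ≤ R / 4 ∧ Sp1 ν j b ∧ Sp1 ν j b' ∧
      b ≠ b' ∧ |b - b'| ≤ t1
  · obtain ⟨j, b, b', h1, h2, h3, h4, h5, h6⟩ := h
    exact Or.inl (case_unif hR hm hA hPI ha0 hθ ha ht1 h1 h2 h3 h4 h5 h6)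
  right
  have hex : ∀ i, ∃ b, |b| ≤ θ ∧ Sp1 ν i b := fun i => by
    by_contra hn
    have := off_supp hm i (isCompact_Icc (a := -θ) (b := θ)) fun b hb k => hn ⟨b, abs_le.2 hb, k⟩
    exact absurd (ge_of_tendsto this (ha i)) (not_le.2 ha0)
  obtain ⟨b0, p0, s0⟩ := hex 0
  obtain ⟨b1, p1, s1⟩ := hex 1
  have θ0 : 0 ≤ θ := (abs_nonneg _).trans p0
  have p2 : |-b0 - b1| ≤ 2 * θ := by
    have := abs_sub (-b0) b1
    rw [abs_neg] at this
    linarith
  have hT : ∀ (i : Fin 3) (a σ : ℝ), 0 < σ → |a| + 2 * σ ≤ R →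
      Tendsto (fun k => ν k i (trp a σ)) UU (𝓝 (lm ν i (trp a σ))) := fun i a σ k1 k2 =>
    tendsto_lm hm hA i (u6_test_le hR (test_trp k1 k2))
  have e0 : ∀ σ, 0 < σ → σ ≤ R / 4 → lm ν 0 (trp b0 σ) = lm ν 2 (trp (-b0 - b1) σ) :=
    fun σ k1 k2 => u6_star hR hm hA hPI (j := 1) (by decide) (by decide) (by decide)
      (by linarith) s1 k1 (by linarith) (by ring)
  have e1 : lm ν 1 (trp b1 (t1 / 4)) = lm ν 2 (trp (-b0 - b1) (t1 / 4)) :=
    u6_star hR hm hA hPI (j := 0) (by decide) (by decide) (by decide)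
      (by linarith) s0 (by positivity) (by linarith) (by ring)
  have s2 : Sp1 ν 2 (-b0 - b1) := fun σ σ0 => by
    have m0 : 0 < min σ (R / 4) := by positivity
    have m1 := min_le_right σ (R / 4)
    obtain ⟨c, c0, hc⟩ := s0 _ m0
    have a1 := ge_of_tendsto (hT 0 b0 _ m0 (by linarith)) hc
    rw [e0 _ m0 m1] at a1
    refine ⟨c / 2, by positivity, ((hT 2 _ _ m0 (by linarith)).eventually
      (lt_mem_nhds ((half_lt_self c0).trans_le a1))).mono fun k hk => hk.le.trans ?_⟩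
    exact hm k 2 (u6_trp_le m0 (min_le_left _ _))
  have key : ∀ (i : Fin 3) (b w : ℝ), |b| ≤ 2 * θ → Sp1 ν i b → lm ν i (trp b (t1 / 4)) = w →
      |b| ≤ 2 * θ ∧ Tendsto (fun k => ν k i (itv (b - t1 / 2) (b + t1 / 2))) UU (𝓝 w) ∧
      ∀ lam : ℝ, 0 < lam → Tendsto (fun k => ν k i (ann b lam (t1 / 2))) UU (𝓝 0) := by
    intro i b w hb hs hw
    have t4 : 0 < t1 / 4 := by positivity
    have han : ∀ lam : ℝ, 0 < lam → Tendsto (fun k => ν k i (ann b lam (t1 / 2))) UU (𝓝 0) := by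
      intro lam l0
      refine off_supp hm i (C := {s | lam ≤ |s - b| ∧ |s - b| ≤ t1 / 2}) ?_ fun s hs' k => ?_
      · refine (isCompact_closedBall b (t1 / 2)).of_isClosed_subset ?_ fun s hs' => hs'.2
        have hc : Continuous fun s : ℝ => |s - b| := by fun_prop
        exact (isClosed_le continuous_const hc).inter (isClosed_le hc continuous_const)
      · obtain ⟨k1, k2⟩ := hs'
        refine h ⟨i, s, b, ?_, by linarith, k, hs, fun e => ?_, by linarith⟩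
        · linarith [abs_sub_abs_le_abs_sub s b]
        · rw [e, sub_self, abs_zero] at k1
          linarith
    refine ⟨hb, ?_, han⟩
    have a1 := hT i b _ t4 (by linarith)
    rw [hw] at a1
    have a2 := a1.add (han _ t4)
    rw [add_zero] at a2
    refine tendsto_of_tendsto_of_tendsto_of_le_of_le a1 a2 (fun k => hm k i fun s => ?_) fun k => ?_
    · by_cases k1 : |s - b| ≤ t1 / 2
      · obtain ⟨k2, k3⟩ := abs_le.1 k1
        exact (u6_trp_mem _ _ _).2.trans_eq (u6_ind_pos ⟨by linarith, by linarith⟩).symm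
      · exact (u6_trp_zero t4 (by linarith)).trans_le (u6_ind_nonneg _)
    · refine le_trans (hm k i fun s => ?_) (map_add (ν k i) _ _).le
      show itv _ _ s ≤ trp b (t1 / 4) s + ann b (t1 / 4) (t1 / 2) s
      have q1 := (u6_trp_mem b (t1 / 4) s).1
      have q2 : 0 ≤ ann b (t1 / 4) (t1 / 2) s := u6_ind_nonneg _
      by_cases k1 : b - t1 / 2 ≤ s ∧ s ≤ b + t1 / 2
      · rw [show itv _ _ s = 1 from u6_ind_pos k1]
        by_cases k2 : |s - b| ≤ t1 / 4
        · rw [u6_trp_one t4 k2]; linarith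
        · rw [show ann b (t1 / 4) (t1 / 2) s = 1 from
            u6_ind_pos ⟨by linarith, abs_le.2 ⟨by linarith, by linarith⟩⟩]
          linarith
      · rw [show itv _ _ s = 0 from u6_ind_neg k1]; linarith
  refine ⟨![b0, b1, -b0 - b1], lm ν 2 (trp (-b0 - b1) (t1 / 4)), ?_, by simp, fun i => ?_⟩
  · obtain ⟨c, c0, hc⟩ := s2 (t1 / 4) (by positivity)
    exact c0.trans_le (ge_of_tendsto (hT 2 _ _ (by positivity) (by linarith)) hc)
  · fin_cases i
    · exact key 0 b0 _ (by linarith) s0 (e0 _ (by positivity) (by linarith))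
    · exact key 1 b1 _ (by linarith) s1 e1
    · exact key 2 _ _ p2 s2 rfl

end

end Pool.Agent.MP_38296a_co.H21.URn

end FileUR6c

section FileUR11

set_option autoImplicit false

namespace Pool.Agent.MP_38296a_co.H21.URn

open Finset Filter Classical Topology

/-! ### The stopping tree -/

theorem sd_pos (h : ℕ) : 0 < sd h := by
  unfold sd
  positivity

theorem sd_succ (h : ℕ) : sd (h + 1) = sd h / 10 ^ 5 := by
  unfold sd
  rw [pow_succ, div_div]

theorem sd_anti {h h' : ℕ} (hh : h ≤ h') : sd h' ≤ sd h := by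
  unfold sd
  exact one_div_le_one_div_of_le (by positivity) (pow_le_pow_right₀ (by norm_num) hh)

theorem sd_small {δ : ℝ} (hδ : 0 < δ) : ∃ H, sd H ≤ δ := by
  obtain ⟨H, hH⟩ := exists_pow_lt_of_lt_one hδ (show (1 : ℝ) / 10 ^ 5 < 1 by norm_num)
  refine ⟨H, ?_⟩
  unfold sd
  rw [← one_div_pow]
  exact hH.le

theorem u11_sd0 : sd 0 = 1 := by
  simp [sd]

/-- parent of a cell -/
def u11_par (c : Cell) : Cell := (c.1 / 10 ^ 5, c.2 / 10 ^ 5)

/-- children of a cell -/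
noncomputable def u11_kids (c : Cell) : Finset Cell :=
  Ico (10 ^ 5 * c.1) (10 ^ 5 * c.1 + 10 ^ 5) ×ˢ Ico (10 ^ 5 * c.2) (10 ^ 5 * c.2 + 10 ^ 5)

theorem u11_mem_kids {c d : Cell} : d ∈ u11_kids c ↔ u11_par d = c := by
  obtain ⟨c1, c2⟩ := c
  obtain ⟨d1, d2⟩ := d
  simp only [u11_kids, u11_par, mem_product, mem_Ico, Prod.mk.injEq]
  omega

theorem u11_card_kids (c : Cell) : #(u11_kids c) = 10 ^ 10 := by
  simp only [u11_kids, card_product, Int.card_Ico, add_sub_cancel_left]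
  rfl

/-- the cells of a level -/
noncomputable def u11_A (Good : ℕ × Cell → Prop) : ℕ → Finset Cell
  | 0 => {(0, 0)}
  | h + 1 => {c ∈ u11_A Good h | Good (h, c)}.biUnion u11_kids

theorem u11_mem_A {Good : ℕ × Cell → Prop} {h : ℕ} {d : Cell} :
    d ∈ u11_A Good (h + 1) ↔ u11_par d ∈ u11_A Good h ∧ Good (h, u11_par d) := by
  simp only [u11_A, mem_biUnion, mem_filter, u11_mem_kids]
  constructor
  · rintro ⟨c, hc, rfl⟩
    exact hc
  · exact fun hc => ⟨_, hc, rfl⟩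

theorem u11_card_A (Good : ℕ × Cell → Prop) (h : ℕ) :
    #(u11_A Good (h + 1)) = #{c ∈ u11_A Good h | Good (h, c)} * 10 ^ 10 := by
  rw [u11_A, card_biUnion]
  · simp only [u11_card_kids, sum_const, smul_eq_mul]
  · intro c _ c' _ hne
    refine disjoint_left.mpr fun d h1 h2 => hne ?_
    rw [← u11_mem_kids.mp h1, ← u11_mem_kids.mp h2]

theorem u11_one (n : ℤ) {s : ℝ} (hs : 0 < s) :
    dist (((n : ℝ) + 1 / 2) * (s / 10 ^ 5)) ((((n / 10 ^ 5 : ℤ) : ℝ) + 1 / 2) * s) ≤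
      s / 2 - s / 10 ^ 5 / 2 := by
  obtain ⟨m, hm⟩ : ∃ m : ℤ, m = n / 10 ^ 5 := ⟨_, rfl⟩
  rw [← hm]
  have h1 : (10 : ℤ) ^ 5 * m ≤ n := by omega
  have h2 : n + 1 ≤ (10 : ℤ) ^ 5 * m + 10 ^ 5 := by omega
  have h3 : (10 : ℝ) ^ 5 * m ≤ n := by exact_mod_cast h1
  have h4 : (n : ℝ) + 1 ≤ (10 : ℝ) ^ 5 * m + 10 ^ 5 := by exact_mod_cast h2
  have h5 := mul_le_mul_of_nonneg_right h3 hs.le
  have h6 := mul_le_mul_of_nonneg_right h4 hs.le
  rw [Real.dist_eq, abs_le]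
  constructor <;> linarith

theorem u11_kid (h : ℕ) (d : Cell) :
    dist (ctr (h + 1, d)) (ctr (h, u11_par d)) + sd (h + 1) / 2 ≤ sd h / 2 := by
  have h1 := u11_one d.1 (sd_pos h)
  have h2 := u11_one d.2 (sd_pos h)
  simp only [ctr, u11_par, sd_succ, Prod.dist_eq]
  have := max_le h1 h2
  linarith

theorem u11_anc {Good : ℕ × Cell → Prop} (k : ℕ) : ∀ c ∈ u11_A Good k, ∀ h ≤ k,
    ∃ c' ∈ u11_A Good h, dist (ctr (k, c)) (ctr (h, c')) + sd k / 2 ≤ sd h / 2 := by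
  induction k with
  | zero =>
    intro c hc h hh
    obtain rfl := Nat.le_zero.mp hh
    exact ⟨c, hc, by simp⟩
  | succ k ih =>
    intro c hc h hh
    rcases hh.eq_or_lt with rfl | hh
    · exact ⟨c, hc, by simp⟩
    · obtain ⟨c', h1, h2⟩ := ih _ (u11_mem_A.mp hc).1 h (Nat.lt_succ_iff.mp hh)
      refine ⟨c', h1, ?_⟩
      have h3 := u11_kid k c
      have h4 := dist_triangle (ctr (k + 1, c)) (ctr (k, u11_par c)) (ctr (h, c'))
      linarith

/-- the cell of a point -/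
noncomputable def u11_cell (h : ℕ) (p : Pt) : Cell := (⌊p.1 / sd h⌋, ⌊p.2 / sd h⌋)

theorem u11_floor (h : ℕ) (x : ℝ) : ⌊x / sd (h + 1)⌋ / 10 ^ 5 = ⌊x / sd h⌋ := by
  have h1 := Int.floor_div_natCast (x / sd (h + 1)) (10 ^ 5)
  have h2 : x / sd (h + 1) / ((10 ^ 5 : ℕ) : ℝ) = x / sd h := by
    have := (sd_pos h).ne'
    rw [sd_succ]
    push_cast
    field_simp
    norm_num
  rw [h2] at h1
  rw [h1]
  norm_num

theorem u11_par_cell (h : ℕ) (p : Pt) : u11_par (u11_cell (h + 1) p) = u11_cell h p := by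
  simp only [u11_par, u11_cell, u11_floor]

theorem u11_near1 {s : ℝ} (hs : 0 < s) (x : ℝ) :
    dist x (((⌊x / s⌋ : ℝ) + 1 / 2) * s) ≤ s / 2 := by
  have h1 := (le_div_iff₀ hs).mp (Int.floor_le (x / s))
  have h2 := (div_lt_iff₀ hs).mp (Int.lt_floor_add_one (x / s))
  rw [Real.dist_eq, abs_le]
  constructor <;> linarith

theorem u11_near (h : ℕ) (p : Pt) : dist p (ctr (h, u11_cell h p)) ≤ sd h / 2 := by
  simp only [ctr, u11_cell, Prod.dist_eq]
  exact max_le (u11_near1 (sd_pos h) _) (u11_near1 (sd_pos h) _)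

theorem u11_uniq1 {s x : ℝ} (hs : 0 < s) {n : ℤ} (hx : dist x (((n : ℝ) + 1 / 2) * s) < s / 2) :
    n = ⌊x / s⌋ := by
  rw [Real.dist_eq, abs_lt] at hx
  refine (Int.floor_eq_iff.mpr ⟨(le_div_iff₀ hs).mpr ?_, (div_lt_iff₀ hs).mpr ?_⟩).symm
  · linarith [hx.1]
  · linarith [hx.2]

theorem u11_uniq {c : ℕ × Cell} {p : Pt} (hp : dist p (ctr c) < sd c.1 / 2) :
    c.2 = u11_cell c.1 p := by
  simp only [ctr, Prod.dist_eq, max_lt_iff] at hp
  exact Prod.ext (u11_uniq1 (sd_pos _) hp.1) (u11_uniq1 (sd_pos _) hp.2)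

theorem u11_cell_mem {Good : ℕ × Cell → Prop} {p : Pt} (h0 : u11_cell 0 p = (0, 0)) (k : ℕ)
    (hk : ∀ h < k, Good (h, u11_cell h p)) : u11_cell k p ∈ u11_A Good k := by
  induction k with
  | zero => simp [u11_A, h0]
  | succ k ih =>
    rw [u11_mem_A, u11_par_cell]
    exact ⟨ih fun h hh => hk h (hh.trans k.lt_succ_self), hk k k.lt_succ_self⟩

theorem u11_cell_good {Good : ℕ × Cell → Prop} {p : Pt} (k : ℕ)
    (hk : u11_cell k p ∈ u11_A Good k) : ∀ h < k, Good (h, u11_cell h p) := by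
  induction k with
  | zero => exact fun h hh => absurd hh (Nat.not_lt_zero h)
  | succ k ih =>
    rw [u11_mem_A, u11_par_cell] at hk
    intro h hh
    rcases (Nat.lt_succ_iff.mp hh).eq_or_lt with rfl | hh
    · exact hk.2
    · exact ih hk.1 h hh

/-- union of the levels -/
noncomputable def u11_U (H : ℕ) (B : ℕ → Finset Cell) : Finset (ℕ × Cell) :=
  (range (H + 1)).biUnion fun h => {h} ×ˢ B h

theorem u11_mem_U {H : ℕ} {B : ℕ → Finset Cell} {c : ℕ × Cell} :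
    c ∈ u11_U H B ↔ c.1 ≤ H ∧ c.2 ∈ B c.1 := by
  simp only [u11_U, mem_biUnion, mem_range, mem_product, mem_singleton, Nat.lt_succ_iff]
  constructor
  · rintro ⟨h, h1, rfl, h2⟩
    exact ⟨h1, h2⟩
  · exact fun hc => ⟨_, hc.1, rfl, hc.2⟩

theorem u11_sum_U (H : ℕ) (B : ℕ → Finset Cell) (w : ℕ → ℝ) :
    ∑ c ∈ u11_U H B, w c.1 = ∑ h ∈ range (H + 1), (#(B h) : ℝ) * w h := by
  rw [u11_U, sum_biUnion]
  · refine sum_congr rfl fun h _ => ?_
    rw [sum_product]
    simp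
  · intro h _ h' _ hne
    refine disjoint_left.mpr fun c h1 h2 => hne ?_
    simp only [mem_product, mem_singleton] at h1 h2
    rw [← h1.1, ← h2.1]

theorem u11_split (Good : ℕ × Cell → Prop) (h : ℕ) :
    (#{c ∈ u11_A Good h | ¬ Good (h, c)} : ℝ) =
      #(u11_A Good h) - #(u11_A Good (h + 1)) / 10 ^ 10 := by
  have h1 := card_filter_add_card_filter_not (s := u11_A Good h) (fun c => Good (h, c))
  rw [u11_card_A, ← h1]
  push_cast
  ring

theorem u11_area (Good : ℕ × Cell → Prop) (k : ℕ) :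
    ∑ h ∈ range k, (#{c ∈ u11_A Good h | ¬ Good (h, c)} : ℝ) * sd h ^ 2 =
      1 - #(u11_A Good k) * sd k ^ 2 := by
  induction k with
  | zero => simp [u11_A, u11_sd0]
  | succ k ih =>
    rw [sum_range_succ, ih, u11_split, sd_succ]
    ring

theorem u11_count (Good : ℕ × Cell → Prop) (k : ℕ) :
    ∑ h ∈ range k, (#(u11_A Good h) : ℝ) * 1 ≤
      2 * ∑ h ∈ range k, (#{c ∈ u11_A Good h | ¬ Good (h, c)} : ℝ) * 1 + #(u11_A Good k) := by
  induction k with
  | zero => simp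
  | succ k ih =>
    rw [sum_range_succ, sum_range_succ, u11_split]
    have : (0 : ℝ) ≤ #(u11_A Good (k + 1)) := Nat.cast_nonneg _
    linarith

/-- Let `q = 10 ^ 5`. Define `A 0 = {(0, 0)}` and `A (h + 1)` as the union over the `c ∈ A h` with
`Good (h, c)` of the `q ^ 2` children `(q c.1 + x, q c.2 + y)`, `0 ≤ x, y < q`; then
`#A (h + 1) ≤ q ^ 2 i h` and `2 i h ≤ #A (h + 1)` where `i h` is the number of good cells of
`A h` (the parent of `c` is `(c.1 / q, c.2 / q)`). `Al` is the union of the `{h} × A h` for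
`h ≤ H`, `Lv` the set of nodes which are not good. `area` and `card` follow by telescoping. For
`cov` and `disj` use the cells `(⌊p.1 / sd h⌋, ⌊p.2 / sd h⌋)` of a point `p`: the cell of level
`h` is the parent of the cell of level `h + 1`, and `dist p (ctr c) < sd c.1 / 2` forces `c.2` to
be the cell of `p`. -/
theorem tree (Good : ℕ × Cell → Prop) {H : ℕ} (hH : ∀ c, ¬ Good (H, c)) :
    ∃ Al Lv, Tree Good Al Lv := by
  refine ⟨u11_U H (u11_A Good), u11_U H fun h => {c ∈ u11_A Good h | ¬ Good (h, c)},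
    fun c hc => ?_, fun c hc => ?_, fun c hc => ?_, fun c hc h hh => ?_, fun c hc => ?_,
    fun p hp => ?_, fun c hc c' hc' p h1 h2 => ?_, ?_, ?_⟩
  · rw [u11_mem_U] at hc ⊢
    exact ⟨hc.1, (mem_filter.mp hc.2).1⟩
  · exact (mem_filter.mp (u11_mem_U.mp hc).2).2
  · obtain ⟨h, d⟩ := c
    obtain ⟨h1, h2⟩ := u11_mem_U.mp hc
    cases h with
    | zero =>
      left
      simp only [u11_A, mem_singleton] at h2
      rw [h2]
      rfl
    | succ h =>
      obtain ⟨h3, h4⟩ := u11_mem_A.mp h2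
      refine Or.inr ⟨(h, u11_par d), u11_mem_U.mpr ⟨Nat.le_of_succ_le h1, h3⟩, h4, rfl, ?_⟩
      have h5 := u11_kid h d
      have h6 := sd_pos (h + 1)
      linarith
  · obtain ⟨h1, h2⟩ := u11_mem_U.mp hc
    obtain ⟨c', h3, h4⟩ := u11_anc c.1 c.2 h2 h hh
    refine ⟨(h, c'), u11_mem_U.mpr ⟨hh.trans h1, h3⟩, rfl, ?_⟩
    have h6 := sd_pos c.1
    linarith
  · obtain ⟨c', h3, h4⟩ := u11_anc c.1 c.2 (u11_mem_U.mp hc).2 0 (Nat.zero_le _)
    simp only [u11_A, mem_singleton] at h3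
    have h5 : ctr (0, c') = z0 := by simp [ctr, z0, h3, u11_sd0]
    rwa [h5, u11_sd0] at h4
  · have h0 : u11_cell 0 p = (0, 0) := by
      refine (u11_uniq (c := root) ?_).symm
      have h5 : ctr root = z0 := by simp [ctr, z0, root, u11_sd0]
      rw [h5]
      simpa only [root, u11_sd0] using hp
    have hex : ∃ h, ¬ Good (h, u11_cell h p) := ⟨H, hH _⟩
    refine ⟨(Nat.find hex, u11_cell _ p), u11_mem_U.mpr ⟨Nat.find_min' hex (hH _),
      mem_filter.mpr ⟨u11_cell_mem h0 _ fun h hh => not_not.mp (Nat.find_min hex hh),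
        Nat.find_spec hex⟩⟩, u11_near _ p⟩
  · have e1 := u11_uniq h1
    have e2 := u11_uniq h2
    obtain ⟨a1, a2⟩ := mem_filter.mp (u11_mem_U.mp hc).2
    obtain ⟨b1, b2⟩ := mem_filter.mp (u11_mem_U.mp hc').2
    rw [e1] at a1 a2
    rw [e2] at b1 b2
    have e3 : c.1 = c'.1 := le_antisymm
      (not_lt.mp fun hl => b2 (u11_cell_good _ a1 _ hl))
      (not_lt.mp fun hl => a2 (u11_cell_good _ b1 _ hl))
    exact Prod.ext e3 (by rw [e1, e2, e3])
  · rw [u11_sum_U H _ fun h => sd h ^ 2, u11_area]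
    have : (0 : ℝ) ≤ #(u11_A Good (H + 1)) * sd (H + 1) ^ 2 := by positivity
    linarith
  · have h1 := u11_count Good (H + 1)
    have h2 : #(u11_A Good (H + 1)) = 0 := by
      rw [u11_card_A, filter_false_of_mem fun c _ => hH c]
      simp
    rw [← u11_sum_U H _ fun _ => 1, ← u11_sum_U H _ fun _ => 1, h2] at h1
    simp only [sum_const, nsmul_eq_mul, mul_one, Nat.cast_zero, add_zero] at h1
    exact_mod_cast h1

theorem rho_rad (Al : Finset (ℕ × Cell)) : Rad (rho Al) := by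
  refine ⟨fun p => (lt_fold_min _).mpr ⟨one_pos, fun c _ => ?_⟩, fun p q => ?_⟩
  · exact add_pos_of_nonneg_of_pos dist_nonneg (sd_pos _)
  · refine sub_le_iff_le_add.mp ((le_fold_min _).mpr ⟨?_, fun c hc => ?_⟩)
    · have h1 : rho Al p ≤ 1 := (fold_min_le _).mpr (Or.inl le_rfl)
      linarith [dist_nonneg (x := p) (y := q)]
    · have h1 : rho Al p ≤ dist p (ctr c) + sd c.1 := (fold_min_le _).mpr (Or.inr ⟨c, hc, le_rfl⟩)
      linarith [dist_triangle p q (ctr c)]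

theorem rho_le_one (Al : Finset (ℕ × Cell)) (p : Pt) : rho Al p ≤ 1 := by
  exact (fold_min_le _).mpr (Or.inl le_rfl)

theorem rho_le {Al : Finset (ℕ × Cell)} {c : ℕ × Cell} (hc : c ∈ Al) (p : Pt) :
    rho Al p ≤ dist p (ctr c) + sd c.1 := by
  exact (fold_min_le _).mpr (Or.inr ⟨c, hc, le_rfl⟩)

/-- Covering set: a grid with mesh `1 / (3 C)` of the square of radius `8000` around `z0`, and for
every node `c` a grid with mesh `sd c.1 / (3 C)` of the square of radius `2 * 10 ^ 5 * sd c.1`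
around `ctr c`. If `D = rho Al p < 1` is attained at the node `c`, take the least `h` with
`sd h ≤ D` (`1 ≤ h ≤ c.1`, `D < 10 ^ 5 * sd h`) and the node of level `h` given by `Tree.anc`. -/
theorem cov_tree {C : ℝ} (hC : 1 ≤ C) : ∃ B : ℝ, 0 ≤ B ∧ ∀ (ι : Type) (F : Fam ι)
    (Good : ℕ × Cell → Prop) (Al Lv : Finset (ℕ × Cell)) (S : Finset (Tri ι)),
    Tree Good Al Lv → (∀ t ∈ S, dist (vt F t) z0 ≤ 8000) →
    Cov F (fun p => rho Al p / C) S (B * (1 + #Al)) := by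
  have C0 : 0 < C := one_pos.trans_le hC
  obtain ⟨N, hN⟩ := exists_nat_ge (6 * 10 ^ 5 * C)
  have N0 : (0 : ℝ) < N := lt_of_lt_of_le (by positivity) hN
  have N1 : 0 < N := by exact_mod_cast N0
  refine ⟨(2 * N + 1) ^ 2, by positivity, fun ι F Good Al Lv S hT hS => ?_⟩
  obtain ⟨Y0, c0, hY0⟩ := grid z0 (show (0 : ℝ) ≤ 8000 by norm_num) N1
  choose Y cY hY using fun c : ℕ × Cell =>
    grid (ctr c) (show 0 ≤ 2 * 10 ^ 5 * sd c.1 by have := sd_pos c.1; positivity) N1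
  have key : ∀ d D R : ℝ, d ≤ R / N → R ≤ 2 * 10 ^ 5 * D → 0 ≤ D → 3 * d ≤ D / C := by
    intro d D R h1 h2 h3
    rw [le_div_iff₀ N0] at h1
    rw [le_div_iff₀ C0]
    by_contra hc
    have h4 : D < 3 * d * C := not_le.mp hc
    have h5 : 0 < d := by
      by_contra h5
      nlinarith [not_lt.mp h5]
    nlinarith [mul_le_mul_of_nonneg_left hN h5.le]
  refine ⟨Y0 ∪ Al.biUnion Y, ?_, fun t ht => ?_⟩
  · have h1 : #(Y0 ∪ Al.biUnion Y) ≤ (2 * N + 1) ^ 2 * (1 + #Al) := by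
      have h2 := card_biUnion_le_card_mul Al Y _ fun c _ => cY c
      have h3 := card_union_le Y0 (Al.biUnion Y)
      nlinarith
    exact_mod_cast h1
  · obtain ⟨p, hp⟩ : ∃ p, p = vt F t := ⟨_, rfl⟩
    have hz := hS t ht
    rw [← hp] at hz ⊢
    have D0 := (rho_rad Al).1 p
    by_cases h1 : 1 ≤ rho Al p
    · obtain ⟨y, hy, h2⟩ := hY0 p hz
      exact ⟨y, mem_union_left _ hy, key _ _ _ h2 (by linarith) D0.le⟩
    · obtain ⟨c, hc, h2⟩ := ((fold_min_le (rho Al p)).mp (le_refl (rho Al p))).resolve_left h1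
      have hd : 0 ≤ dist p (ctr c) := dist_nonneg
      have h3 : sd c.1 ≤ rho Al p := by linarith
      have hex : ∃ h, sd h ≤ rho Al p := ⟨_, h3⟩
      have h4 := Nat.find_spec hex
      obtain ⟨c', hc', e, h5⟩ := hT.anc c hc _ (Nat.find_min' hex h3)
      have h6 : rho Al p < 10 ^ 5 * sd (Nat.find hex) := by
        cases hk : Nat.find hex with
        | zero =>
          rw [hk, u11_sd0] at h4
          exact absurd h4 h1
        | succ k =>
          have h7 := not_le.mp (Nat.find_min hex (k.lt_succ_self.trans_eq hk.symm))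
          rw [sd_succ]
          linarith
      rw [← e] at h4 h5 h6
      have h7 := sd_pos c'.1
      have h8 := sd_pos c.1
      obtain ⟨y, hy, h9⟩ := hY c' p (by linarith [dist_triangle p (ctr c) (ctr c')])
      exact ⟨y, mem_union_right _ (mem_biUnion.mpr ⟨c', hc', hy⟩),
        key _ _ _ h9 (by linarith) D0.le⟩

end Pool.Agent.MP_38296a_co.H21.URn

end FileUR11
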