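import Pool.Agent.MP_38296a_co.H21.URa

section FileUR7

set_option autoImplicit false

namespace Pool.Agent.MP_38296a_co.H21.URn

open Finset Filter Classical Topology

/-! ### The local laws. Notation: `χ = bump 0 1`, `G = LL F v χ`. -/

section
variable {ι : Type} {F : Fam ι} {v : Fin 3 → ℝ} {P K τ a : ℝ}

theorem u7_sqrt (h : Loc F v P K τ a) : 1 ≤ √(LL F v (bump 0 1)) ∧
    √(LL F v (bump 0 1)) * √(LL F v (bump 0 1)) = LL F v (bump 0 1) := by
  refine ⟨?_, Real.mul_self_sqrt (LL_nonneg F h.wt fun p => (bump_mem _ _ p).1)⟩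
  have h1 := h.mass
  have h2 := Real.sqrt_nonneg (LL F v (bump 0 1))
  have h3 : τ * P ^ 2 ≤ 1 := by
    have := pow_le_one₀ (n := 2) h.P0.le h.P1
    nlinarith [h.t0, h.t1, sq_nonneg P]
  nlinarith [h.K0]

/-- from `mass`: `1 ≤ √G`, `K ≤ τ P ^ 2 √G` -/
theorem Loc.big (h : Loc F v P K τ a) : 1 ≤ LL F v (bump 0 1) ∧
    1 ≤ τ * P * LL F v (bump 0 1) ∧ K ≤ P * LL F v (bump 0 1) := by
  obtain ⟨h1, h2⟩ := u7_sqrt h
  have h3 := h.mass
  generalize √(LL F v (bump 0 1)) = g at h1 h2 h3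
  rw [← h2]
  have hP := h.P0
  have hP1 := h.P1
  have ht := h.t0
  have ht1 := h.t1
  have hK := h.K0
  have h4 : P * g ≤ g * g := mul_le_mul_of_nonneg_right (hP1.trans h1) (by linarith)
  have h5 : τ * P ^ 2 * g ≤ τ * P * (g * g) := by
    calc τ * P ^ 2 * g = τ * P * (P * g) := by ring
      _ ≤ _ := mul_le_mul_of_nonneg_left h4 (by positivity)
  have h6 : τ * P * (g * g) ≤ P * (g * g) := by
    rw [mul_assoc]
    exact mul_le_of_le_one_left (by positivity) (by linarith)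
  exact ⟨by nlinarith, by linarith, by linarith⟩

theorem Loc.wt_low (h : Loc F v P K τ a) (i : Fin 3) : P / 6 ≤ v i := by
  have h1 := h.big.1
  refine URn.wt_low h.ok (by linarith [h.t1]) h.wt (Φ := bump 0 1) (fun p => (bump_mem _ _ p).1)
    (by linarith) ?_ i
  have h2 : (1 - τ) * P * LL F v (bump 0 1) ≤ TT F F.T (bump 0 1) := h.ne
  have h3 : 0 ≤ P * LL F v (bump 0 1) := mul_nonneg h.P0.le (by linarith)
  nlinarith [h.t1]

/-- the error terms -/
theorem u7_err (h : Loc F v P K τ a) {B : ℝ} (hB : 0 ≤ B) :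
    τ * #{t ∈ F.T | dist (vt F t) 0 ≤ 2} + K * (B * √(LL F v (bump 0 1)) / P) ≤
      τ * (98 + 3 / a + B) * P * LL F v (bump 0 1) := by
  have hP := h.P0
  have ht := h.t0
  have ha := h.a0
  have h1 := card_near (z := 0) (r := 1) (S := {t ∈ F.T | dist (vt F t) 0 ≤ 2}) h.wt hP.le h.K0
    (by linarith [h.t1]) one_pos h.ub (filter_subset _ _) fun t ht => by
      rw [mul_one]; exact (mem_filter.1 ht).2
  have h2 : a * LL F v (sqi 0 (4 * 1)) ≤ LL F v (bump 0 1) :=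
    le_trans h.dbl (LL_mono F h.wt fun p => sqi_le_bump one_pos (by norm_num) p)
  have h3 : LL F v (sqi 0 (4 * 1)) ≤ LL F v (bump 0 1) / a := by
    rw [le_div_iff₀ ha]; linarith
  have h4 := h.big.2.2
  obtain ⟨h5, h6⟩ := u7_sqrt h
  have h7 := h.mass
  generalize √(LL F v (bump 0 1)) = g at h5 h6 h7
  have h8 : K * (B * g / P) ≤ τ * B * P * LL F v (bump 0 1) := by
    calc K * (B * g / P) ≤ τ * P ^ 2 * g * (B * g / P) :=
          mul_le_mul_of_nonneg_right (by linarith) (by positivity)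
      _ = _ := by rw [← h6]; field_simp
  have h9 : (#{t ∈ F.T | dist (vt F t) 0 ≤ 2} : ℝ) ≤ (98 + 3 / a) * P * LL F v (bump 0 1) := by
    have := mul_le_mul_of_nonneg_left h3 (show 0 ≤ 3 * P by positivity)
    refine h1.trans ?_
    calc _ ≤ 3 * P * (LL F v (bump 0 1) / a) + 98 * (P * LL F v (bump 0 1)) := by linarith
      _ = _ := by ring
  have h10 := mul_le_mul_of_nonneg_left h9 ht.le
  calc _ ≤ τ * ((98 + 3 / a) * P * LL F v (bump 0 1)) + τ * B * P * LL F v (bump 0 1) := by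
        linarith
    _ = _ := by ring

theorem u7_wt (hv : Wt v) {i k : Fin 3} (hik : i ≠ k) {s : ℝ} (hs : 0 < s) :
    Wt fun l => v l * if l = i then s else if l = k then s⁻¹ else 1 := by
  constructor
  · intro l
    refine mul_pos (hv.1 l) ?_
    split_ifs
    · exact hs
    · exact inv_pos.2 hs
    · exact one_pos
  · have h1 := hv.2
    have h2 : s * s⁻¹ = 1 := mul_inv_cancel₀ hs.ne'
    fin_cases i <;> fin_cases k <;> simp at hik ⊢ <;>
      linear_combination s * s⁻¹ * h1 + h2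

theorem u7_mu (v c : Fin 3 → ℝ) (i j : Fin 3) (Φ : Pt → ℝ) :
    mu F (fun l => v l * c l) i j Φ = c i * c j * mu F v i j Φ := by
  unfold mu
  ring

theorem u7_alg {x y z G e τ : ℝ} (hx : 0 ≤ x) (hy : 0 ≤ y) (hz : 0 ≤ z) (hG : x + y + z ≤ 3 * G)
    (he : 0 < e) (hτ : 0 ≤ τ) (h : ∀ s : ℝ, 0 < s → (x + y + z) / 3 - e * e * G ≤
      (1 + τ) * ((s * x + s⁻¹ * y + z) / 3) + (e * e - 2 * τ) * G) : x - y ≤ 15 * e * G := by
  rcases le_or_gt e (1 / 2) with h1 | h1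
  · have h2 := h (1 - e) (by linarith)
    have h3 : (1 - e)⁻¹ ≤ 1 + e + 2 * e * e := by
      rw [inv_le_iff_one_le_mul₀ (by linarith)]
      nlinarith [mul_nonneg (mul_nonneg he.le he.le) (show 0 ≤ 1 - 2 * e by linarith)]
    have h4 : (1 - e)⁻¹ * y ≤ (1 + e + 2 * e * e) * y := mul_le_mul_of_nonneg_right h3 hy
    have h5 : (1 - e) * x + (1 - e)⁻¹ * y + z ≤ 6 * G := by
      have a1 : (1 + e + 2 * e * e) * y ≤ 2 * y :=
        mul_le_mul_of_nonneg_right (by nlinarith) hy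
      nlinarith [mul_nonneg he.le hx]
    have h6 := mul_le_mul_of_nonneg_left h5 hτ
    have h7 : e * (x - y) ≤ e * (2 * e * y + 6 * e * G) := by nlinarith
    have h8 := le_of_mul_le_mul_left h7 he
    have h9 : e * y ≤ e * (3 * G) := mul_le_mul_of_nonneg_left (by linarith) he.le
    have h10 : 0 ≤ e * G := mul_nonneg he.le (by linarith)
    nlinarith
  · have h10 : 0 ≤ G := by linarith
    nlinarith

/-- Let `S` be the set of triples with vertex within `2` of the origin; `card_near` and `dbl` give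
`#S ≤ (3 / a + 98) P G`, so `τ #S + K W ≤ τ (3 / a + 98 + B) P G`. The second claim is `sel`.
For the first one put `x = mu i j`, `y = mu j k`, `z = mu k i` (of `Φ χ`, all in `[0, 3 G]`) and
apply `ub` with the weights `v i * s`, `v j`, `v k / s`: `x + y ≤ s x + y / s + 9 E G` for
`s ∈ [1 / 2, 2]`; `s = 1 - √E` gives `x - y ≤ 15 √E G` if `E ≤ 1 / 4` (otherwise trivial);
the other inequality by symmetry (`mu_comm`). -/
theorem ll0 (h : Loc F v P K τ a) {ρ Φ : Pt → ℝ} {B : ℝ} (hρ : Rad ρ) (h1 : ∀ p, ρ p ≤ 1)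
    (hΦ : Adm ρ Φ) (hB : 0 ≤ B)
    (hc : Cov F (fun p => ρ p / 2) {t ∈ F.T | dist (vt F t) 0 ≤ 2}
      (B * √(LL F v (bump 0 1)) / P)) :
    (∀ i j k : Fin 3, i ≠ j → j ≠ k → i ≠ k →
      |mu F v i j (fun p => Φ p * bump 0 1 p) - mu F v j k fun p => Φ p * bump 0 1 p| ≤
        15 * √(τ * (100 + 3 / a + B)) * LL F v (bump 0 1)) ∧
    P * (LL F v (fun p => Φ p * bump 0 1 p) - τ * (100 + 3 / a + B) * LL F v (bump 0 1)) ≤
      TT F F.T fun p => Φ p * bump 0 1 p := by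
  have hP := h.P0
  have ht := h.t0
  have ha := h.a0
  have he : τ ≤ 1 / 10 := by linarith [h.t1]
  have hχ : Adm ρ (bump 0 1) := (adm_bump 0 one_pos).mono h1
  have herr := u7_err h hB
  have hsub : {t ∈ F.T | dist (vt F t) 0 ≤ 2} ⊆ F.T := filter_subset _ _
  have h0 : ∀ p, 0 ≤ Φ p * bump 0 1 p := fun p => mul_nonneg (hΦ.1 p).1 (bump_mem _ _ p).1
  have hne : (1 - τ) * P * LL F v (bump 0 1) ≤
      TT F {t ∈ F.T | dist (vt F t) 0 ≤ 2} (bump 0 1) := by
    rw [TT_eq_of_subset F hsub fun t ht hn => bump_zero one_pos ?_]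
    · exact h.ne
    · rw [mul_one]
      exact (not_le.1 fun k => hn (mem_filter.2 ⟨ht, k⟩)).le
  have hsel := sel h.wt hP.le ht.le h.ub hρ hχ hΦ hsub hc hne
  have low : P * (LL F v (fun p => Φ p * bump 0 1 p) -
      τ * (100 + 3 / a + B) * LL F v (bump 0 1)) ≤
        TT F {t ∈ F.T | dist (vt F t) 0 ≤ 2} fun p => Φ p * bump 0 1 p := by
    linarith
  refine ⟨?_, low.trans (TT_le_of_subset F hsub h0)⟩
  have hE : 0 < τ * (100 + 3 / a + B) := by positivity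
  have hG : LL F v (fun p => Φ p * bump 0 1 p) ≤ LL F v (bump 0 1) :=
    LL_mono F h.wt fun p => mul_le_of_le_one_left (bump_mem _ _ p).1 (hΦ.1 p).2
  have key : ∀ i j k : Fin 3, i ≠ j → j ≠ k → i ≠ k →
      mu F v i j (fun p => Φ p * bump 0 1 p) - mu F v j k (fun p => Φ p * bump 0 1 p) ≤
        15 * √(τ * (100 + 3 / a + B)) * LL F v (bump 0 1) := by
    intro i j k hij hjk hik
    have e1 := LL_eq h.ok he v hij hjk hik fun p => Φ p * bump 0 1 p
    refine u7_alg (z := mu F v k i fun p => Φ p * bump 0 1 p) (τ := τ)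
      (mu_nonneg F h.wt _ _ h0) (mu_nonneg F h.wt _ _ h0) (mu_nonneg F h.wt _ _ h0)
      (by linarith) (Real.sqrt_pos.2 hE) ht.le fun s hs => ?_
    have h2 := h.ub _ (u7_wt h.wt hik hs) _ _ _ _ (hρ.div (C := 2) one_le_two) (hΦ.mul hχ) hsub hc
    rw [LL_eq h.ok he _ hij hjk hik, u7_mu, u7_mu, u7_mu] at h2
    simp only [if_true, if_neg hij.symm, if_neg hjk, if_neg hik.symm, mul_one, one_mul,
      inv_mul_cancel₀ hs.ne'] at h2
    rw [Real.mul_self_sqrt hE.le, ← e1]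
    refine le_of_mul_le_mul_left ?_ hP
    linarith
  intro i j k hij hjk hik
  rw [abs_le]
  refine ⟨?_, key i j k hij hjk hik⟩
  have := key k j i hjk.symm hij.symm hik.symm
  rw [mu_comm h.ok he v hjk.symm, mu_comm h.ok he v hij.symm] at this
  linarith

end

/-- `nl i (1 / 4) * nl j (1 / 4) ≤ mu i j χ ≤ 3 G` (`nl_le_mu`). `ll0` for
`Φ = bump 0 (1 / 10 ^ 4)` with the constant scale `1 / 10 ^ 4` (`cov_const`, `N = 120000`,
`1 ≤ √G / P`) and `dbl` give `mu i j (Φ χ) ≥ a G - 15 √E G ≥ a G / 2`, and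
`mu i j (Φ χ) ≤ nl i (1 / 2000) * nl j (1 / 2000)` (`mu_le_nl`). -/
theorem bounds {a : ℝ} (ha : 0 < a) : ∃ τ0 : ℝ, 0 < τ0 ∧ ∀ (ι : Type) (F : Fam ι)
    (v : Fin 3 → ℝ) (P K τ : ℝ), Loc F v P K τ a → τ ≤ τ0 → ∀ i,
      nl F v i 0 (1 / 4) ≤ 5 / a * √(LL F v (bump 0 1)) ∧
      a ^ 2 / 10 * √(LL F v (bump 0 1)) ≤ nl F v i 0 (1 / 2000) := by
  obtain ⟨B, hB⟩ : ∃ B : ℝ, B = (2 * ((120000 : ℕ) : ℝ) + 1) ^ 2 := ⟨_, rfl⟩
  have hB0 : 0 ≤ B := by rw [hB]; positivity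
  have hC : 0 < 100 + 3 / a + B := by positivity
  refine ⟨(a / 20) ^ 2 / (100 + 3 / a + B), by positivity, fun ι F v P K τ h hτ => ?_⟩
  have hP := h.P0
  have he : τ ≤ 1 / 10 := by linarith [h.t1]
  obtain ⟨g1, g2⟩ := u7_sqrt h
  have hG := h.big.1
  have hc : Cov F (fun p => (fun _ : Pt => (1 / 10 ^ 4 : ℝ)) p / 2)
      {t ∈ F.T | dist (vt F t) 0 ≤ 2} (B * √(LL F v (bump 0 1)) / P) := by
    refine (cov_const F (z := 0) (R := 2) (N := 120000) zero_le_two (by norm_num)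
      (fun t ht => (mem_filter.1 ht).2) fun t _ => by norm_num).mono Subset.rfl
        (fun _ => le_rfl) ?_
    rw [← hB, le_div_iff₀ hP]
    exact mul_le_mul_of_nonneg_left (h.P1.trans g1) hB0
  have h1 := (ll0 h (rad_const (r := 1 / 10 ^ 4) (by norm_num)) (fun _ => by norm_num)
    (adm_bump 0 (by norm_num)) hB0 hc).1
  have h2 : √(τ * (100 + 3 / a + B)) ≤ a / 20 := by
    rw [Real.sqrt_le_left (by positivity), ← le_div_iff₀ hC]
    exact hτ
  have h3 : a * LL F v (bump 0 1) ≤ LL F v fun p => bump 0 (1 / 10 ^ 4) p * bump 0 1 p := by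
    calc a * LL F v (bump 0 1) ≤ a * LL F v (sqi 0 (4 * 1)) := mul_le_mul_of_nonneg_left
          (LL_mono F h.wt fun p => bump_le_sqi one_pos (by norm_num) p) ha.le
      _ ≤ LL F v (sqi 0 (1 / 10 ^ 4)) := h.dbl
      _ ≤ _ := LL_mono F h.wt fun p => by
          by_cases hp : dist p 0 ≤ 1 / 10 ^ 4
          · rw [bump_one (by norm_num) hp, bump_one one_pos (hp.trans (by norm_num)), mul_one]
            exact (sqi_mem _ _ p).2
          · rw [sqi, ind, if_neg hp]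
            exact mul_nonneg (bump_mem _ _ p).1 (bump_mem _ _ p).1
  have h4 : 15 * √(τ * (100 + 3 / a + B)) * LL F v (bump 0 1) ≤
      15 * (a / 20) * LL F v (bump 0 1) :=
    mul_le_mul_of_nonneg_right (by linarith) (by linarith)
  have n0 : ∀ i r, 0 ≤ nl F v i 0 r := fun i r => wc_nonneg F h.wt i _
  have n1 : ∀ i {r r' : ℝ}, r ≤ r' → nl F v i 0 r ≤ nl F v i 0 r' := fun i r r' hr =>
    wc_mono F h.wt i fun _ _ k => k.trans hr
  have low : ∀ i j k : Fin 3, i ≠ j → j ≠ k → i ≠ k →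
      a / 2 * LL F v (bump 0 1) ≤ nl F v i 0 (1 / 2000) * nl F v j 0 (1 / 2000) := by
    intro i j k hij hjk hik
    have e1 := LL_eq h.ok he v hij hjk hik fun p => bump 0 (1 / 10 ^ 4) p * bump 0 1 p
    have a1 := (abs_le.1 (h1 i j k hij hjk hik)).1
    have a2 := (abs_le.1 (h1 k i j hik.symm hij hjk.symm)).2
    calc a / 2 * LL F v (bump 0 1) ≤
          mu F v i j fun p => bump 0 (1 / 10 ^ 4) p * bump 0 1 p := by linarith
      _ ≤ mu F v i j (sqi 0 (2 / 10 ^ 4)) := mu_mono F h.wt i j fun p =>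
          (mul_le_of_le_one_right (bump_mem _ _ p).1 (bump_mem _ _ p).2).trans
            (bump_le_sqi (by norm_num) (by norm_num) p)
      _ ≤ _ := (mu_le_nl h.ok he h.wt hij 0 _).trans
          (mul_le_mul (n1 i (by norm_num)) (n1 j (by norm_num)) (n0 _ _) (n0 _ _))
  have up : ∀ i j k : Fin 3, i ≠ j → j ≠ k → i ≠ k →
      nl F v i 0 (1 / 4) * nl F v j 0 (1 / 4) ≤ 3 * LL F v (bump 0 1) := by
    intro i j k hij hjk hik
    have e1 := LL_eq h.ok he v hij hjk hik (bump 0 1)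
    have a1 := mu_nonneg F h.wt j k fun p => (bump_mem 0 1 p).1
    have a2 := mu_nonneg F h.wt k i fun p => (bump_mem 0 1 p).1
    have a3 := (nl_le_mu h.ok he h.wt hij 0 (1 / 4)).trans
      (mu_mono F h.wt i j fun p => sqi_le_bump (z' := 0) one_pos (by norm_num) p)
    linarith
  have d1 : ∀ i : Fin 3, i ≠ i + 1 ∧ i + 1 ≠ i + 2 ∧ i ≠ i + 2 := by decide
  have top : ∀ i, nl F v i 0 (1 / 4) ≤ 5 / a * √(LL F v (bump 0 1)) := by
    intro i
    obtain ⟨b1, b2, b3⟩ := d1 i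
    have a1 := up i (i + 1) (i + 2) b1 b2 b3
    have a2 := up i (i + 2) (i + 1) b3 b2.symm b1
    have a3 := (low (i + 1) (i + 2) i b2 b3.symm b1.symm).trans
      (mul_le_mul (n1 (i + 1) (r' := 1 / 4) (by norm_num))
        (n1 (i + 2) (r' := 1 / 4) (by norm_num)) (n0 _ _) (n0 _ _))
    have a4 := mul_le_mul a1 a2 (mul_nonneg (n0 _ _) (n0 _ _)) (by linarith)
    have a5 := mul_le_mul_of_nonneg_left a3 (mul_self_nonneg (nl F v i 0 (1 / 4)))
    have a6 : nl F v i 0 (1 / 4) * nl F v i 0 (1 / 4) * a ≤ 18 * LL F v (bump 0 1) := by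
      refine le_of_mul_le_mul_right ?_ (show 0 < LL F v (bump 0 1) by linarith)
      linarith
    rw [div_mul_eq_mul_div, le_div_iff₀ ha]
    refine abs_le_of_sq_le_sq' ?_ (by linarith) |>.2
    have a7 := mul_le_mul a6 h.a1 ha.le (by linarith)
    nlinarith
  intro i
  refine ⟨top i, ?_⟩
  obtain ⟨b1, b2, b3⟩ := d1 i
  have a1 := (low i (i + 1) (i + 2) b1 b2 b3).trans (mul_le_mul_of_nonneg_left
    ((n1 (i + 1) (r' := 1 / 4) (by norm_num)).trans (top (i + 1))) (n0 _ _))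
  generalize √(LL F v (bump 0 1)) = g at g1 g2 a1
  rw [← g2] at a1
  refine le_of_mul_le_mul_right ?_ (show 0 < 5 / a * g by positivity)
  calc a ^ 2 / 10 * g * (5 / a * g) = a / 2 * (g * g) := by field_simp; ring
    _ ≤ _ := a1

end Pool.Agent.MP_38296a_co.H21.URn

end FileUR7

section FileUR7b

set_option autoImplicit false

namespace Pool.Agent.MP_38296a_co.H21.URn

open Finset Filter Classical Topology

theorem u7b_card {α β : Type} (S : Finset α) (P : α → Prop) (g : α → Finset β) {B : ℕ}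
    (h : ∀ a, #(g a) ≤ B) :
    ∃ Y : Finset β, (#Y : ℝ) ≤ B * cnt S P ∧ ∀ a ∈ S, P a → g a ⊆ Y := by
  refine ⟨{a ∈ S | P a}.biUnion g, ?_, fun a ha k =>
    subset_biUnion_of_mem g (mem_filter.2 ⟨ha, k⟩)⟩
  have := card_biUnion_le_card_mul {a ∈ S | P a} g B fun a _ => h a
  rw [cnt, mul_comm]
  exact_mod_cast this

/-- Covering set: a grid of the square of radius `2` with mesh `1 / (120 C)` for the vertices at
distance `D ≥ 1 / 20` from `z`; for each line `l` of class `0` or `1` with height at most `1 / 4`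
at the origin a grid of the square with centre `z`, radius `4 H`, `H = |hgt z l|`, with
`N ≥ 51 C`. A vertex at distance `D < 1 / 20` has such a line with `D ≤ 4 H` (`dist_cr` with the
larger of the two heights) and `H ≤ 21 / 10 * D` (`hgt_lip`). -/
theorem cov_rad {C : ℝ} (hC : 1 ≤ C) : ∃ B : ℝ, 0 ≤ B ∧ ∀ (ι : Type) (F : Fam ι) (ε : ℝ)
    (z : Pt) (u : ℝ), F.Ok ε → ε ≤ 1 / 10 → dist z 0 ≤ 1 / 100 → 0 < u →
    Cov F (fun p => min 1 (dist p z + u) / C / 2) {t ∈ F.T | dist (vt F t) 0 ≤ 2}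
      (B * (1 + cnt (cl F.T 0) (fun l => |hgt F 0 l| ≤ 1 / 4) +
        cnt (cl F.T 1) fun l => |hgt F 0 l| ≤ 1 / 4)) := by
  obtain ⟨N, hN⟩ : ∃ N : ℕ, 240 * C ≤ N := exists_nat_ge _
  have hC0 : 0 < C := by linarith
  have hN0 : (0 : ℝ) < N := by linarith
  have hN1 : 0 < N := by exact_mod_cast hN0
  refine ⟨((2 * N + 1) ^ 2 : ℕ), Nat.cast_nonneg _, fun ι F ε z u h he hz hu => ?_⟩
  obtain ⟨Y0, a1, a2⟩ := grid (0 : Pt) (R := 2) (by norm_num) hN1
  choose g g1 g2 using fun l : ι => grid z (R := 4 * |hgt F z l|) (by positivity) hN1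
  obtain ⟨Y1, b1, b2⟩ := u7b_card (cl F.T 0) (fun l => |hgt F 0 l| ≤ 1 / 4) g g1
  obtain ⟨Y2, c1, c2⟩ := u7b_card (cl F.T 1) (fun l => |hgt F 0 l| ≤ 1 / 4) g g1
  refine ⟨Y0 ∪ Y1 ∪ Y2, ?_, fun t ht => ?_⟩
  · have e : #(Y0 ∪ Y1 ∪ Y2) ≤ #Y0 + #Y1 + #Y2 :=
      (card_union_le _ _).trans (Nat.add_le_add_right (card_union_le _ _) _)
    have e1 : (#(Y0 ∪ Y1 ∪ Y2) : ℝ) ≤ #Y0 + #Y1 + #Y2 := by exact_mod_cast e
    have e2 : (#Y0 : ℝ) ≤ ((2 * N + 1) ^ 2 : ℕ) := by exact_mod_cast a1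
    linarith
  obtain ⟨ht, hd⟩ := mem_filter.1 ht
  have hD : 0 ≤ dist (vt F t) z := dist_nonneg
  by_cases hs : 1 / 20 ≤ dist (vt F t) z
  · obtain ⟨y, y1, y2⟩ := a2 _ hd
    refine ⟨y, mem_union_left _ (mem_union_left _ y1), ?_⟩
    have e : 1 / 20 ≤ min 1 (dist (vt F t) z + u) := le_min (by norm_num) (by linarith)
    rw [le_div_iff₀ hN0] at y2
    rw [le_div_iff₀ two_pos, le_div_iff₀ hC0]
    nlinarith [mul_le_mul_of_nonneg_left hN (dist_nonneg (x := vt F t) (y := y))]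
  · have key : ∀ i : Fin 3, dist (vt F t) z ≤ 4 * |hgt F z (t i)| → |hgt F 0 (t i)| ≤ 1 / 4 ∧
        ∃ y ∈ g (t i), 3 * dist (vt F t) y ≤ min 1 (dist (vt F t) z + u) / C / 2 := by
      intro i hi
      have e1 := hgt_lip h he (mem_cl ht i) z (vt F t)
      have e2 := hgt_lip h he (mem_cl ht i) 0 (vt F t)
      rw [hgt_vt h he ht i, sub_zero] at e1 e2
      have e3 := dist_triangle (vt F t) z 0
      refine ⟨by linarith, ?_⟩
      obtain ⟨y, y1, y2⟩ := g2 (t i) _ hi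
      refine ⟨y, y1, ?_⟩
      have e : dist (vt F t) z ≤ min 1 (dist (vt F t) z + u) := le_min (by linarith) (by linarith)
      rw [le_div_iff₀ hN0] at y2
      rw [le_div_iff₀ two_pos, le_div_iff₀ hC0]
      nlinarith [mul_le_mul_of_nonneg_left hN (dist_nonneg (x := vt F t) (y := y))]
    rcases le_total |hgt F z (t 0)| |hgt F z (t 1)| with k | k
    · obtain ⟨k1, y, y1, y2⟩ := key 1
        (dist_cr h he (by decide) (mem_cl ht 0) (mem_cl ht 1) k le_rfl)
      exact ⟨y, mem_union_right _ (c2 _ (mem_cl ht 1) k1 y1), y2⟩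
    · obtain ⟨k1, y, y1, y2⟩ := key 0
        (dist_cr h he (by decide) (mem_cl ht 0) (mem_cl ht 1) le_rfl k)
      exact ⟨y, mem_union_left _ (mem_union_right _ (b2 _ (mem_cl ht 0) k1 y1)), y2⟩

/-- `ll0` with the scale `min 1 (dist p z + u) / C`; the number of lines of class `i` with height
at most `1 / 4` is `nl / v i ≤ 30 / a * √G / P` by `bounds` and `Loc.wt_low`; `τ ≤ √τ`. -/
theorem ll {a C : ℝ} (ha : 0 < a) (hC : 1 ≤ C) : ∃ B τ0 : ℝ, 0 ≤ B ∧ 0 < τ0 ∧ ∀ (ι : Type)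
    (F : Fam ι) (v : Fin 3 → ℝ) (P K τ : ℝ), Loc F v P K τ a → τ ≤ τ0 → ∀ (z : Pt) (u : ℝ)
    (Φ : Pt → ℝ), dist z 0 ≤ 1 / 100 → 0 < u → Adm (fun p => (dist p z + u) / C) Φ →
    (∀ i j k : Fin 3, i ≠ j → j ≠ k → i ≠ k →
      |mu F v i j (fun p => Φ p * bump 0 1 p) - mu F v j k fun p => Φ p * bump 0 1 p| ≤
        B * √τ * LL F v (bump 0 1)) ∧
    P * (LL F v (fun p => Φ p * bump 0 1 p) - B * √τ * LL F v (bump 0 1)) ≤
      TT F F.T fun p => Φ p * bump 0 1 p := by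
  obtain ⟨B0, hB0, hc⟩ := cov_rad hC
  obtain ⟨τ0, h0, hb⟩ := bounds ha
  have hB1 : 0 ≤ B0 * (1 + 60 / a) := by positivity
  obtain ⟨X, hX⟩ : ∃ X, X = 100 + 3 / a + B0 * (1 + 60 / a) := ⟨_, rfl⟩
  have hX0 : 0 ≤ X := by rw [hX]; positivity
  refine ⟨15 * √X + X, τ0, by positivity, h0, fun ι F v P K τ h hτ z u Φ hz hu hΦ => ?_⟩
  have hC0 : 0 < C := by linarith
  have hP := h.P0
  have hG := h.big.1
  have hG1 : 1 ≤ √(LL F v (bump 0 1)) := Real.one_le_sqrt.2 hG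
  have hn : ∀ i, cnt (cl F.T i) (fun l => |hgt F 0 l| ≤ 1 / 4) ≤
      30 / a * √(LL F v (bump 0 1)) / P := fun i => by
    have e1 : v i * cnt (cl F.T i) (fun l => |hgt F 0 l| ≤ 1 / 4) ≤ _ := (hb ι F v P K τ h hτ i).1
    have e2 := h.wt_low i
    have e3 : 0 ≤ cnt (cl F.T i) (fun l => |hgt F 0 l| ≤ 1 / 4) := Nat.cast_nonneg _
    have e4 : 30 / a = 6 * (5 / a) := by ring
    rw [le_div_iff₀ hP, e4]
    nlinarith [mul_le_mul_of_nonneg_right e2 e3]
  have h1 : 1 ≤ √(LL F v (bump 0 1)) / P := by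
    rw [le_div_iff₀ hP]
    linarith [h.P1]
  obtain ⟨r1, r2⟩ := ll0 h (ρ := fun p => min 1 (dist p z + u) / C) (Φ := Φ)
    ((rad_min z hu).div hC) (fun p => (div_le_one hC0).2 ((min_le_left _ _).trans hC))
    (hΦ.mono fun p => div_le_div_of_nonneg_right (min_le_right _ _) hC0.le) hB1
    ((hc ι F τ z u h.ok (h.t1.trans (by norm_num)) hz hu).mono subset_rfl (fun _ => le_rfl) (by
      have e : B0 * (1 + 60 / a) * √(LL F v (bump 0 1)) / P = B0 * (√(LL F v (bump 0 1)) / P +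
          30 / a * √(LL F v (bump 0 1)) / P + 30 / a * √(LL F v (bump 0 1)) / P) := by ring
      rw [e]
      exact mul_le_mul_of_nonneg_left (add_le_add (add_le_add h1 (hn 0)) (hn 1)) hB0))
  rw [← hX] at r1 r2
  have s0 : 0 ≤ √τ := Real.sqrt_nonneg _
  have s1 : τ ≤ √τ := Real.le_sqrt_self_iff.2 (h.t1.trans (by norm_num))
  have s2 : 0 ≤ √X := Real.sqrt_nonneg _
  refine ⟨fun i j k a1 a2 a3 => (r1 i j k a1 a2 a3).trans
    (mul_le_mul_of_nonneg_right ?_ (by linarith)), le_trans (mul_le_mul_of_nonneg_left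
      (sub_le_sub_left (mul_le_mul_of_nonneg_right ?_ (by linarith)) _) hP.le) r2⟩
  · rw [Real.sqrt_mul h.t0.le]
    nlinarith [mul_nonneg hX0 s0]
  · nlinarith [mul_nonneg s2 s0, mul_le_mul_of_nonneg_right s1 hX0]

end Pool.Agent.MP_38296a_co.H21.URn

end FileUR7b

section FileUR8

set_option autoImplicit false

namespace Pool.Agent.MP_38296a_co.H21.URn

open Finset Filter Classical Topology

theorem u8_cnt {α : Type} (S : Finset α) (Q : α → Prop) : cnt S Q = ∑ a ∈ S, ind (Q a) := by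
  simp only [cnt, ind, Finset.sum_boole]

theorem u8_close {ι : Type} {F : Fam ι} {ε : ℝ} (h : F.Ok ε) {i : Fin 3} {a : ι}
    (ha : a ∈ cl F.T i) {z p : Pt} {u s : ℝ} (hu : 0 < u) (hp : hgt F p a = 0)
    (hd : dist p z ≤ s * u) : |yc i z u p - lab F i z u a| ≤ 2 * ε * s := by
  have e0 : 0 ≤ ε := (abs_nonneg _).trans (slope_near h ha)
  have h1 := lab_sub h ha z p hu
  have h2 : lab F i p u a = 0 := by rw [lab, hp, mul_zero, zero_div]
  rw [h2, sub_zero, abs_sub_comm] at h1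
  refine le_of_mul_le_mul_left (h1.trans ?_) hu
  calc 2 * ε * dist p z ≤ 2 * ε * (s * u) := by gcongr
    _ = u * (2 * ε * s) := by ring

theorem u8_term {ι : Type} {F : Fam ι} {ε : ℝ} (h : F.Ok ε) (he : ε ≤ 1 / 10) {i j : Fin 3}
    (hij : i ≠ j) (z : Pt) {u R Λ : ℝ} (hu : 0 < u) (hR : 0 ≤ R) (hΛ : 0 ≤ Λ) {H : ℝ → ℝ → ℝ}
    (hL : ∀ s t s' t', |H s t - H s' t'| ≤ Λ * (|s - s'| + |t - t'|))
    (h0 : ∀ s t, R < |s| ∨ R < |t| → H s t = 0) {a b : ι} (ha : a ∈ cl F.T i)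
    (hb : b ∈ cl F.T j) :
    |H (yc i z u (cr F a b)) (yc j z u (cr F a b)) - H (lab F i z u a) (lab F j z u b)| ≤
      32 * ε * Λ * R * (ind (|lab F i z u a| ≤ 2 * R) * ind (|lab F j z u b| ≤ 2 * R)) := by
  have e0 : 0 ≤ ε := (abs_nonneg _).trans (slope_near h ha)
  obtain ⟨p1, p2⟩ := hgt_cr h he hij ha hb
  by_cases hc : |lab F i z u a| ≤ 2 * R ∧ |lab F j z u b| ≤ 2 * R
  · have h1 : |hgt F z a| ≤ 2 * R * u := (lab_abs F i z hu a).1.trans (by nlinarith [hc.1])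
    have h2 : |hgt F z b| ≤ 2 * R * u := (lab_abs F j z hu b).1.trans (by nlinarith [hc.2])
    have h3 : dist (cr F a b) z ≤ 8 * R * u := (dist_cr h he hij ha hb h1 h2).trans_eq (by ring)
    have h4 := u8_close h ha hu p1 h3
    have h5 := u8_close h hb hu p2 h3
    rw [ind, ind, if_pos hc.1, if_pos hc.2]
    refine (hL _ _ _ _).trans ?_
    calc _ ≤ Λ * (2 * ε * (8 * R) + 2 * ε * (8 * R)) := by gcongr
      _ = _ := by ring
  · have h1 : H (lab F i z u a) (lab F j z u b) = 0 := by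
      refine h0 _ _ ?_
      rw [not_and_or, not_le, not_le] at hc
      exact hc.imp (fun h => by linarith) fun h => by linarith
    have h2 : H (yc i z u (cr F a b)) (yc j z u (cr F a b)) = 0 := by
      by_contra h2
      have h3 : ¬ (R < |yc i z u (cr F a b)| ∨ R < |yc j z u (cr F a b)|) := fun h => h2 (h0 _ _ h)
      rw [not_or, not_lt, not_lt] at h3
      have h4 : dist (cr F a b) z ≤ 2 * R * u :=
        (dist_le_yc z hu _ hij).trans (by nlinarith [h3.1, h3.2])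
      have h5 := u8_close h ha hu p1 h4
      have h6 := u8_close h hb hu p2 h4
      have h7 : 2 * ε * (2 * R) ≤ R := by nlinarith
      have h8 := abs_sub_abs_le_abs_sub (lab F i z u a) (yc i z u (cr F a b))
      have h9 := abs_sub_abs_le_abs_sub (lab F j z u b) (yc j z u (cr F a b))
      rw [abs_sub_comm] at h8 h9
      exact hc ⟨by linarith [h3.1], by linarith [h3.2]⟩
    rw [h1, h2, sub_zero, abs_zero]
    unfold ind
    positivity

/-- Compare term by term. If both labels are at most `2 R` then the heights are at most `2 R u`,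
the crossing point `p` is within `8 R u` of `z` (`dist_cr`), and `lab_sub` (the label at `p` is
zero) gives `|lab - yc p| ≤ 16 ε R`. Otherwise both terms vanish: if `H (yc i p) (yc j p) ≠ 0`
then `dist p z ≤ 2 R u` (`dist_le_yc`) and the labels are at most `R + 4 ε R`. -/
theorem cmp {ι : Type} {F : Fam ι} {ε : ℝ} (h : F.Ok ε) (he : ε ≤ 1 / 10) {i j : Fin 3}
    (hij : i ≠ j) (z : Pt) {u R Λ : ℝ} (hu : 0 < u) (hR : 0 ≤ R) (hΛ : 0 ≤ Λ) {H : ℝ → ℝ → ℝ}
    (hL : ∀ s t s' t', |H s t - H s' t'| ≤ Λ * (|s - s'| + |t - t'|))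
    (h0 : ∀ s t, R < |s| ∨ R < |t| → H s t = 0) :
    |∑ a ∈ cl F.T i, ∑ b ∈ cl F.T j, H (yc i z u (cr F a b)) (yc j z u (cr F a b)) -
      ∑ a ∈ cl F.T i, ∑ b ∈ cl F.T j, H (lab F i z u a) (lab F j z u b)| ≤
      32 * ε * Λ * R * (cnt (cl F.T i) (fun a => |lab F i z u a| ≤ 2 * R) *
        cnt (cl F.T j) fun a => |lab F j z u a| ≤ 2 * R) := by
  rw [u8_cnt, u8_cnt, sum_mul_sum, mul_sum, ← sum_sub_distrib]
  refine (abs_sum_le_sum_abs _ _).trans (sum_le_sum fun a ha => ?_)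
  rw [mul_sum, ← sum_sub_distrib]
  exact (abs_sum_le_sum_abs _ _).trans
    (sum_le_sum fun b hb => u8_term h he hij z hu hR hΛ hL h0 ha hb)

theorem u8_nu_nonneg {ι : Type} (F : Fam ι) {v : Fin 3 → ℝ} (hv : Wt v) (z : Pt) (u : ℝ)
    (i : Fin 3) {f : ℝ → ℝ} (hf : ∀ s, 0 ≤ f s) : 0 ≤ nu F v z u i f := by
  rw [nu_apply]
  exact mul_nonneg (div_nonneg (hv.1 i).le (Real.sqrt_nonneg _)) (sum_nonneg fun a _ => hf _)

theorem u8_itv_nonneg (α β s : ℝ) : 0 ≤ itv α β s := by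
  unfold itv ind
  positivity

theorem u8_split {x y G : ℝ} (hG : 0 < G) : x * y / G = x / √G * (y / √G) := by
  rw [div_mul_div_comm, Real.mul_self_sqrt hG.le]

theorem u8_norm {ι : Type} {F : Fam ι} {ε : ℝ} {v : Fin 3 → ℝ} (h : F.Ok ε) (e0 : 0 ≤ ε)
    (he : ε ≤ 1 / 10) (hv : Wt v) (hG : 0 < LL F v (bump 0 1)) {i j : Fin 3} (hij : i ≠ j)
    (z : Pt) {u R Λ A : ℝ} (hu : 0 < u) (hR : 0 ≤ R) (hΛ : 0 ≤ Λ) {H : ℝ → ℝ → ℝ}
    (hL : ∀ s t s' t', |H s t - H s' t'| ≤ Λ * (|s - s'| + |t - t'|))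
    (h0 : ∀ s t, 4 * R < |s| ∨ 4 * R < |t| → H s t = 0)
    (hA : ∀ i, nu F v z u i (itv (-(8 * R)) (8 * R)) ≤ A) :
    |mu F v i j (fun p => H (yc i z u p) (yc j z u p)) / LL F v (bump 0 1) -
      v i * v j / LL F v (bump 0 1) *
        ∑ a ∈ cl F.T i, ∑ b ∈ cl F.T j, H (lab F i z u a) (lab F j z u b)| ≤
      128 * ε * Λ * R * A ^ 2 := by
  have h1 := cmp h he hij z hu (by positivity : 0 ≤ 4 * R) hΛ hL h0
  have h2 : ∀ l, v l / √(LL F v (bump 0 1)) *
      cnt (cl F.T l) (fun a => |lab F l z u a| ≤ 2 * (4 * R)) =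
        nu F v z u l (itv (-(8 * R)) (8 * R)) := by
    intro l
    rw [nu_apply, u8_cnt]
    congr 1
    refine sum_congr rfl fun a _ => ?_
    rw [itv, abs_le, show 2 * (4 * R) = 8 * R by ring]
  have h3 : 0 ≤ v i * v j / LL F v (bump 0 1) :=
    div_nonneg (mul_pos (hv.1 i) (hv.1 j)).le hG.le
  have h4 := fun l => u8_nu_nonneg F hv z u l (u8_itv_nonneg (-(8 * R)) (8 * R))
  rw [mu, mul_div_right_comm, ← mul_sub, abs_mul, abs_of_nonneg h3]
  refine (mul_le_mul_of_nonneg_left h1 h3).trans ?_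
  calc _ = 128 * ε * Λ * R * (nu F v z u i (itv (-(8 * R)) (8 * R)) *
        nu F v z u j (itv (-(8 * R)) (8 * R))) := by
        rw [← h2, ← h2, u8_split hG]
        ring
    _ ≤ _ := by
        refine mul_le_mul_of_nonneg_left ?_ (by positivity)
        rw [sq]
        exact mul_le_mul (hA i) (hA j) (h4 j) ((h4 i).trans (hA i))

theorem u8_trp_mem (b σ s : ℝ) : 0 ≤ trp b σ s ∧ trp b σ s ≤ 1 := clp_mem _

theorem u8_trp_lip (b : ℝ) {σ : ℝ} (hσ : 0 < σ) (s t : ℝ) :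
    |trp b σ s - trp b σ t| ≤ 1 / σ * |s - t| := by
  refine (clp_lip _ _).trans ?_
  have h1 := abs_abs_sub_abs_le_abs_sub (t - b) (s - b)
  rw [sub_sub_sub_cancel_right, abs_sub_comm t s] at h1
  rw [sub_sub_sub_cancel_left, ← sub_div, abs_div, abs_of_pos hσ, one_div, ← div_eq_inv_mul]
  gcongr

theorem u8_trp_supp {b σ s : ℝ} (hσ : 0 < σ) (h : trp b σ s ≠ 0) : |s - b| ≤ 2 * σ := by
  by_contra hc
  refine h (clp_zero ?_)
  rw [sub_nonpos, le_div_iff₀ hσ]
  exact (not_le.1 hc).le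

theorem u8_trp_abs {b σ s R : ℝ} (hσ : 0 < σ) (hb : |b| ≤ R) (hs : σ ≤ R) (h : trp b σ s ≠ 0) :
    |s| ≤ 3 * R := by
  have h1 := u8_trp_supp hσ h
  have h2 := abs_sub_abs_le_abs_sub s b
  linarith

theorem u8_prod {x x' y y' d d' : ℝ} (hx : 0 ≤ x' ∧ x' ≤ 1) (hy : 0 ≤ y ∧ y ≤ 1)
    (h1 : |x - x'| ≤ d) (h2 : |y - y'| ≤ d') : |x * y - x' * y'| ≤ d + d' := by
  calc _ = |(x - x') * y + x' * (y - y')| := by ring_nf
    _ ≤ |x - x'| * y + x' * |y - y'| := by
        refine (abs_add_le _ _).trans ?_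
        rw [abs_mul, abs_mul, abs_of_nonneg hx.1, abs_of_nonneg hy.1]
    _ ≤ |x - x'| * 1 + 1 * |y - y'| := by gcongr <;> simp only [hx.2, hy.2]
    _ ≤ _ := by linarith

theorem u8_shift {f : ℝ → ℝ} {R Λ b σ : ℝ} (hf : Test R Λ f) (hΛ : 0 ≤ Λ) (hb : |b| ≤ R)
    (hσ : 0 < σ) (hs : σ ≤ R) (t w : ℝ) :
    |f (-t - w) * trp b σ t - trp b σ t * f (-b - w)| ≤
      2 * σ * Λ * (trp b σ t * itv (-(8 * R)) (8 * R) w) := by
  have g0 := (u8_trp_mem b σ t).1
  by_cases hg : trp b σ t = 0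
  · simp [hg]
  have h1 := u8_trp_supp hσ hg
  have h2 := u8_trp_abs hσ hb hs hg
  rw [mul_comm (trp b σ t) (f _), ← sub_mul, abs_mul, abs_of_nonneg g0]
  by_cases hw : -(8 * R) ≤ w ∧ w ≤ 8 * R
  · rw [itv, ind, if_pos hw, mul_one]
    refine mul_le_mul_of_nonneg_right ((hf.2.1 _ _).trans ?_) g0
    rw [show -t - w - (-b - w) = b - t by ring, abs_sub_comm]
    nlinarith
  · rw [← abs_le, not_le] at hw
    have h3 := abs_sub_abs_le_abs_sub (-w) t
    have h4 := abs_sub_abs_le_abs_sub (-w) b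
    rw [abs_neg] at h3 h4
    have h5 : f (-t - w) = 0 :=
      hf.2.2 _ (by rw [show -t - w = -w - t by ring]; linarith)
    have h6 : f (-b - w) = 0 :=
      hf.2.2 _ (by rw [show -b - w = -w - b by ring]; linarith)
    rw [h5, h6, sub_zero, abs_zero, zero_mul]
    have := u8_itv_nonneg (-(8 * R)) (8 * R) w
    positivity

theorem u8_adm {f : ℝ → ℝ} {R Λ b σ : ℝ} (hf : Test R Λ f) (hΛ : 0 ≤ Λ) (hb : |b| ≤ R)
    (hσ : 0 < σ) (hs : σ ≤ R) {i j : Fin 3} (hij : i ≠ j) (z : Pt) {u : ℝ} (hu : 0 < u) :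
    (∀ p, 4 * R * u < dist p z → f (yc i z u p) * trp b σ (yc j z u p) = 0) ∧
    Adm (fun p => (dist p z + u) / (2 * (Λ + 1 / σ) * (2 * (4 * R) + 2) + 2))
      fun p => f (yc i z u p) * trp b σ (yc j z u p) := by
  have hR : 0 < R := hσ.trans_le hs
  have h0 : ∀ p, 4 * R * u < dist p z → f (yc i z u p) * trp b σ (yc j z u p) = 0 := by
    intro p hp
    by_contra hc
    have h1 : |yc i z u p| ≤ R := not_lt.1 fun h => left_ne_zero_of_mul hc (hf.2.2 _ h)
    have h2 := u8_trp_abs hσ hb hs (right_ne_zero_of_mul hc)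
    have h3 := dist_le_yc z hu p hij
    nlinarith
  refine ⟨h0, adm_loc (Λ := 2 * (Λ + 1 / σ)) (R := 4 * R) hu (by positivity) (by positivity)
    (fun p => ⟨mul_nonneg (hf.1 _).1 (u8_trp_mem _ _ _).1,
      mul_le_one₀ (hf.1 _).2 (u8_trp_mem _ _ _).1 (u8_trp_mem _ _ _).2⟩) (fun p q => ?_) h0
    (by linarith) (le_add_of_nonneg_left (by positivity))⟩
  have h1 := u8_prod (hf.1 (yc i z u q)) (u8_trp_mem b σ (yc j z u p))
    (hf.2.1 (yc i z u p) (yc i z u q)) (u8_trp_lip b hσ (yc j z u p) (yc j z u q))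
  calc _ ≤ u * (Λ * |yc i z u p - yc i z u q| + 1 / σ * |yc j z u p - yc j z u q|) := by gcongr
    _ = Λ * (u * |yc i z u p - yc i z u q|) + 1 / σ * (u * |yc j z u p - yc j z u q|) := by ring
    _ ≤ Λ * (2 * dist p q) + 1 / σ * (2 * dist p q) :=
        add_le_add (mul_le_mul_of_nonneg_left (yc_lip i z hu p q) hΛ)
          (mul_le_mul_of_nonneg_left (yc_lip j z hu p q) (by positivity))
    _ = _ := by ring

theorem u8_one {ι : Type} {F : Fam ι} {v : Fin 3 → ℝ} {P K τ a : ℝ} (h : Loc F v P K τ a)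
    {z : Pt} {u R A E : ℝ} (hu : 0 < u)
    (hA : ∀ i, nu F v z u i (itv (-(8 * R)) (8 * R)) ≤ A) {i j l : Fin 3} (hij : i ≠ j)
    (hjl : j ≠ l) (hil : i ≠ l) {f : ℝ → ℝ} {Λ b σ : ℝ} (hf : Test R Λ f) (hΛ : 0 ≤ Λ)
    (hb : |b| ≤ R) (hσ : 0 < σ) (hs : σ ≤ R)
    (hE : |mu F v i j (fun p => f (yc i z u p) * trp b σ (yc j z u p)) -
      mu F v j l fun p => f (yc i z u p) * trp b σ (yc j z u p)| ≤ E * LL F v (bump 0 1)) :
    |nu F v z u i f - nu F v z u l (fun s => f (-b - s))| * nu F v z u j (trp b σ) ≤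
      256 * τ * (Λ + 1 / σ) * R * A ^ 2 + E + 2 * σ * Λ * A * nu F v z u j (trp b σ) := by
  have hR : 0 < R := hσ.trans_le hs
  have hG : 0 < LL F v (bump 0 1) := one_pos.trans_le h.big.1
  have he : τ ≤ 1 / 10 := h.t1.trans (by norm_num)
  have s0 : 0 < 1 / σ := by positivity
  have g0 := u8_nu_nonneg F h.wt z u j fun s => (u8_trp_mem b σ s).1
  have h1 := u8_norm h.ok h.t0.le he h.wt hG hij z (Λ := Λ + 1 / σ) hu hR.le (by positivity)
    (H := fun s t => f s * trp b σ t) (fun s t s' t' =>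
      (u8_prod (hf.1 s') (u8_trp_mem b σ t) (hf.2.1 s s') (u8_trp_lip b hσ t t')).trans (by
        nlinarith [mul_nonneg hΛ (abs_nonneg (t - t')), mul_nonneg s0.le (abs_nonneg (s - s'))]))
    (fun s t hst => by
      rcases hst with hst | hst
      · rw [hf.2.2 s (by linarith), zero_mul]
      · by_contra hc
        have := u8_trp_abs hσ hb hs (right_ne_zero_of_mul hc)
        linarith) hA
  have h2 := u8_norm h.ok h.t0.le he h.wt hG hjl z (Λ := Λ + 1 / σ) hu hR.le (by positivity)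
    (H := fun t w => f (-t - w) * trp b σ t) (fun t w t' w' =>
      (u8_prod (hf.1 (-t' - w')) (u8_trp_mem b σ t) (hf.2.1 (-t - w) (-t' - w'))
        (u8_trp_lip b hσ t t')).trans (by
        have h3 := abs_add_le (t - t') (w - w')
        rw [show -t - w - (-t' - w') = -(t - t' + (w - w')) by ring, abs_neg]
        nlinarith [mul_le_mul_of_nonneg_left h3 hΛ, mul_nonneg s0.le (abs_nonneg (w - w'))]))
    (fun t w htw => by
      by_contra hc
      have h3 := u8_trp_abs hσ hb hs (right_ne_zero_of_mul hc)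
      have h4 : |-t - w| ≤ R := not_lt.1 fun h => left_ne_zero_of_mul hc (hf.2.2 _ h)
      have h5 := abs_sub_abs_le_abs_sub (-w) t
      rw [abs_neg, show -w - t = -t - w by ring] at h5
      rcases htw with htw | htw <;> linarith) hA
  have h3 : (fun p => f (-yc j z u p - yc l z u p) * trp b σ (yc j z u p)) =
      fun p => f (yc i z u p) * trp b σ (yc j z u p) := by
    funext p
    have := yc_sum z u p hij hjl hil
    rw [show -yc j z u p - yc l z u p = yc i z u p by linarith]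
  beta_reduce at h1 h2
  rw [h3] at h2
  rw [← sum_mul_sum, u8_split hG, mul_mul_mul_comm, ← nu_apply, ← nu_apply] at h1
  have h4 : |v j * v l / LL F v (bump 0 1) * ∑ a ∈ cl F.T j, ∑ c ∈ cl F.T l,
      f (-lab F j z u a - lab F l z u c) * trp b σ (lab F j z u a) -
      nu F v z u j (trp b σ) * nu F v z u l (fun s => f (-b - s))| ≤
      2 * σ * Λ * (nu F v z u j (trp b σ) * nu F v z u l (itv (-(8 * R)) (8 * R))) := by
    have h5 : 0 ≤ v j * v l / LL F v (bump 0 1) :=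
      div_nonneg (mul_pos (h.wt.1 j) (h.wt.1 l)).le hG.le
    simp only [nu_apply]
    simp only [mul_mul_mul_comm (v j / √(LL F v (bump 0 1))) _ (v l / √(LL F v (bump 0 1)))]
    rw [← u8_split hG, ← mul_sub, abs_mul, abs_of_nonneg h5, mul_left_comm (2 * σ * Λ)]
    refine mul_le_mul_of_nonneg_left ?_ h5
    rw [sum_mul_sum, sum_mul_sum, mul_sum, ← sum_sub_distrib]
    refine (abs_sum_le_sum_abs _ _).trans (sum_le_sum fun a _ => ?_)
    rw [mul_sum, ← sum_sub_distrib]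
    exact (abs_sum_le_sum_abs _ _).trans
      (sum_le_sum fun c _ => u8_shift hf hΛ hb hσ hs _ _)
  have h5 : 2 * σ * Λ * (nu F v z u j (trp b σ) * nu F v z u l (itv (-(8 * R)) (8 * R))) ≤
      2 * σ * Λ * A * nu F v z u j (trp b σ) := by
    rw [mul_assoc (2 * σ * Λ), mul_comm A]
    exact mul_le_mul_of_nonneg_left (mul_le_mul_of_nonneg_left (hA l) g0) (by positivity)
  rw [← div_le_iff₀ hG, ← abs_of_pos hG, ← abs_div, sub_div] at hE
  have h6 := h4.trans h5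
  rw [abs_le] at h1 h2 h6 hE
  rw [← abs_of_nonneg g0, ← abs_mul, abs_of_nonneg g0, abs_le]
  constructor <;> nlinarith [h1.1, h1.2, h2.1, h2.2, h6.1, h6.2, hE.1, hE.2]

/-- Put `g = trp b σ`, `Φ p = f (yc i p) * g (yc j p)`. It vanishes outside the square of radius
`4 R u` around `z` (`dist_le_yc`), so `Φ χ = Φ`, and it is admissible by `adm_loc` with the
Lipschitz constant `2 (Λ + 1 / σ)` (`yc_lip`). By `ll`, `mu i j Φ` and `mu j l Φ` differ by
`B √τ G`. `cmp` with `H s t = f s * g t` compares `mu i j Φ / G` with `ν i f * ν j g`; `cmp` for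
the classes `j, l` with `H t w = f (-t - w) * g t` and radius `4 R` (`yc_sum`) compares
`mu j l Φ / G` with the normalised sum of `f (-lab b' - lab c) * g (lab b')`, which differs from
`ν j g * ν l (f (-b - ·))` by at most `2 σ Λ * ν j g * ν l (itv (-8 R) (8 R))`, because
`g t ≠ 0` forces `|t - b| ≤ 2 σ`. All the errors tend to zero with `τ`. -/
theorem pi_seq {ι : ℕ → Type} {F : ∀ k, Fam (ι k)} {v : ℕ → Fin 3 → ℝ} {P K τ : ℕ → ℝ}
    {a : ℝ} (h : ∀ k, Loc (F k) (v k) (P k) (K k) (τ k) a) (hτ : Tendsto τ UU (𝓝 0))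
    {z : ℕ → Pt} {u : ℕ → ℝ} {R A : ℝ} (hR : 0 < R)
    (hz : ∀ᶠ k in UU, dist (z k) 0 ≤ 1 / 100 ∧ 0 < u k ∧ 4 * R * u k ≤ 1 / 2)
    (hA : ∀ i, ∀ᶠ k in UU, nu (F k) (v k) (z k) (u k) i (itv (-(8 * R)) (8 * R)) ≤ A) :
    PI (fun k => nu (F k) (v k) (z k) (u k)) R A := by
  intro i j l hij hjl hil f Λ b σ η hf hΛ hb hσ hs hη
  obtain ⟨B, τ0, -, t0, hB⟩ := ll (h 0).a0 (C := 2 * (Λ + 1 / σ) * (2 * (4 * R) + 2) + 2)
    (one_le_two.trans (le_add_of_nonneg_left (by positivity)))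
  have h1 : Tendsto (fun k => 256 * τ k * (Λ + 1 / σ) * R * A ^ 2 + B * √(τ k)) UU (𝓝 0) := by
    have h2 := ((((hτ.const_mul 256).mul_const (Λ + 1 / σ)).mul_const R).mul_const (A ^ 2)).add
      (hτ.sqrt.const_mul B)
    simpa using h2
  filter_upwards [hz, eventually_all.2 hA, hτ.eventually (ge_mem_nhds t0),
    h1.eventually (ge_mem_nhds hη)] with k hz hA ht hη
  obtain ⟨h2, h3⟩ := u8_adm hf hΛ hb hσ hs hij (z k) hz.2.1
  have h4 := (hB _ _ _ _ _ _ (h k) ht _ _ _ hz.1 hz.2.1 h3).1 i j l hij hjl hil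
  have h5 : (fun p => f (yc i (z k) (u k) p) * trp b σ (yc j (z k) (u k) p) * bump 0 1 p) =
      fun p => f (yc i (z k) (u k) p) * trp b σ (yc j (z k) (u k) p) := by
    funext p
    by_cases hp : 4 * R * u k < dist p (z k)
    · rw [h2 p hp, zero_mul]
    · have h6 := dist_triangle p (z k) 0
      rw [bump_one one_pos (by linarith [hz.1, hz.2.2, not_lt.1 hp]), mul_one]
  rw [h5] at h4
  refine (u8_one (h k) hz.2.1 hA hij hjl hil hf hΛ hb hσ hs h4).trans ?_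
  exact add_le_add_left hη _

end Pool.Agent.MP_38296a_co.H21.URn

end FileUR8

section FileUR9

set_option autoImplicit false

namespace Pool.Agent.MP_38296a_co.H21.URn

open Finset Filter Classical Topology

/-! ### Splitting an isolated cluster -/

/-- almost all lines close to `zs` are very close to `zs` -/
def Atom {ι : Type} (F : Fam ι) (v : Fin 3 → ℝ) (zs : Pt) (w r : ℝ) : Prop :=
  ∀ i, 99 / 100 * w * √(LL F v (bump 0 1)) ≤ nl F v i zs (r / 10 ^ 9) ∧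
    nl F v i zs r ≤ 101 / 100 * w * √(LL F v (bump 0 1))

/-- most lines of the cluster are within `ρ` of `z` -/
def Conc {ι : Type} (F : Fam ι) (v : Fin 3 → ℝ) (zs : Pt) (w r : ℝ) (z : Pt) (ρ : ℝ) : Prop :=
  ∀ i, wc F v i (fun l => |hgt F zs l| ≤ r / 10 ^ 9 ∧ ρ < |hgt F z l|) ≤
    w / 10 * √(LL F v (bump 0 1))

/-- the sector where the coordinates `i` and `k` are both large -/
noncomputable def sect (i k : Fin 3) (z : Pt) (u : ℝ) (p : Pt) : ℝ :=
  clp (20 * (min |yc i z u p| |yc k z u p| - 3) / (dist p z / u + 1) - 1)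

/-- With `m p = min |yc i p| |yc k p|`, `n p = dist p z / u + 1`: `|m p - m q| ≤ 2 dist p q / u`,
`|n p - n q| ≤ dist p q / u`, `|m q - 3| ≤ 3 n q`. -/
theorem adm_sect (i k : Fin 3) (z : Pt) {u : ℝ} (hu : 0 < u) :
    Adm (fun p => (dist p z + u) / 100) (sect i k z u) := by
  refine ⟨fun p => clp_mem _, fun p q => ?_⟩
  have key : ∀ m m' n n' d : ℝ, 1 ≤ n → 1 ≤ n' → |m - m'| ≤ 2 * d → |n' - n| ≤ d →
      |m' - 3| ≤ 3 * n' → n * |(20 * (m - 3) / n - 1) - (20 * (m' - 3) / n' - 1)| ≤ 100 * d := by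
    intro m m' n n' d hn hn' h1 h2 h3
    have hn0 : 0 < n := by linarith
    have hn0' : 0 < n' := by linarith
    have e : n * ((20 * (m - 3) / n - 1) - (20 * (m' - 3) / n' - 1)) =
        20 * ((m - m') + (m' - 3) / n' * (n' - n)) := by
      field_simp; ring
    have h4 : |(m' - 3) / n'| ≤ 3 := by
      rw [abs_div, abs_of_pos hn0', div_le_iff₀ hn0']; exact h3
    have h5 : |(m' - 3) / n' * (n' - n)| ≤ 3 * d := by
      rw [abs_mul]; exact mul_le_mul h4 h2 (abs_nonneg _) (by norm_num)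
    calc n * |(20 * (m - 3) / n - 1) - (20 * (m' - 3) / n' - 1)|
        = |n * ((20 * (m - 3) / n - 1) - (20 * (m' - 3) / n' - 1))| := by
          rw [abs_mul, abs_of_pos hn0]
      _ = 20 * |(m - m') + (m' - 3) / n' * (n' - n)| := by
          rw [e, abs_mul]; norm_num
      _ ≤ 20 * (2 * d + 3 * d) := by
          have := abs_add_le (m - m') ((m' - 3) / n' * (n' - n))
          linarith
      _ = 100 * d := by ring
  have hy : ∀ (c : Fin 3) (p q : Pt), |yc c z u p - yc c z u q| ≤ 2 * (dist p q / u) :=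
    fun c p q => by
      have := yc_lip c z hu p q
      rw [← mul_div_assoc, le_div_iff₀ hu]; linarith
  have hp0 : 0 ≤ dist p z / u := by positivity
  have hq0 : 0 ≤ dist q z / u := by positivity
  have h1 : abs (min |yc i z u p| |yc k z u p| - min |yc i z u q| |yc k z u q|) ≤
      2 * (dist p q / u) :=
    (abs_min_sub_min_le_max _ _ _ _).trans (max_le
      ((abs_abs_sub_abs_le_abs_sub _ _).trans (hy i p q))
      ((abs_abs_sub_abs_le_abs_sub _ _).trans (hy k p q)))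
  have h2 : |(dist q z / u + 1) - (dist p z / u + 1)| ≤ dist p q / u := by
    rw [add_sub_add_right_eq_sub, ← sub_div, abs_div, abs_of_pos hu, dist_comm p q]
    exact div_le_div_of_nonneg_right (abs_dist_sub_le q p z) hu.le
  have h3 : abs (min |yc i z u q| |yc k z u q| - 3) ≤ 3 * (dist q z / u + 1) := by
    have a1 : 0 ≤ min |yc i z u q| |yc k z u q| := le_min (abs_nonneg _) (abs_nonneg _)
    have a2 := hy i q z
    have a3 : yc i z u z = 0 := by simp [yc]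
    rw [a3, sub_zero] at a2
    have a4 := min_le_left |yc i z u q| |yc k z u q|
    exact abs_le.2 ⟨by linarith, by linarith⟩
  have h4 := key _ _ _ _ _ (by linarith) (by linarith) h1 h2 h3
  have h5 := clp_lip (20 * (min |yc i z u p| |yc k z u p| - 3) / (dist p z / u + 1) - 1)
    (20 * (min |yc i z u q| |yc k z u q| - 3) / (dist q z / u + 1) - 1)
  have h6 := (mul_le_mul_of_nonneg_left h5 (by linarith : 0 ≤ dist p z / u + 1)).trans h4
  have e : (dist p z + u) / 100 = u / 100 * (dist p z / u + 1) := by field_simp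
  show (dist p z + u) / 100 * |sect i k z u p - sect i k z u q| ≤ dist p q
  rw [e, mul_assoc]
  calc u / 100 * _ ≤ u / 100 * (100 * (dist p q / u)) :=
        mul_le_mul_of_nonneg_left h6 (by positivity)
    _ = dist p q := by field_simp

section
variable {ι : Type} {F : Fam ι} {v : Fin 3 → ℝ} {ε : ℝ}

theorem u9_yc (h : F.Ok ε) (he : ε ≤ 1 / 100) {j : Fin 3} {z p : Pt} {u : ℝ} (hu : 0 < u) {l : ι}
    (hl : l ∈ cl F.T j) (hp : hgt F p l = 0) (hn : |hgt F z l| ≤ u) :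
    |yc j z u p| ≤ 2 + dist p z / u / 50 := by
  have h1 := lab_sub h hl z p hu
  have h2 := (lab_abs F j z hu l).2
  have h3 : lab F j p u l = 0 := by simp [lab, hp]
  rw [h3, sub_zero] at h1
  have h4 : |yc j z u p| ≤ |lab F j z u l| + |lab F j z u l - yc j z u p| := by
    have := abs_sub (lab F j z u l) (lab F j z u l - yc j z u p)
    rwa [sub_sub_cancel] at this
  have h5 := mul_le_mul_of_nonneg_left h4 hu.le
  have h6 := mul_le_mul_of_nonneg_right he (dist_nonneg (x := p) (y := z))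
  have e : 2 + dist p z / u / 50 = (2 * u + dist p z / 50) / u := by field_simp
  rw [e, le_div_iff₀ hu]
  nlinarith

/-- on a line of class `i` or `k` with height at most `u` the function vanishes -/
theorem sect_zero (h : F.Ok ε) (he : ε ≤ 1 / 100) {i k j : Fin 3} (hj : j = i ∨ j = k) {z p : Pt}
    {u : ℝ} (hu : 0 < u) {l : ι} (hl : l ∈ cl F.T j) (hp : hgt F p l = 0)
    (hn : |hgt F z l| ≤ u) : sect i k z u p = 0 := by
  have h1 := u9_yc h he hu hl hp hn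
  have h0 : 0 ≤ dist p z / u := by positivity
  have h2 : min |yc i z u p| |yc k z u p| ≤ |yc j z u p| := by
    rcases hj with rfl | rfl
    · exact min_le_left _ _
    · exact min_le_right _ _
  refine clp_zero ?_
  rw [sub_nonpos, div_le_one (by linarith)]
  linarith

/-- With `D = dist p z / u ≥ 6`: `|yc j p| ≤ 2 + 2 ε D` and `D ≤ |yc i p| + |yc j p|`
(`dist_le_yc`), the same for `k`. -/
theorem sect_one (h : F.Ok ε) (he : ε ≤ 1 / 100) {i j k : Fin 3} (hij : i ≠ j) (hjk : j ≠ k)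
    {z p : Pt} {u : ℝ} (hu : 0 < u) {l : ι} (hl : l ∈ cl F.T j) (hp : hgt F p l = 0)
    (hn : |hgt F z l| ≤ u) (hD : 6 * u ≤ dist p z) : sect i k z u p = 1 := by
  have h1 := u9_yc h he hu hl hp hn
  have h0 : 6 ≤ dist p z / u := by rwa [le_div_iff₀ hu]
  have h2 : dist p z / u ≤ |yc i z u p| + |yc j z u p| := by
    rw [div_le_iff₀ hu]; exact dist_le_yc z hu p hij
  have h3 : dist p z / u ≤ |yc j z u p| + |yc k z u p| := by
    rw [div_le_iff₀ hu]; exact dist_le_yc z hu p hjk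
  have h4 : 49 / 50 * (dist p z / u) - 2 ≤ min |yc i z u p| |yc k z u p| :=
    le_min (by linarith) (by linarith)
  refine clp_one ?_
  rw [le_sub_iff_add_le, le_div_iff₀ (by linarith)]
  linarith

theorem conc_near (hv : Wt v) {zs z : Pt} {w r ρ : ℝ} (ha : Atom F v zs w r)
    (hc : Conc F v zs w r z ρ) (i : Fin 3) : 89 / 100 * w * √(LL F v (bump 0 1)) ≤
      wc F v i fun l => |hgt F zs l| ≤ r / 10 ^ 9 ∧ |hgt F z l| ≤ ρ := by
  have h1 := (ha i).1
  have h2 := hc i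
  have h3 := wc_le_add F hv i (Q := fun l => |hgt F zs l| ≤ r / 10 ^ 9)
    (Q₁ := fun l => |hgt F zs l| ≤ r / 10 ^ 9 ∧ |hgt F z l| ≤ ρ)
    (Q₂ := fun l => |hgt F zs l| ≤ r / 10 ^ 9 ∧ ρ < |hgt F z l|)
    fun a _ hq => (le_or_gt |hgt F z a| ρ).imp (fun h => ⟨hq, h⟩) fun h => ⟨hq, h⟩
  unfold nl at h1
  linarith

theorem conc_dist (h : F.Ok ε) (he : ε ≤ 1 / 10) (hv : Wt v) {zs z : Pt} {w r ρ : ℝ}
    (hw : 0 < w) (hG : 0 < LL F v (bump 0 1)) (ha : Atom F v zs w r) (hc : Conc F v zs w r z ρ)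
    (hρ : ρ ≤ r / 10 ^ 9) : dist z zs ≤ 8 * (r / 10 ^ 9) := by
  have hg : 0 < √(LL F v (bump 0 1)) := Real.sqrt_pos.2 hG
  have hp : 0 < 89 / 100 * w * √(LL F v (bump 0 1)) := by positivity
  obtain ⟨a, ha0, ha1, ha2⟩ := wc_pos F hv (hp.trans_le (conc_near hv ha hc 0))
  obtain ⟨b, hb0, hb1, hb2⟩ := wc_pos F hv (hp.trans_le (conc_near hv ha hc 1))
  exact dist_two h he (by decide : (0 : Fin 3) ≠ 1) ha0 hb0 (ha2.trans hρ) (hb2.trans hρ) ha1 hb1

end

section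
variable {ι : Type} {F : Fam ι} {v : Fin 3 → ℝ} {P K τ a w r B : ℝ} {zs : Pt}

theorem u9_small (h : Loc F v P K τ a) (hw : 0 < w) (hr1 : r ≤ 1 / 1000)
    (hB : (B + 1) * √τ ≤ w ^ 2 / 200) (hzs : dist zs 0 ≤ 1 / 200) (hA : Atom F v zs w r)
    (hll : ∀ (z : Pt) (u : ℝ) (Φ : Pt → ℝ), dist z 0 ≤ 1 / 100 → 0 < u →
      Adm (fun p => (dist p z + u) / 200) Φ →
      P * (LL F v (fun p => Φ p * bump 0 1 p) - B * √τ * LL F v (bump 0 1)) ≤
        TT F F.T fun p => Φ p * bump 0 1 p) :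
    ∃ δ : ℝ, 0 < δ ∧ ∀ ρ, 0 < ρ → ρ ≤ r / 10 ^ 9 → 8 * ρ ≤ δ → ∀ z, ¬ Conc F v zs w r z ρ := by
  have he : τ ≤ 1 / 10 := by linarith [h.t1]
  obtain ⟨δ, hδ, hT⟩ := TT_small h.ok he
  refine ⟨δ, hδ, fun ρ hρ0 hρ1 hρ2 z hc => ?_⟩
  obtain ⟨hG, hG1, -⟩ := h.big
  have hd := conc_dist h.ok he h.wt hw (by linarith) hA hc hρ1
  have hz : dist z 0 ≤ 1 / 100 := by
    have := dist_triangle z zs 0
    linarith
  have h4 : 0 < 4 * ρ := by linarith
  have h1 := hll z (4 * ρ) (bump z (4 * ρ)) hz h4 ((adm_bump' z h4).mono fun p => by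
    have := dist_nonneg (x := p) (y := z)
    linarith)
  have h2 : TT F F.T (fun p => bump z (4 * ρ) p * bump 0 1 p) ≤ 1 :=
    hT z (8 * ρ) _ hρ2 fun p =>
      (mul_le_of_le_one_right (bump_mem _ _ _).1 (bump_mem _ _ _).2).trans
        (bump_le_sqi h4 (by rw [dist_self]; linarith) p)
  have h3 : LL F v (sqi z (4 * ρ)) ≤ LL F v fun p => bump z (4 * ρ) p * bump 0 1 p :=
    LL_mono F h.wt fun p => by
      unfold sqi ind
      split_ifs with hp
      · have := dist_triangle p z 0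
        rw [bump_one h4 hp, bump_one one_pos (by linarith), mul_one]
      · exact mul_nonneg (bump_mem _ _ _).1 (bump_mem _ _ _).1
  have h5 : (89 / 100 * w * √(LL F v (bump 0 1))) ^ 2 ≤ LL F v (sqi z (4 * ρ)) :=
    LL_ge_nl h.ok he h.wt (by positivity) fun i =>
      (conc_near h.wt hA hc i).trans (wc_mono F h.wt i fun a _ hq => hq.2)
  rw [mul_pow, Real.sq_sqrt (by linarith)] at h5
  have h6 : τ ≤ √τ := Real.le_sqrt_of_sq_le (by nlinarith [h.t0, h.t1])
  set G := LL F v (bump 0 1)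
  set X := LL F v fun p => bump z (4 * ρ) p * bump 0 1 p
  have h7 : X - B * √τ * G ≤ τ * G := by
    refine le_of_mul_le_mul_left ?_ h.P0
    linarith
  have h8 := mul_le_mul_of_nonneg_right h6 (by linarith : 0 ≤ G)
  have h9 := mul_le_mul_of_nonneg_right hB (by linarith : 0 ≤ G)
  have h10 : 0 < w ^ 2 * G := by positivity
  nlinarith

theorem u9_rest (hv : Wt v) (hr : 0 < r) (hA : Atom F v zs w r) {z : Pt} {u : ℝ}
    (hc : Conc F v zs w r z u) (i : Fin 3) :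
    wc F v i (fun l => |hgt F zs l| ≤ r ∧ u < |hgt F z l|) ≤
      12 / 100 * w * √(LL F v (bump 0 1)) := by
  have h1 := wc_le_add F hv i (Q := fun l => |hgt F zs l| ≤ r ∧ u < |hgt F z l|)
    (Q₁ := fun l => |hgt F zs l| ≤ r / 10 ^ 9 ∧ u < |hgt F z l|)
    (Q₂ := fun l => |hgt F zs l| ≤ r ∧ r / 10 ^ 9 < |hgt F zs l|)
    fun a _ hq => (le_or_gt |hgt F zs a| (r / 10 ^ 9)).imp (fun h => ⟨h, hq.2⟩) fun h => ⟨hq.1, h⟩
  have h2 := wc_add_le F hv i (Q := fun l => |hgt F zs l| ≤ r)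
    (Q₁ := fun l => |hgt F zs l| ≤ r / 10 ^ 9)
    (Q₂ := fun l => |hgt F zs l| ≤ r ∧ r / 10 ^ 9 < |hgt F zs l|)
    (fun a _ hq => hq.trans (by linarith)) (fun a _ hq => hq.1)
    fun a _ hq hq' => absurd hq (not_le.2 hq'.2)
  obtain ⟨h3, h4⟩ := hA i
  have h5 := hc i
  unfold nl at h3 h4
  linarith

theorem u9_tail (h : Loc F v P K τ a) (hw : 0 < w) (hr : 0 < r) (hr1 : r ≤ 1 / 1000)
    (hB : B * √τ ≤ w ^ 2 / 200) (hzs : dist zs 0 ≤ 1 / 200) (hA : Atom F v zs w r) {z : Pt}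
    {u : ℝ} (hu : 0 < u) (hu1 : u ≤ r / 10 ^ 9) (hc : Conc F v zs w r z u) {i j k : Fin 3}
    (hij : i ≠ j) (hjk : j ≠ k)
    (hll : ∀ Φ : Pt → ℝ, Adm (fun p => (dist p z + u) / 200) Φ →
      |mu F v j i (fun p => Φ p * bump 0 1 p) - mu F v i k fun p => Φ p * bump 0 1 p| ≤
        B * √τ * LL F v (bump 0 1)) (hik : i ≠ k) :
    wc F v i (fun l => |hgt F zs l| ≤ r / 10 ^ 9 ∧ 20 * u < |hgt F z l|) ≤
      w / 40 * √(LL F v (bump 0 1)) := by
  have he : τ ≤ 1 / 10 := by linarith [h.t1]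
  obtain ⟨hG, -, -⟩ := h.big
  have hd := conc_dist h.ok he h.wt hw (by linarith) hA hc hu1
  have hr10 : 0 < r / 10 := by linarith
  have hadm : Adm (fun p => (dist p z + u) / 200)
      fun p => sect i k z u p * bump zs (r / 10) p :=
    ((adm_sect i k z hu).mul ((adm_bump' zs hr10).mono fun p => by
      have h1 := dist_triangle p zs z
      have h2 := dist_nonneg (x := p) (y := zs)
      rw [dist_comm zs z] at h1
      linarith)).mono fun p => by linarith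
  have h1 := (abs_le.1 (hll _ hadm)).2
  have h01 : ∀ p, 0 ≤ sect i k z u p * bump zs (r / 10) p * bump 0 1 p ∧
      sect i k z u p * bump zs (r / 10) p * bump 0 1 p ≤ 1 := fun p =>
    ⟨mul_nonneg (hadm.1 p).1 (bump_mem _ _ _).1,
      mul_le_one₀ (hadm.1 p).2 (bump_mem _ _ _).1 (bump_mem _ _ _).2⟩
  have h2 := mu_ge (F := F) h.wt j i
    (Φ := fun p => sect i k z u p * bump zs (r / 10) p * bump 0 1 p) (fun p => (h01 p).1)
    (Q := fun l => |hgt F zs l| ≤ r / 10 ^ 9 ∧ |hgt F z l| ≤ u)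
    (Q' := fun l => |hgt F zs l| ≤ r / 10 ^ 9 ∧ 20 * u < |hgt F z l|)
    fun a ha b hb qa qb => by
      obtain ⟨e1, e2⟩ := hgt_cr h.ok he hij.symm ha hb
      have d1 := dist_cr h.ok he hij.symm ha hb qa.1 qb.1
      have d2 := hgt_lip h.ok he hb z (cr F a b)
      rw [e2, sub_zero] at d2
      have d3 := dist_triangle (cr F a b) zs 0
      have d4 := qb.2
      show 1 ≤ sect i k z u (cr F a b) * bump zs (r / 10) (cr F a b) * bump 0 1 (cr F a b)
      rw [sect_one h.ok h.t1 hij hjk hu ha e1 qa.2 (by linarith), bump_one hr10 (by linarith),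
        bump_one one_pos (by linarith)]
      norm_num
  have h3 := mu_le (F := F) h.wt i k
    (Φ := fun p => sect i k z u p * bump zs (r / 10) p * bump 0 1 p) (fun p => (h01 p).2)
    (Q := fun l => |hgt F zs l| ≤ r ∧ u < |hgt F z l|)
    (Q' := fun l => |hgt F zs l| ≤ r ∧ u < |hgt F z l|)
    fun a ha b hb hpos => by
      obtain ⟨e1, e2⟩ := hgt_cr h.ok he hik ha hb
      have hne : sect i k z u (cr F a b) * bump zs (r / 10) (cr F a b) * bump 0 1 (cr F a b) ≠ 0 :=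
        ne_of_gt hpos
      have n1 := left_ne_zero_of_mul (left_ne_zero_of_mul hne)
      have n2 := right_ne_zero_of_mul (left_ne_zero_of_mul hne)
      have d0 : dist (cr F a b) zs < 2 * (r / 10) := not_le.1 fun hh => n2 (bump_zero hr10 hh)
      have d1 := hgt_lip h.ok he ha zs (cr F a b)
      have d2 := hgt_lip h.ok he hb zs (cr F a b)
      rw [e1, sub_zero] at d1
      rw [e2, sub_zero] at d2
      exact ⟨⟨by linarith, not_le.1 fun hh =>
          n1 (sect_zero h.ok h.t1 (Or.inl rfl) hu ha e1 hh)⟩,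
        ⟨by linarith, not_le.1 fun hh => n1 (sect_zero h.ok h.t1 (Or.inr rfl) hu hb e2 hh)⟩⟩
  have h4 := mul_le_mul (u9_rest h.wt hr hA hc i) (u9_rest h.wt hr hA hc k)
    (wc_nonneg F h.wt k _) (by positivity)
  have h5 := mul_le_mul_of_nonneg_right (conc_near h.wt hA hc j)
    (wc_nonneg F h.wt i fun l => |hgt F zs l| ≤ r / 10 ^ 9 ∧ 20 * u < |hgt F z l|)
  have h6 := mul_le_mul_of_nonneg_right hB (by linarith : 0 ≤ LL F v (bump 0 1))
  have hg : 0 < √(LL F v (bump 0 1)) := Real.sqrt_pos.2 (by linarith)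
  have hg2 : √(LL F v (bump 0 1)) * √(LL F v (bump 0 1)) = LL F v (bump 0 1) :=
    Real.mul_self_sqrt (by linarith)
  set G := LL F v (bump 0 1)
  set g := √G
  set x := wc F v i fun l => |hgt F zs l| ≤ r / 10 ^ 9 ∧ 20 * u < |hgt F z l|
  have h7 : 89 / 100 * w * g * x ≤ 12 / 100 * w * g * (12 / 100 * w * g) + w ^ 2 / 200 * G := by
    linarith
  have h8 : 0 < w * g := by positivity
  refine le_of_mul_le_mul_left ?_ h8
  rw [← hg2] at h7
  nlinarith [mul_pos h8 h8]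

end

/-- Let `B, τ0` come from `ll` with `C = 200` and let `τ` be so small that
`(B + 1) √τ ≤ w ^ 2 / 200`. Put `λ = r / 10 ^ 9`. `Conc zs λ` is trivial. If `Conc z ρ` with
`8 ρ ≤ δ` (`TT_small`), `ρ ≤ λ`, then for `Φ = bump z (4 ρ)` (`adm_bump'`): `TT (Φ χ) ≤ 1 ≤ τ P G`
but `LL (Φ χ) ≥ (89 / 100 * w) ^ 2 G` (`conc_near`, `LL_ge_nl`), which contradicts `ll`. So there
is a least `j` such that no `z` has `Conc z (λ / 2 ^ j)`; `j ≥ 1`, `u = λ / 2 ^ (j - 1)`.
Tail: for distinct `i, j, k` take `Φ = sect i k z u * bump zs (r / 10)`, admissible for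
`(dist p z + u) / 200`. Far lines of class `i` and near lines of class `j` of the cluster cross
within `4 λ` of `zs` at distance at least `20 u / (21 / 10)` from `z`, where `Φ χ = 1`; so
`far * (89 / 100 w √G) ≤ mu j i (Φ χ) ≤ mu i k (Φ χ) + B √τ G`. If `Φ χ > 0` at a crossing of the
classes `i, k`, both lines have height at most `r` at `zs` and more than `u` at `z`; these have
weight at most `(2 / 100 + 1 / 10) w √G`. -/
theorem split {a w r : ℝ} (ha : 0 < a) (hw : 0 < w) (hr : 0 < r) (hr1 : r ≤ 1 / 1000) :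
    ∃ τ0 : ℝ, 0 < τ0 ∧ ∀ (ι : Type) (F : Fam ι) (v : Fin 3 → ℝ) (P K τ : ℝ) (zs : Pt),
    Loc F v P K τ a → τ ≤ τ0 → dist zs 0 ≤ 1 / 200 → Atom F v zs w r →
    ∃ (z : Pt) (u : ℝ), 0 < u ∧ u ≤ r / 10 ^ 9 ∧ dist z zs ≤ 8 * (r / 10 ^ 9) ∧
      (∀ i, 89 / 100 * w * √(LL F v (bump 0 1)) ≤ nl F v i z u) ∧
      (∀ i, wc F v i (fun l => |hgt F zs l| ≤ r / 10 ^ 9 ∧ 20 * u < |hgt F z l|) ≤
        w / 40 * √(LL F v (bump 0 1))) ∧
      ∀ z', ¬ Conc F v zs w r z' (u / 2) := by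
  obtain ⟨B, τ1, hB0, hτ1, hll⟩ := ll ha (by norm_num : (1 : ℝ) ≤ 200)
  refine ⟨min τ1 ((w ^ 2 / (200 * (B + 1))) ^ 2), lt_min hτ1 (by positivity), ?_⟩
  intro ι F v P K τ zs h hτ hzs hA
  have hll' := hll ι F v P K τ h (hτ.trans (min_le_left _ _))
  have hs : √τ ≤ w ^ 2 / (200 * (B + 1)) :=
    Real.sqrt_le_iff.2 ⟨by positivity, hτ.trans (min_le_right _ _)⟩
  have hB : (B + 1) * √τ ≤ w ^ 2 / 200 := by
    rw [le_div_iff₀ (by positivity)] at hs
    linarith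
  have hB' : B * √τ ≤ w ^ 2 / 200 := by
    have := Real.sqrt_nonneg τ
    linarith
  have he : τ ≤ 1 / 10 := by linarith [h.t1]
  obtain ⟨hG, -, -⟩ := h.big
  obtain ⟨δ, hδ, hsm⟩ := u9_small h hw hr1 hB hzs hA fun z u Φ h1 h2 h3 => (hll' z u Φ h1 h2 h3).2
  have hlam : 0 < r / 10 ^ 9 := by positivity
  have hle : ∀ j : ℕ, r / 10 ^ 9 / 2 ^ j ≤ r / 10 ^ 9 := fun j =>
    div_le_self hlam.le (one_le_pow₀ (by norm_num))
  have hex : ∃ j : ℕ, ∀ z, ¬ Conc F v zs w r z (r / 10 ^ 9 / 2 ^ j) := by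
    obtain ⟨j, hj⟩ := pow_unbounded_of_one_lt (8 * (r / 10 ^ 9) / δ) (by norm_num : (1 : ℝ) < 2)
    refine ⟨j, hsm _ (by positivity) (hle j) ?_⟩
    rw [div_lt_iff₀ hδ] at hj
    rw [← mul_div_assoc, div_le_iff₀ (by positivity)]
    linarith
  have h0 : Nat.find hex ≠ 0 := fun e => by
    have h1 := Nat.find_spec hex
    rw [e, pow_zero, div_one] at h1
    refine h1 zs fun i => not_lt.1 fun hh => ?_
    obtain ⟨l, -, h2, h3⟩ := wc_pos F h.wt (lt_of_le_of_lt (by positivity) hh)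
    linarith
  obtain ⟨j, hj⟩ := Nat.exists_eq_succ_of_ne_zero h0
  have h1 := Nat.find_spec hex
  have h2 := Nat.find_min hex (show j < Nat.find hex by omega)
  rw [hj] at h1
  obtain ⟨z, hc⟩ := not_forall.1 h2
  rw [not_not] at hc
  have hu : 0 < r / 10 ^ 9 / 2 ^ j := by positivity
  have hd := conc_dist h.ok he h.wt hw (by linarith) hA hc (hle j)
  have hz : dist z 0 ≤ 1 / 100 := by
    have := dist_triangle z zs 0
    linarith
  refine ⟨z, _, hu, hle j, hd, fun i =>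
    (conc_near h.wt hA hc i).trans (wc_mono F h.wt i fun a _ hq => hq.2), fun i => ?_, ?_⟩
  · have hij : i ≠ i + 1 := by revert i; decide
    have hjk : i + 1 ≠ i + 2 := by revert i; decide
    have hik : i ≠ i + 2 := by revert i; decide
    exact u9_tail h hw hr hr1 hB' hzs hA hu (hle j) hc hij hjk
      (fun Φ hΦ => (hll' z _ Φ hz hu hΦ).1 _ _ _ hij.symm hik hjk) hik
  · have e : r / 10 ^ 9 / 2 ^ j / 2 = r / 10 ^ 9 / 2 ^ j.succ := by
      rw [div_div (r / 10 ^ 9), Nat.succ_eq_add_one, pow_succ 2 j]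
    rw [e]
    exact h1

end Pool.Agent.MP_38296a_co.H21.URn

end FileUR9
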